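import Pool.Agent.Helper6K9.ES.Defs

set_option autoImplicit false

/-!
# Symbols: closure properties
-/

namespace Pool.Agent.Helper6K9.ES

open Set Filter Topology
open scoped ContDiff

theorem sy_bd {J : ℕ} {a : ℝ} {h : ℝ → ℝ} (H : Sy J a h) :
    ∃ C : ℝ, 0 ≤ C ∧ ∀ t : ℝ, 1 ≤ t → |h t| ≤ C * t ^ a := by
  have H0 : ∃ C : ℝ, ∀ t : ℝ, 1 ≤ t → |h t| ≤ C * t ^ a := by
    cases J with
    | zero => exact H
    | succ J => exact H.1
  obtain ⟨C, hC⟩ := H0
  refine ⟨C, ?_, hC⟩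
  have := hC 1 le_rfl
  rw [Real.one_rpow, mul_one] at this
  exact (abs_nonneg _).trans this

theorem sy_congr : ∀ (J : ℕ) (a : ℝ) {h g : ℝ → ℝ}, (∀ t, 0 < t → h t = g t) → Sy J a h →
    Sy J a g
  | 0, a, h, g, e, ⟨C, hC⟩ => ⟨C, fun t ht => by rw [← e t (by linarith)]; exact hC t ht⟩
  | J + 1, a, h, g, e, ⟨⟨C, hC⟩, hd, hJ⟩ => by
    refine ⟨⟨C, fun t ht => by rw [← e t (by linarith)]; exact hC t ht⟩, ?_, ?_⟩
    · exact hd.congr fun t ht => (e t ht).symm
    · refine sy_congr J _ (fun t ht => ?_) hJ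
      refine Filter.EventuallyEq.deriv_eq ?_
      filter_upwards [lt_mem_nhds ht] with s hs using e s hs

theorem sy_mono : ∀ (J : ℕ) {a b : ℝ} {h : ℝ → ℝ}, a ≤ b → Sy J a h → Sy J b h := by
  have key : ∀ (a b : ℝ) (h : ℝ → ℝ), a ≤ b → (∃ C : ℝ, ∀ t : ℝ, 1 ≤ t → |h t| ≤ C * t ^ a) →
      ∃ C : ℝ, ∀ t : ℝ, 1 ≤ t → |h t| ≤ C * t ^ b := by
    intro a b h hab hC
    obtain ⟨C, hC0, hC⟩ := sy_bd (J := 0) hC
    exact ⟨C, fun t ht => (hC t ht).trans
      (mul_le_mul_of_nonneg_left (Real.rpow_le_rpow_of_exponent_le ht hab) hC0)⟩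
  intro J
  induction J with
  | zero => exact fun hab hC => key _ _ _ hab hC
  | succ J ih => exact fun hab hC => ⟨key _ _ _ hab hC.1, hC.2.1, ih (by linarith) hC.2.2⟩

theorem sy_pred : ∀ (J : ℕ) {a : ℝ} {h : ℝ → ℝ}, Sy (J + 1) a h → Sy J a h := by
  intro J
  induction J with
  | zero => exact fun hC => hC.1
  | succ J ih => exact fun hC => ⟨hC.1, hC.2.1, ih hC.2.2⟩

theorem sy_add : ∀ (J : ℕ) {a : ℝ} {h g : ℝ → ℝ}, Sy J a h → Sy J a g →
    Sy J a (fun t => h t + g t) := by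
  have key : ∀ (a : ℝ) (h g : ℝ → ℝ), (∃ C : ℝ, ∀ t : ℝ, 1 ≤ t → |h t| ≤ C * t ^ a) →
      (∃ C : ℝ, ∀ t : ℝ, 1 ≤ t → |g t| ≤ C * t ^ a) →
      ∃ C : ℝ, ∀ t : ℝ, 1 ≤ t → |h t + g t| ≤ C * t ^ a := by
    rintro a h g ⟨C, hC⟩ ⟨D, hD⟩
    refine ⟨C + D, fun t ht => (abs_add_le _ _).trans ?_⟩
    have := hC t ht
    have := hD t ht
    linarith [add_mul C D (t ^ a)]
  intro J
  induction J with
  | zero => exact fun hh hg => key _ _ _ hh hg
  | succ J ih =>
    intro a h g hh hg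
    refine ⟨key _ _ _ hh.1 hg.1, hh.2.1.add hg.2.1, ?_⟩
    refine sy_congr J _ (fun t ht => ?_) (ih hh.2.2 hg.2.2)
    exact (deriv_fun_add ((hh.2.1 t ht).differentiableAt (Ioi_mem_nhds ht))
      ((hg.2.1 t ht).differentiableAt (Ioi_mem_nhds ht))).symm

theorem sy_mul : ∀ (J : ℕ) {a b : ℝ} {h g : ℝ → ℝ}, Sy J a h → Sy J b g →
    Sy J (a + b) (fun t => h t * g t) := by
  have key : ∀ (a b : ℝ) (h g : ℝ → ℝ), (∃ C : ℝ, ∀ t : ℝ, 1 ≤ t → |h t| ≤ C * t ^ a) →
      (∃ C : ℝ, ∀ t : ℝ, 1 ≤ t → |g t| ≤ C * t ^ b) →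
      ∃ C : ℝ, ∀ t : ℝ, 1 ≤ t → |h t * g t| ≤ C * t ^ (a + b) := by
    rintro a b h g hh hg
    obtain ⟨C, hC0, hC⟩ := sy_bd (J := 0) hh
    obtain ⟨D, hD0, hD⟩ := sy_bd (J := 0) hg
    refine ⟨C * D, fun t ht => ?_⟩
    rw [abs_mul, Real.rpow_add (by linarith)]
    calc |h t| * |g t| ≤ (C * t ^ a) * (D * t ^ b) :=
          mul_le_mul (hC t ht) (hD t ht) (abs_nonneg _) ((abs_nonneg _).trans (hC t ht))
      _ = C * D * (t ^ a * t ^ b) := by ring
  intro J
  induction J with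
  | zero => exact fun hh hg => key _ _ _ _ hh hg
  | succ J ih =>
    intro a b h g hh hg
    refine ⟨key _ _ _ _ hh.1 hg.1, hh.2.1.mul hg.2.1, ?_⟩
    have h1 := ih hh.2.2 (sy_pred J hg)
    have h2 := ih (sy_pred J hh) hg.2.2
    have e1 : a + 1 / 4 + b = a + b + 1 / 4 := by ring
    have e2 : a + (b + 1 / 4) = a + b + 1 / 4 := by ring
    rw [e1] at h1
    rw [e2] at h2
    refine sy_congr J _ (fun t ht => ?_) (sy_add J h1 h2)
    exact (deriv_fun_mul ((hh.2.1 t ht).differentiableAt (Ioi_mem_nhds ht))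
      ((hg.2.1 t ht).differentiableAt (Ioi_mem_nhds ht))).symm

theorem sy_rpow : ∀ (J : ℕ) (c p a : ℝ), p ≤ a → Sy J a (fun t => c * t ^ p) := by
  have key : ∀ c p a : ℝ, p ≤ a → ∃ C : ℝ, ∀ t : ℝ, 1 ≤ t → |c * t ^ p| ≤ C * t ^ a := by
    intro c p a hpa
    refine ⟨|c|, fun t ht => ?_⟩
    rw [abs_mul, abs_of_nonneg (Real.rpow_nonneg (by linarith) p)]
    exact mul_le_mul_of_nonneg_left (Real.rpow_le_rpow_of_exponent_le ht hpa) (abs_nonneg _)
  intro J
  induction J with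
  | zero => exact fun c p a hpa => key c p a hpa
  | succ J ih =>
    intro c p a hpa
    have hd : ∀ t : ℝ, 0 < t → HasDerivAt (fun t : ℝ => c * t ^ p) (c * p * t ^ (p - 1)) t := by
      intro t ht
      have := (Real.hasDerivAt_rpow_const (x := t) (p := p) (Or.inl ht.ne')).const_mul c
      rw [← mul_assoc] at this
      exact this
    refine ⟨key c p a hpa, fun t ht => (hd t ht).differentiableAt.differentiableWithinAt, ?_⟩
    exact sy_congr J _ (fun t ht => (hd t ht).deriv.symm) (ih (c * p) (p - 1) _ (by linarith))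

/-! ### all derivatives -/

variable {a b c : ℝ} {f g h : ℝ → ℝ}

theorem SyA.congr (H : SyA a h) (e : ∀ t, 0 < t → h t = g t) : SyA a g :=
  fun J => sy_congr J a e (H J)

theorem SyA.mono (H : SyA a h) (e : a ≤ b) : SyA b h := fun J => sy_mono J e (H J)

theorem SyA.add (H : SyA a h) (K : SyA a g) : SyA a (fun t => h t + g t) :=
  fun J => sy_add J (H J) (K J)

theorem SyA.mul (H : SyA a h) (K : SyA b g) : SyA (a + b) (fun t => h t * g t) :=
  fun J => sy_mul J (H J) (K J)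

/-- product, with a bound for the order -/
theorem SyA.mul' (H : SyA a h) (K : SyA b g) (e : a + b ≤ c) : SyA c (fun t => h t * g t) :=
  (H.mul K).mono e

theorem syA_rpow (c p : ℝ) {a : ℝ} (e : p ≤ a) : SyA a (fun t => c * t ^ p) :=
  fun J => sy_rpow J c p a e

theorem syA_rpow' (p : ℝ) {a : ℝ} (e : p ≤ a) : SyA a (fun t => t ^ p) :=
  (syA_rpow 1 p e).congr fun _ _ => one_mul _

theorem syA_const (c : ℝ) {a : ℝ} (e : 0 ≤ a) : SyA a (fun _ => c) :=
  (syA_rpow c 0 e).congr fun t _ => by rw [Real.rpow_zero, mul_one]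

theorem syA_zero {a : ℝ} : SyA a (fun _ => 0) :=
  (syA_rpow 0 a le_rfl).congr fun _ _ => zero_mul _

theorem SyA.const_mul (H : SyA a h) (c : ℝ) : SyA a (fun t => c * h t) :=
  ((syA_const c le_rfl).mul H).mono (by rw [zero_add])

theorem SyA.neg (H : SyA a h) : SyA a (fun t => - h t) :=
  (H.const_mul (-1)).congr fun t _ => by ring

theorem SyA.sub (H : SyA a h) (K : SyA a g) : SyA a (fun t => h t - g t) :=
  (H.add K.neg).congr fun t _ => by ring

theorem syA_sum {ι : Type} (s : Finset ι) {F : ι → ℝ → ℝ} (H : ∀ i ∈ s, SyA a (F i)) :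
    SyA a (fun t => ∑ i ∈ s, F i t) := by
  classical
  induction s using Finset.induction_on with
  | empty => exact syA_zero.congr fun t _ => by simp
  | insert i s hi ih =>
    refine ((H i (Finset.mem_insert_self i s)).add
      (ih fun j hj => H j (Finset.mem_insert_of_mem hj))).congr fun t _ => ?_
    rw [Finset.sum_insert hi]

theorem SyA.diffOn (H : SyA a h) : DifferentiableOn ℝ h (Ioi 0) := (H 1).2.1

theorem SyA.diffAt (H : SyA a h) {t : ℝ} (ht : 0 < t) : DifferentiableAt ℝ h t :=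
  (H.diffOn t ht).differentiableAt (Ioi_mem_nhds ht)

theorem SyA.deriv (H : SyA a h) : SyA (a + 1 / 4) (deriv h) := fun J => (H (J + 1)).2.2

theorem SyA.deriv2 (H : SyA a h) : SyA (a + 1 / 2) (_root_.deriv (_root_.deriv h)) :=
  H.deriv.deriv.mono (by linarith)

theorem SyA.bd (H : SyA a h) : ∃ C : ℝ, 0 ≤ C ∧ ∀ t : ℝ, 1 ≤ t → |h t| ≤ C * t ^ a :=
  sy_bd (H 0)

/-- to prove that `h` is a symbol it is enough to bound `h` and to know that `h'` is one -/
theorem syA_of_deriv (hb : ∃ C : ℝ, ∀ t : ℝ, 1 ≤ t → |h t| ≤ C * t ^ a)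
    (hd : ∀ t : ℝ, 0 < t → HasDerivAt h (g t) t) (hg : SyA (a + 1 / 4) g) : SyA a h := by
  intro J
  cases J with
  | zero => exact hb
  | succ J =>
    refine ⟨hb, fun t ht => (hd t ht).differentiableAt.differentiableWithinAt, ?_⟩
    exact sy_congr J _ (fun t ht => (hd t ht).deriv.symm) (hg J)

/-- the same with a bounded number of derivatives, for inductions -/
theorem sy_succ_of_deriv {J : ℕ} (hb : ∃ C : ℝ, ∀ t : ℝ, 1 ≤ t → |h t| ≤ C * t ^ a)
    (hd : ∀ t : ℝ, 0 < t → HasDerivAt h (g t) t) (hg : Sy J (a + 1 / 4) g) : Sy (J + 1) a h :=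
  ⟨hb, fun t ht => (hd t ht).differentiableAt.differentiableWithinAt,
    sy_congr J _ (fun t ht => (hd t ht).deriv.symm) hg⟩

theorem sy_sum {ι : Type} (J : ℕ) (s : Finset ι) {F : ι → ℝ → ℝ} (H : ∀ i ∈ s, Sy J a (F i)) :
    Sy J a (fun t => ∑ i ∈ s, F i t) := by
  classical
  induction s using Finset.induction_on with
  | empty => exact sy_congr J a (fun t _ => by simp) (syA_zero (a := a) J)
  | insert i s hi ih =>
    refine sy_congr J a (fun t _ => ?_) (sy_add J (H i (Finset.mem_insert_self i s))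
      (ih fun j hj => H j (Finset.mem_insert_of_mem hj)))
    rw [Finset.sum_insert hi]

/-! ### the curve -/

/-- the velocity of `th0` -/
noncomputable def th1 (i : ℕ) (t : ℝ) : ℝ :=
  if i = 0 then t ^ (1 / 4 : ℝ)
  else if i = 1 then t ^ (-7 / 20 : ℝ)
  else if i = 2 then t ^ (-7 / 10 : ℝ)
  else if i = 3 then t ^ (-21 / 20 : ℝ)
  else 0

theorem hasDerivAt_th0 (i : ℕ) {t : ℝ} (ht : 0 < t) : HasDerivAt (th0 i) (th1 i t) t := by
  have key : ∀ c p q r : ℝ, c * p = 1 → p - 1 = q →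
      HasDerivAt (fun t : ℝ => c * t ^ p) (t ^ q) t := by
    intro c p q _ h1 h2
    have := (Real.hasDerivAt_rpow_const (x := t) (p := p) (Or.inl ht.ne')).const_mul c
    rw [← mul_assoc, h1, one_mul, h2] at this
    exact this
  rcases Nat.lt_or_ge i 4 with hi | hi
  · interval_cases i
    · have := key (4 / 5) (5 / 4) (1 / 4) 0 (by norm_num) (by norm_num)
      have e : th0 0 = fun t : ℝ => 4 / 5 * t ^ (5 / 4 : ℝ) := by
        funext s
        simp [th0]
      have e' : th1 0 t = t ^ (1 / 4 : ℝ) := by simp [th1]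
      rw [e, e']
      exact this
    · have := key (20 / 13) (13 / 20) (-7 / 20) 0 (by norm_num) (by norm_num)
      have e : th0 1 = fun t : ℝ => 20 / 13 * t ^ (13 / 20 : ℝ) := by
        funext s
        simp [th0]
      have e' : th1 1 t = t ^ (-7 / 20 : ℝ) := by simp [th1]
      rw [e, e']
      exact this
    · have := key (10 / 3) (3 / 10) (-7 / 10) 0 (by norm_num) (by norm_num)
      have e : th0 2 = fun t : ℝ => 10 / 3 * t ^ (3 / 10 : ℝ) := by
        funext s
        simp [th0]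
      have e' : th1 2 t = t ^ (-7 / 10 : ℝ) := by simp [th1]
      rw [e, e']
      exact this
    · have := key (-20) (-1 / 20) (-21 / 20) 0 (by norm_num) (by norm_num)
      have e : th0 3 = fun t : ℝ => -20 * t ^ (-1 / 20 : ℝ) := by
        funext s
        simp [th0]
      have e' : th1 3 t = t ^ (-21 / 20 : ℝ) := by simp [th1]
      rw [e, e']
      exact this
  · have h0 : i ≠ 0 := by omega
    have h1 : i ≠ 1 := by omega
    have h2 : i ≠ 2 := by omega
    have h3 : i ≠ 3 := by omega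
    have e : th0 i = fun _ => 0 := by
      funext s
      simp [th0, h0, h1, h2, h3]
    rw [e]
    simpa [th1, h0, h1, h2, h3] using hasDerivAt_const t (0 : ℝ)

theorem syA_th1 (i : ℕ) : SyA (1 / 4) (th1 i) := by
  rcases Nat.lt_or_ge i 4 with hi | hi
  · interval_cases i
    · exact (syA_rpow' (1 / 4) le_rfl).congr fun t _ => by simp [th1]
    · exact (syA_rpow' (-7 / 20) (by norm_num)).congr fun t _ => by simp [th1]
    · exact (syA_rpow' (-7 / 10) (by norm_num)).congr fun t _ => by simp [th1]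
    · exact (syA_rpow' (-21 / 20) (by norm_num)).congr fun t _ => by simp [th1]
  · have h0 : i ≠ 0 := by omega
    have h1 : i ≠ 1 := by omega
    have h2 : i ≠ 2 := by omega
    have h3 : i ≠ 3 := by omega
    exact syA_zero.congr fun t _ => by simp [th1, h0, h1, h2, h3]

/-- the slow components -/
theorem syA_th1_succ (i : ℕ) : SyA (-7 / 20) (th1 (i + 1)) := by
  rcases Nat.lt_or_ge i 3 with hi | hi
  · interval_cases i
    · exact (syA_rpow' (-7 / 20) le_rfl).congr fun t _ => by simp [th1]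
    · exact (syA_rpow' (-7 / 10) (by norm_num)).congr fun t _ => by simp [th1]
    · exact (syA_rpow' (-21 / 20) (by norm_num)).congr fun t _ => by simp [th1]
  · have h1 : i ≠ 0 := by omega
    have h2 : i ≠ 1 := by omega
    have h3 : i ≠ 2 := by omega
    exact syA_zero.congr fun t _ => by simp [th1, h1, h2, h3]

theorem deriv_th {m : ℕ} (i : Fin (m + 1)) {t : ℝ} (ht : 0 < t) :
    deriv (fun t => th m t i) t = th1 i t := (hasDerivAt_th0 i ht).deriv

theorem crv_th (m : ℕ) : Crv (th m) := fun i =>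
  ⟨fun _ ht => (hasDerivAt_th0 i ht).differentiableAt.differentiableWithinAt,
    (syA_th1 i).congr fun _ ht => (deriv_th i ht).symm⟩

theorem crv_add {m : ℕ} {Y u : ℝ → Q m} (H : Crv Y) (hu : ∀ i, SyA (-1 / 2) fun t => u t i) :
    Crv fun t => Y t + u t := by
  intro i
  refine ⟨(H i).1.add (hu i).diffOn, ?_⟩
  refine ((H i).2.add ((hu i).deriv.mono (by norm_num))).congr fun t ht => ?_
  exact (deriv_fun_add (((H i).1 t ht).differentiableAt (Ioi_mem_nhds ht))
    ((hu i).diffAt ht)).symm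

end Pool.Agent.Helper6K9.ES
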