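import Pool.Agent.Helper6K9.ES.Stm
import Pool.Agent.Helper6K9.ES.SyB

set_option autoImplicit false

/-!
# [CMP] functions on a curve are symbols
-/

namespace Pool.Agent.Helper6K9.ES

open Set Filter Topology
open scoped ContDiff

namespace CmpL

variable {m : ℕ}

/-- a continuous periodic function is bounded -/
theorem per_bd {F : E m → ℝ} (hc : Continuous F) (hp : Per F) : ∃ C : ℝ, 0 ≤ C ∧ ∀ p, |F p| ≤ C := by
  have hK : IsCompact ((Set.pi Set.univ fun _ : Fin (m + 1) => Icc (0 : ℝ) 1) ×ˢ Icc (0 : ℝ) 1) :=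
    (isCompact_univ_pi fun _ => isCompact_Icc).prod isCompact_Icc
  obtain ⟨C, hC⟩ := hK.exists_bound_of_continuousOn hc.continuousOn
  refine ⟨|C|, abs_nonneg _, fun p => ?_⟩
  have h := hp (fun i => Int.fract (p.1 i), Int.fract p.2) (fun i => ⌊p.1 i⌋) ⌊p.2⌋
  have e : ((fun i => Int.fract (p.1 i), Int.fract p.2) : E m).1 + (fun i => ((⌊p.1 i⌋ : ℤ) : ℝ)) =
      p.1 := by
    funext i
    show Int.fract (p.1 i) + ((⌊p.1 i⌋ : ℤ) : ℝ) = p.1 i
    exact Int.fract_add_floor _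
  have e2 : ((fun i => Int.fract (p.1 i), Int.fract p.2) : E m).2 + ((⌊p.2⌋ : ℤ) : ℝ) = p.2 :=
    Int.fract_add_floor _
  rw [e, e2] at h
  have h' : F p = F (fun i => Int.fract (p.1 i), Int.fract p.2) := h
  rw [h', ← Real.norm_eq_abs]
  refine (hC _ ⟨fun i _ => ⟨Int.fract_nonneg _, (Int.fract_lt_one _).le⟩,
    ⟨Int.fract_nonneg _, (Int.fract_lt_one _).le⟩⟩).trans (le_abs_self C)

/-- decomposition of the derivative -/
theorem fderiv_split (F : E m → ℝ) (p : E m) (v : Q m) (w : ℝ) :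
    fderiv ℝ F p (v, w) = (∑ i, dX i F p * v i) + dT F p * w := by
  have e : ((v, w) : E m) = (∑ i, v i • ((Pi.single i 1, 0) : E m)) + w • ((0, 1) : E m) := by
    apply Prod.ext
    · rw [Prod.fst_add, Prod.fst_sum]
      simp only [Prod.smul_mk, smul_zero, add_zero]
      funext j
      rw [Finset.sum_apply]
      simp [Pi.single_apply]
    · rw [Prod.snd_add, Prod.snd_sum]
      simp
  rw [e, map_add, map_sum, map_smul]
  simp only [map_smul, smul_eq_mul, dX, dT]
  rw [mul_comm w]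
  congr 1
  exact Finset.sum_congr rfl fun i _ => mul_comm _ _

theorem hasDerivAt_curve {Y : ℝ → Q m} (hY : Crv Y) {t : ℝ} (ht : 0 < t) :
    HasDerivAt (fun t => ((Y t, t) : E m)) ((fun i => deriv (fun s => Y s i) t), 1) t := by
  have h1 : HasDerivAt Y (fun i => deriv (fun s => Y s i) t) t := by
    rw [hasDerivAt_pi]
    intro i
    exact (((hY i).1 t ht).differentiableAt (Ioi_mem_nhds ht)).hasDerivAt
  exact h1.prodMk (hasDerivAt_id t)

theorem hasDerivAt_comp {Y : ℝ → Q m} (hY : Crv Y) {F : E m → ℝ} (hF : Sm F) {t : ℝ}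
    (ht : 0 < t) : HasDerivAt (fun t => F (Y t, t))
      ((∑ i, dX i F (Y t, t) * deriv (fun s => Y s i) t) + dT F (Y t, t)) t := by
  have hd : DifferentiableAt ℝ F (Y t, t) :=
    (hF.1.differentiable (by simp)).differentiableAt
  have h := HasFDerivAt.comp_hasDerivAt (f := fun t => ((Y t, t) : E m)) t hd.hasFDerivAt
    (hasDerivAt_curve hY ht)
  rw [fderiv_split, mul_one] at h
  exact h

theorem sy_comp (hops : S_OPS) {Y : ℝ → Q m} (hY : Crv Y) : ∀ (J : ℕ) (F : E m → ℝ), Sm F →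
    Sy J 0 (fun t => F (Y t, t)) := by
  have key : ∀ F : E m → ℝ, Sm F → ∃ C : ℝ, ∀ t : ℝ, 1 ≤ t → |F (Y t, t)| ≤ C * t ^ (0 : ℝ) := by
    intro F hF
    obtain ⟨C, _, hC⟩ := per_bd hF.1.continuous hF.2
    exact ⟨C, fun t _ => by rw [Real.rpow_zero, mul_one]; exact hC _⟩
  intro J
  induction J with
  | zero => exact fun F hF => key F hF
  | succ J ih =>
    intro F hF
    obtain ⟨h1, h2, -⟩ := hops m F hF
    refine sy_succ_of_deriv (key F hF) (fun t ht => hasDerivAt_comp hY hF ht) ?_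
    refine sy_add J (sy_sum J _ fun i _ => ?_) (sy_mono J (by norm_num) (ih _ h2))
    exact sy_mul J (ih _ (h1 i)) ((hY i).2 J)

end CmpL

theorem cmp (hops : S_OPS) : S_CMP := fun _ _ _ hY hF =>
  ⟨fun J => CmpL.sy_comp hops hY J _ hF, fun _ ht => CmpL.hasDerivAt_comp hY hF ht⟩

end Pool.Agent.Helper6K9.ES
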