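import Pool.Agent.Helper6K9.ES.Stm
import Pool.Agent.W585.Param

/-! # The operators `av` and `an` -/

set_option autoImplicit false

namespace Pool.Agent.Helper6K9.ES

open Set Filter Topology
open scoped ContDiff

namespace OpsL

variable {m : ℕ}

/-- the direction of `x 0` -/
def u0 (m : ℕ) : E m := (Pi.single 0 1, 0)

/-- weighted average -/
noncomputable def aw (w : ℝ → ℝ) (F : E m → ℝ) (p : E m) : ℝ :=
  ∫ s in (0 : ℝ)..1, w s * F (p + s • u0 m)

theorem pt_eq (p : E m) (s : ℝ) :
    (p.1 + s • Pi.single (0 : Fin (m + 1)) (1 : ℝ), p.2) = p + s • u0 m := by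
  ext
  · rfl
  · simp [u0]

theorem av_eq (F : E m → ℝ) : av F = aw (fun _ => 1) F := by
  funext p
  unfold av aw
  simp only [pt_eq, one_mul]

theorem an_eq (F : E m → ℝ) : an F = aw (fun s => s - 1 / 2) F := by
  funext p
  unfold an aw
  simp only [pt_eq]

theorem smooth_aux {w : ℝ → ℝ} (hw : ContDiff ℝ ∞ w) {F : E m → ℝ} (hF : ContDiff ℝ ∞ F) :
    ContDiff ℝ ∞ (fun p : E m × ℝ => w p.2 * F (p.1 + p.2 • u0 m)) := by
  refine (hw.comp contDiff_snd).mul (hF.comp ?_)
  exact contDiff_fst.add (contDiff_snd.smul contDiff_const)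

theorem aw_smooth {w : ℝ → ℝ} (hw : ContDiff ℝ ∞ w) {F : E m → ℝ} (hF : ContDiff ℝ ∞ F) :
    ContDiff ℝ ∞ (aw w F) :=
  W585.contDiff_param (F := fun (p : E m) (s : ℝ) => w s * F (p + s • u0 m))
    (smooth_aux hw hF) 0 1

theorem aw_per {w : ℝ → ℝ} {F : E m → ℝ} (hF : Per F) : Per (aw w F) := by
  intro p k l
  unfold aw
  congr 1
  funext s
  congr 1
  have h1 := hF (p + s • u0 m) k l
  rw [← h1]
  congr 1
  ext
  · simp only [Prod.fst_add, Prod.smul_fst, Pi.add_apply]
    ring
  · simp only [Prod.snd_add, Prod.smul_snd]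
    ring

theorem fderiv_aw {w : ℝ → ℝ} (hw : ContDiff ℝ ∞ w) {F : E m → ℝ} (hF : ContDiff ℝ ∞ F)
    (p v : E m) : fderiv ℝ (aw w F) p v = aw w (fun q => fderiv ℝ F q v) p := by
  have h1 := W585.hasFDerivAt_param (F := fun (p : E m) (s : ℝ) => w s * F (p + s • u0 m))
    ((smooth_aux hw hF).of_le (by norm_cast)) 0 1 p
  have h2 : ∀ s : ℝ, fderiv ℝ (fun y : E m => w s * F (y + s • u0 m)) p =
      w s • fderiv ℝ F (p + s • u0 m) := by
    intro s
    have h3 : HasFDerivAt (fun y : E m => F (y + s • u0 m)) (fderiv ℝ F (p + s • u0 m)) p := by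
      have h4 : HasFDerivAt F (fderiv ℝ F (p + s • u0 m)) (p + s • u0 m) :=
        (hF.differentiable (by simp) _).hasFDerivAt
      exact (hasFDerivAt_comp_add_right (s • u0 m)).2 h4
    exact (h3.const_mul (w s)).fderiv
  have h5 : fderiv ℝ (aw w F) p = ∫ s in (0 : ℝ)..1, w s • fderiv ℝ F (p + s • u0 m) := by
    have h6 : HasFDerivAt (aw w F) _ p := h1
    rw [h6.fderiv]
    simp only [h2]
  have hc : Continuous fun s : ℝ => w s • fderiv ℝ F (p + s • u0 m) := by
    have h7 : Continuous (fderiv ℝ F) := hF.continuous_fderiv (by simp)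
    have h8 : Continuous w := hw.continuous
    exact h8.smul (h7.comp (by fun_prop))
  rw [h5, ContinuousLinearMap.intervalIntegral_apply (hc.intervalIntegrable _ _)]
  unfold aw
  rfl

theorem dir_smooth {F : E m → ℝ} (hF : ContDiff ℝ ∞ F) (v : E m) :
    ContDiff ℝ ∞ (fun q => fderiv ℝ F q v) :=
  (hF.fderiv_right (m := ∞) (by norm_cast)).clm_apply contDiff_const

theorem dir_per {F : E m → ℝ} (hF : Per F) (v : E m) : Per (fun q => fderiv ℝ F q v) := by
  intro p k l
  have h1 : F = fun q : E m => F (q + ((fun i => (k i : ℝ)), (l : ℝ))) := by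
    funext q
    exact (hF q k l).symm
  have h2 : fderiv ℝ F p = fderiv ℝ F (p + ((fun i => (k i : ℝ)), (l : ℝ))) := by
    conv_lhs => rw [h1]
    exact fderiv_comp_add_right _
  show fderiv ℝ F (p + ((fun i => (k i : ℝ)), (l : ℝ))) v = _
  rw [← h2]

theorem line_deriv {F : E m → ℝ} (hF : ContDiff ℝ ∞ F) (p : E m) (s : ℝ) :
    HasDerivAt (fun s : ℝ => F (p + s • u0 m)) (dX 0 F (p + s • u0 m)) s := by
  have h4 : HasFDerivAt F (fderiv ℝ F (p + s • u0 m)) (p + s • u0 m) :=
    (hF.differentiable (by simp) _).hasFDerivAt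
  have h5 : HasDerivAt (fun s : ℝ => p + s • u0 m) (u0 m) s := by
    simpa using ((hasDerivAt_id s).smul_const (u0 m)).const_add p
  exact h4.comp_hasDerivAt s h5

theorem per_u0 {F : E m → ℝ} (hF : Per F) (p : E m) : F (p + u0 m) = F p := by
  have h1 := hF p (Pi.single 0 1) 0
  rw [← h1]
  congr 1
  ext i
  · simp only [u0, Prod.fst_add, Pi.add_apply]
    congr 1
    by_cases hi : i = 0
    · subst hi
      simp
    · simp [hi]
  · simp [u0]

/-- averages are invariant in the direction of `x 0` -/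
theorem av_shift {F : E m → ℝ} (hP : Per F) (p : E m) (s : ℝ) :
    av F (p + s • u0 m) = av F p := by
  rw [av_eq]
  unfold aw
  simp only [one_mul]
  have h1 : ∀ s' : ℝ, F (p + s • u0 m + s' • u0 m) = F (p + (s' + s) • u0 m) := by
    intro s'
    congr 1
    rw [add_smul]
    abel
  simp only [h1]
  rw [intervalIntegral.integral_comp_add_right (fun s' => F (p + s' • u0 m)) s, zero_add]
  have h2 : Function.Periodic (fun s' : ℝ => F (p + s' • u0 m)) 1 := by
    intro s'
    show F (p + (s' + 1) • u0 m) = F (p + s' • u0 m)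
    rw [add_smul, one_smul, ← add_assoc, per_u0 hP]
  have h3 := h2.intervalIntegral_add_eq s 0
  rw [zero_add] at h3
  rw [add_comm 1 s]
  exact h3

end OpsL

open OpsL in
theorem ops : S_OPS := by
  intro m F ⟨hF, hP⟩
  have hw1 : ContDiff ℝ ∞ (fun _ : ℝ => (1 : ℝ)) := contDiff_const
  have hw2 : ContDiff ℝ ∞ (fun s : ℝ => s - 1 / 2) := contDiff_id.sub contDiff_const
  have hcF : Continuous F := hF.continuous
  have hdX : ∀ i, Sm (dX i F) := fun i => ⟨dir_smooth hF _, dir_per hP _⟩
  have hdT : Sm (dT F) := ⟨dir_smooth hF _, dir_per hP _⟩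
  have hav : Sm (av F) := by
    rw [av_eq]
    exact ⟨aw_smooth hw1 hF, aw_per hP⟩
  have han : Sm (an F) := by
    rw [an_eq]
    exact ⟨aw_smooth hw2 hF, aw_per hP⟩
  have h1 : ∀ i, dX i (av F) = av (dX i F) := by
    intro i
    funext p
    rw [av_eq, av_eq]
    exact fderiv_aw hw1 hF p _
  have h2 : dT (av F) = av (dT F) := by
    funext p
    rw [av_eq, av_eq]
    exact fderiv_aw hw1 hF p _
  have h3 : ∀ i, dX i (an F) = an (dX i F) := by
    intro i
    funext p
    rw [an_eq, an_eq]
    exact fderiv_aw hw2 hF p _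
  have h4 : dT (an F) = an (dT F) := by
    funext p
    rw [an_eq, an_eq]
    exact fderiv_aw hw2 hF p _
  have hcont0 : ∀ p, Continuous fun s : ℝ => dX 0 F (p + s • u0 m) := by
    intro p
    exact (hdX 0).1.continuous.comp (by fun_prop)
  have h5 : ∀ p, dX 0 (an F) p = F p - av F p := by
    intro p
    rw [h3, an_eq, av_eq]
    unfold aw
    have e1 := intervalIntegral.integral_mul_deriv_eq_deriv_mul (a := (0 : ℝ)) (b := 1)
      (u := fun s : ℝ => s - 1 / 2) (v := fun s : ℝ => F (p + s • u0 m)) (u' := fun _ => 1)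
      (v' := fun s => dX 0 F (p + s • u0 m))
      (fun s _ => (hasDerivAt_id s).sub_const _) (fun s _ => line_deriv hF p s)
      (continuous_const.intervalIntegrable _ _) ((hcont0 p).intervalIntegrable _ _)
    rw [e1]
    have e2 : F (p + (1 : ℝ) • u0 m) = F p := by
      rw [one_smul, per_u0 hP]
    rw [e2, zero_smul, add_zero]
    ring
  have h6 : ∀ p, av (dX 0 F) p = 0 := by
    intro p
    rw [av_eq]
    unfold aw
    simp only [one_mul]
    rw [intervalIntegral.integral_eq_sub_of_hasDerivAt (fun s _ => line_deriv hF p s)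
      ((hcont0 p).intervalIntegrable _ _)]
    rw [one_smul, per_u0 hP, zero_smul, add_zero, sub_self]
  have h7 : av (av F) = av F := by
    funext p
    conv_lhs => rw [av_eq]
    unfold aw
    simp only [av_shift hP, one_mul]
    simp
  have h8 : ∀ p, av (an F) p = 0 := by
    intro p
    rw [av_eq, an_eq]
    unfold aw
    simp only [one_mul]
    rw [MeasureTheory.intervalIntegral_intervalIntegral_swap]
    · have e1 : ∀ s' : ℝ, ∫ s in (0 : ℝ)..1, (s' - 1 / 2) * F (p + s • u0 m + s' • u0 m) =
          (s' - 1 / 2) * av F p := by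
        intro s'
        rw [intervalIntegral.integral_const_mul, ← av_shift hP p s', av_eq]
        unfold aw
        congr 1
        refine intervalIntegral.integral_congr fun s _ => ?_
        simp only [one_mul]
        congr 1
        abel
      simp only [e1]
      rw [intervalIntegral.integral_mul_const]
      have e2 : ∫ s in (0 : ℝ)..1, (s - 1 / 2) = 0 := by
        have e3 : ∀ s ∈ uIcc (0 : ℝ) 1, HasDerivAt (fun s : ℝ => (s ^ 2 - s) / 2) (s - 1 / 2) s := by
          intro s _
          have e4 := (((hasDerivAt_id s).pow 2).sub (hasDerivAt_id s)).div_const 2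
          have e5 : (((2 : ℕ) : ℝ) * id s ^ (2 - 1) * 1 - 1) / 2 = s - 1 / 2 := by
            simp
            ring
          rw [e5] at e4
          exact e4
        rw [intervalIntegral.integral_eq_sub_of_hasDerivAt e3
          ((continuous_id.sub continuous_const).intervalIntegrable _ _)]
        norm_num
      rw [e2, zero_mul]
    · have hcc : Continuous (Function.uncurry fun x y : ℝ =>
          (y - 1 / 2) * F (p + x • u0 m + y • u0 m)) := by
        have h9 : Continuous fun q : ℝ × ℝ => F (p + q.1 • u0 m + q.2 • u0 m) :=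
          hcF.comp (by fun_prop)
        have h10 : Continuous fun q : ℝ × ℝ => q.2 - 1 / 2 := by fun_prop
        exact h10.mul h9
      refine (hcc.continuousOn.integrableOn_compact
        ((isCompact_uIcc (a := (0 : ℝ)) (b := 1)).prod (isCompact_uIcc (a := (0 : ℝ)) (b := 1)))).mono_set
        (Set.prod_mono uIoc_subset_uIcc uIoc_subset_uIcc)
  exact ⟨hdX, hdT, hav, han, h1, h2, h3, h4, h5, h6, h7, h8⟩

end Pool.Agent.Helper6K9.ES
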