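import Pool.Agent.Helper6K9.ES.Stm
import Pool.Agent.Helper6K9.ES.SyB

set_option autoImplicit false

/-!
# Escaping orbits, [TUB]: bounds for the tube potential
-/

namespace Pool.Agent.Helper6K9.ES

open Set Filter Topology
open scoped ContDiff

namespace TubL

variable {m : ℕ}

/-- the half space `t > 0` -/
def U (m : ℕ) : Set (E m) := {p | 0 < p.2}

lemma isOpen_U : IsOpen (U m) := isOpen_lt continuous_const continuous_snd

lemma uniq_U : UniqueDiffOn ℝ (U m) := isOpen_U.uniqueDiffOn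

/-- the `j`-th derivative (`j ≤ 2`) is `O(t^(a + b j))` -/
def Wt (b a : ℝ) (F : E m → ℝ) : Prop :=
  ContDiffOn ℝ 2 F (U m) ∧ ∃ C : ℝ, 0 ≤ C ∧ ∀ p : E m, 1 ≤ p.2 → ∀ j : ℕ, j ≤ 2 →
    ‖iteratedFDerivWithin ℝ j F (U m) p‖ ≤ C * p.2 ^ (a + b * j)

/-- phases: the derivatives of order 1 and 2 -/
def Ph (b : ℝ) (F : E m → ℝ) : Prop :=
  ContDiffOn ℝ 2 F (U m) ∧ ∃ D : ℝ, 0 ≤ D ∧ ∀ p : E m, 1 ≤ p.2 → ∀ j : ℕ, 1 ≤ j → j ≤ 2 →
    ‖iteratedFDerivWithin ℝ j F (U m) p‖ ≤ (D * p.2 ^ b) ^ j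

lemma mem_U {p : E m} (h : 1 ≤ p.2) : p ∈ U m := lt_of_lt_of_le one_pos h

lemma Wt.congr {b a : ℝ} {F G : E m → ℝ} (H : Wt b a F) (e : EqOn G F (U m)) : Wt b a G := by
  obtain ⟨h1, C, hC, h2⟩ := H
  refine ⟨h1.congr e, C, hC, fun p hp j hj => ?_⟩
  rw [iteratedFDerivWithin_congr e (mem_U hp) j]
  exact h2 p hp j hj

lemma Wt.mono {b b' a a' : ℝ} {F : E m → ℝ} (H : Wt b a F) (hb : b ≤ b') (ha : a ≤ a') :
    Wt b' a' F := by
  obtain ⟨h1, C, hC, h2⟩ := H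
  refine ⟨h1, C, hC, fun p hp j hj => (h2 p hp j hj).trans ?_⟩
  refine mul_le_mul_of_nonneg_left (Real.rpow_le_rpow_of_exponent_le hp ?_) hC
  have : b * j ≤ b' * j := mul_le_mul_of_nonneg_right hb (Nat.cast_nonneg _)
  linarith

lemma Wt.add {b a : ℝ} {F G : E m → ℝ} (H : Wt b a F) (K : Wt b a G) :
    Wt b a (fun p => F p + G p) := by
  obtain ⟨h1, C, hC, h2⟩ := H
  obtain ⟨k1, D, hD, k2⟩ := K
  refine ⟨h1.add k1, C + D, add_nonneg hC hD, fun p hp j hj => ?_⟩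
  have hj' : ((j : ℕ) : WithTop ℕ∞) ≤ 2 := by exact_mod_cast hj
  have e := iteratedFDerivWithin_add_apply (i := j) ((h1 p (mem_U hp)).of_le hj')
    ((k1 p (mem_U hp)).of_le hj') uniq_U (mem_U hp)
  have e' : iteratedFDerivWithin ℝ j (fun p => F p + G p) (U m) p =
    iteratedFDerivWithin ℝ j F (U m) p + iteratedFDerivWithin ℝ j G (U m) p := e
  rw [e', add_mul]
  exact (norm_add_le _ _).trans (add_le_add (h2 p hp j hj) (k2 p hp j hj))

lemma Wt.mul {b a a' : ℝ} {F G : E m → ℝ} (H : Wt b a F) (K : Wt b a' G) :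
    Wt b (a + a') (fun p => F p * G p) := by
  obtain ⟨h1, C, hC, h2⟩ := H
  obtain ⟨k1, D, hD, k2⟩ := K
  refine ⟨h1.mul k1, 4 * (C * D), by positivity, fun p hp j hj => ?_⟩
  have hj' : ((j : ℕ) : WithTop ℕ∞) ≤ 2 := by exact_mod_cast hj
  have hp0 : 0 < p.2 := mem_U hp
  refine (norm_iteratedFDerivWithin_mul_le h1 k1 uniq_U (mem_U hp) hj').trans ?_
  have key : ∀ i ∈ Finset.range (j + 1), (j.choose i : ℝ) *
      ‖iteratedFDerivWithin ℝ i F (U m) p‖ * ‖iteratedFDerivWithin ℝ (j - i) G (U m) p‖ ≤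
      (j.choose i : ℝ) * (C * D * p.2 ^ (a + a' + b * j)) := by
    intro i hi
    have hi' : i ≤ j := by
      rw [Finset.mem_range] at hi
      omega
    rw [mul_assoc]
    refine mul_le_mul_of_nonneg_left ?_ (Nat.cast_nonneg _)
    refine (mul_le_mul (h2 p hp i (by omega)) (k2 p hp (j - i) (by omega)) (norm_nonneg _)
      (by positivity)).trans (le_of_eq ?_)
    have e : a + a' + b * j = (a + b * i) + (a' + b * ((j - i : ℕ) : ℝ)) := by
      rw [Nat.cast_sub hi']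
      ring
    rw [e, Real.rpow_add hp0 (a + b * i) (a' + b * ((j - i : ℕ) : ℝ))]
    ring
  refine (Finset.sum_le_sum key).trans ?_
  rw [← Finset.sum_mul]
  have h4 : ∑ i ∈ Finset.range (j + 1), (j.choose i : ℝ) ≤ 4 := by
    have := Nat.sum_range_choose j
    have h5 : ∑ i ∈ Finset.range (j + 1), (j.choose i : ℝ) = 2 ^ j := by exact_mod_cast this
    rw [h5]
    calc (2 : ℝ) ^ j ≤ 2 ^ 2 := pow_le_pow_right₀ (by norm_num) hj
      _ = 4 := by norm_num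
  have h6 : 0 ≤ C * D * p.2 ^ (a + a' + b * j) := by positivity
  nlinarith

lemma Wt.const {b : ℝ} (hb : 0 ≤ b) (c : ℝ) : Wt (m := m) b 0 (fun _ => c) := by
  refine ⟨contDiffOn_const, |c|, abs_nonneg _, fun p hp j hj => ?_⟩
  have h1 : (1 : ℝ) ≤ p.2 ^ (0 + b * j) :=
    Real.one_le_rpow hp (by positivity)
  have h2 : ‖iteratedFDerivWithin ℝ j (fun _ : E m => c) (U m) p‖ ≤ |c| := by
    rcases Nat.eq_zero_or_pos j with h0 | h0
    · subst h0
      rw [norm_iteratedFDerivWithin_zero]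
      exact le_rfl
    · rw [iteratedFDerivWithin_const_of_ne (by omega)]
      simp
  nlinarith [abs_nonneg c]

lemma Wt.const_mul {b a : ℝ} (hb : 0 ≤ b) {F : E m → ℝ} (H : Wt b a F) (c : ℝ) :
    Wt b a (fun p => c * F p) := by
  have := (Wt.const hb c).mul H
  rwa [zero_add] at this

lemma Wt.prod {ι : Type} {b : ℝ} (hb : 0 ≤ b) (s : Finset ι) (F : ι → E m → ℝ)
    (H : ∀ i ∈ s, Wt b 0 (F i)) : Wt b 0 (fun p => ∏ i ∈ s, F i p) := by
  classical
  induction s using Finset.induction_on with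
  | empty => exact (Wt.const hb 1).congr fun p _ => by simp
  | insert i s hi ih =>
    have h1 := (H i (Finset.mem_insert_self i s)).mul
      (ih fun j hj => H j (Finset.mem_insert_of_mem hj))
    rw [add_zero] at h1
    exact h1.congr fun p _ => by rw [Finset.prod_insert hi]

lemma Wt.sum {ι : Type} {b a : ℝ} (s : Finset ι) (F : ι → E m → ℝ)
    (H : ∀ i ∈ s, Wt b a (F i)) : Wt b a (fun p => ∑ i ∈ s, F i p) := by
  classical
  induction s using Finset.induction_on with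
  | empty =>
    refine ⟨contDiffOn_const, 0, le_rfl, fun p hp j hj => ?_⟩
    have e : (fun p : E m => ∑ i ∈ (∅ : Finset ι), F i p) = fun _ => 0 := by
      funext p
      simp
    rw [e]
    rcases Nat.eq_zero_or_pos j with h0 | h0
    · subst h0
      rw [norm_iteratedFDerivWithin_zero]
      simp
    · rw [iteratedFDerivWithin_const_of_ne (by omega)]
      simp
  | insert i s hi ih =>
    exact ((H i (Finset.mem_insert_self i s)).add
      (ih fun j hj => H j (Finset.mem_insert_of_mem hj))).congr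
      fun p _ => by rw [Finset.sum_insert hi]

/-- composition with a function with bounded derivatives -/
lemma Ph.comp {b : ℝ} {F : E m → ℝ} (H : Ph b F) (g : ℝ → ℝ) (hg : ContDiff ℝ 2 g) (M : ℝ)
    (hM : ∀ i : ℕ, i ≤ 2 → ∀ y : ℝ, ‖iteratedFDeriv ℝ i g y‖ ≤ M) :
    Wt b 0 (fun p => g (F p)) := by
  obtain ⟨h1, D, hD, h2⟩ := H
  have hM0 : 0 ≤ M := (norm_nonneg _).trans (hM 0 (by omega) 0)
  refine ⟨hg.comp_contDiffOn h1, 2 * M * (D + 1) ^ 2, by positivity, fun p hp j hj => ?_⟩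
  have hj' : ((j : ℕ) : WithTop ℕ∞) ≤ 2 := by exact_mod_cast hj
  have hp0 : 0 < p.2 := mem_U hp
  have h3 := norm_iteratedFDerivWithin_comp_le (g := g) (f := F) (n := j) (s := U m)
    (t := univ) (x := p) (N := 2) hg.contDiffOn h1 hj' uniqueDiffOn_univ uniq_U
    (fun _ _ => mem_univ _) (mem_U hp) (C := M) (D := D * p.2 ^ b)
    (fun i hi => by
      rw [iteratedFDerivWithin_univ]
      exact hM i (by omega) _)
    (fun i hi1 hi2 => h2 p hp i hi1 (by omega))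
  have e : (fun p => g (F p)) = g ∘ F := rfl
  rw [e]
  refine h3.trans ?_
  rw [mul_pow]
  have e2 : (p.2 ^ b) ^ j = p.2 ^ (0 + b * (j : ℝ)) := by
    rw [zero_add, Real.rpow_mul hp0.le, Real.rpow_natCast]
  rw [e2]
  have h4 : (j.factorial : ℝ) ≤ 2 := by
    have : j.factorial ≤ 2 := (Nat.factorial_le hj).trans (by decide)
    exact_mod_cast this
  have h5 : D ^ j ≤ (D + 1) ^ 2 :=
    (pow_le_pow_left₀ hD (by linarith) j).trans (pow_le_pow_right₀ (by linarith) hj)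
  have h6 : (0 : ℝ) ≤ p.2 ^ (0 + b * (j : ℝ)) := by positivity
  calc (j.factorial : ℝ) * M * (D ^ j * p.2 ^ (0 + b * (j : ℝ)))
      ≤ 2 * M * ((D + 1) ^ 2 * p.2 ^ (0 + b * (j : ℝ))) := by
        refine mul_le_mul (mul_le_mul_of_nonneg_right h4 hM0)
          (mul_le_mul_of_nonneg_right h5 h6) (by positivity) (by positivity)
    _ = _ := by ring

/-! ### functions of `t` -/

lemma norm1 {F : E m → ℝ} {p : E m} (hp : p ∈ U m) :
    ‖iteratedFDerivWithin ℝ 1 F (U m) p‖ = ‖fderiv ℝ F p‖ := by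
  rw [iteratedFDerivWithin_of_isOpen 1 isOpen_U hp, norm_iteratedFDeriv_one]

lemma norm2 {F : E m → ℝ} {p : E m} (hp : p ∈ U m) :
    ‖iteratedFDerivWithin ℝ 2 F (U m) p‖ = ‖fderiv ℝ (fderiv ℝ F) p‖ := by
  rw [iteratedFDerivWithin_of_isOpen 2 isOpen_U hp, ← norm_iteratedFDeriv_one,
    norm_iteratedFDeriv_fderiv]

lemma fd_time {h h1 : ℝ → ℝ} (hd : ∀ t : ℝ, 0 < t → HasDerivAt h (h1 t) t) {p : E m}
    (hp : p ∈ U m) : HasFDerivAt (fun p : E m => h p.2)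
      (h1 p.2 • ContinuousLinearMap.snd ℝ (Q m) ℝ) p :=
  (hd p.2 hp).comp_hasFDerivAt p hasFDerivAt_snd

lemma time {h h1 h2 : ℝ → ℝ} (hd : ∀ t : ℝ, 0 < t → HasDerivAt h (h1 t) t)
    (hd1 : ∀ t : ℝ, 0 < t → HasDerivAt h1 (h2 t) t) (hc : ContinuousOn h2 (Ioi 0)) :
    ContDiffOn ℝ 2 (fun p : E m => h p.2) (U m) ∧ ∀ p ∈ U m,
      ‖fderiv ℝ (fun p : E m => h p.2) p‖ ≤ |h1 p.2| ∧
      ‖fderiv ℝ (fderiv ℝ (fun p : E m => h p.2)) p‖ ≤ |h2 p.2| := by
  have hs := ContinuousLinearMap.norm_snd_le ℝ (Q m) ℝ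
  constructor
  · have hcd : ContDiffOn ℝ 2 h (Ioi 0) := by
      have e2 : ((2 : ℕ) : WithTop ℕ∞) = 1 + 1 := by norm_num
      rw [show (2 : WithTop ℕ∞) = 1 + 1 by norm_num, contDiffOn_succ_iff_deriv_of_isOpen isOpen_Ioi]
      refine ⟨fun t ht => (hd t ht).differentiableAt.differentiableWithinAt, by simp, ?_⟩
      have e3 : EqOn (deriv h) h1 (Ioi 0) := fun t ht => (hd t ht).deriv
      refine ContDiffOn.congr ?_ e3
      rw [show (1 : WithTop ℕ∞) = 0 + 1 by norm_num, contDiffOn_succ_iff_deriv_of_isOpen isOpen_Ioi]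
      refine ⟨fun t ht => (hd1 t ht).differentiableAt.differentiableWithinAt, by simp, ?_⟩
      rw [contDiffOn_zero]
      exact hc.congr fun t ht => (hd1 t ht).deriv
    exact hcd.comp contDiff_snd.contDiffOn fun p hp => hp
  · intro p hp
    have e : ∀ {q : E m}, q ∈ U m → fderiv ℝ (fun p : E m => h p.2) q =
        h1 q.2 • ContinuousLinearMap.snd ℝ (Q m) ℝ := fun hq => (fd_time hd hq).fderiv
    constructor
    · rw [e hp, norm_smul, Real.norm_eq_abs]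
      exact mul_le_of_le_one_right (abs_nonneg _) hs
    · have e2 : fderiv ℝ (fun p : E m => h p.2) =ᶠ[𝓝 p]
          fun q => h1 q.2 • ContinuousLinearMap.snd ℝ (Q m) ℝ := by
        filter_upwards [isOpen_U.mem_nhds hp] with q hq using e hq
      have e3 := (fd_time hd1 hp).smul_const (ContinuousLinearMap.snd ℝ (Q m) ℝ)
      rw [e2.fderiv_eq, e3.fderiv, ContinuousLinearMap.norm_smulRight_apply, norm_smul,
        Real.norm_eq_abs]
      calc |h2 p.2| * ‖ContinuousLinearMap.snd ℝ (Q m) ℝ‖ * ‖ContinuousLinearMap.snd ℝ (Q m) ℝ‖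
          ≤ |h2 p.2| * 1 * 1 := by gcongr
        _ = |h2 p.2| := by ring

lemma time_Wt {h h1 h2 : ℝ → ℝ} {a b C : ℝ} (hC : 0 ≤ C)
    (hd : ∀ t : ℝ, 0 < t → HasDerivAt h (h1 t) t)
    (hd1 : ∀ t : ℝ, 0 < t → HasDerivAt h1 (h2 t) t) (hc : ContinuousOn h2 (Ioi 0))
    (b0 : ∀ t : ℝ, 1 ≤ t → |h t| ≤ C * t ^ a) (b1 : ∀ t : ℝ, 1 ≤ t → |h1 t| ≤ C * t ^ (a + b))
    (b2 : ∀ t : ℝ, 1 ≤ t → |h2 t| ≤ C * t ^ (a + b * 2)) :
    Wt (m := m) b a (fun p => h p.2) := by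
  obtain ⟨k1, k2⟩ := time (m := m) hd hd1 hc
  refine ⟨k1, C, hC, fun p hp j hj => ?_⟩
  interval_cases j
  · rw [norm_iteratedFDerivWithin_zero]
    simpa using b0 p.2 hp
  · rw [norm1 (mem_U hp)]
    have := (k2 p (mem_U hp)).1.trans (b1 p.2 hp)
    simpa using this
  · rw [norm2 (mem_U hp)]
    have := (k2 p (mem_U hp)).2.trans (b2 p.2 hp)
    simpa using this

lemma sy_Wt {h : ℝ → ℝ} {a : ℝ} (H : SyA a h) : Wt (m := m) (1 / 4) a (fun p => h p.2) := by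
  obtain ⟨C0, hC0, b0⟩ := H.bd
  obtain ⟨C1, hC1, b1⟩ := H.deriv.bd
  obtain ⟨C2, hC2, b2⟩ := H.deriv2.bd
  have hle : ∀ {C e t : ℝ}, C ≤ C0 + C1 + C2 → 1 ≤ t → C * t ^ e ≤ (C0 + C1 + C2) * t ^ e :=
    fun hC ht => mul_le_mul_of_nonneg_right hC (by positivity)
  refine time_Wt (C := C0 + C1 + C2) (h1 := deriv h) (h2 := deriv (deriv h)) (by positivity)
    (fun t ht => (H.diffAt ht).hasDerivAt) (fun t ht => (H.deriv.diffAt ht).hasDerivAt)
    (fun t ht => (H.deriv2.diffAt ht).continuousAt.continuousWithinAt)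
    (fun t ht => (b0 t ht).trans (hle (by linarith) ht))
    (fun t ht => (b1 t ht).trans (hle (by linarith) ht)) (fun t ht => ?_)
  have e : a + 1 / 4 * 2 = a + 1 / 2 := by ring
  rw [e]
  exact (b2 t ht).trans (hle (by linarith) ht)

/-- powers of `t`, without loss -/
lemma rpow_Wt (c : ℝ) : Wt (m := m) 0 c (fun p => p.2 ^ c) := by
  refine time_Wt (C := 1 + |c| + |c * (c - 1)|) (h := fun t => t ^ c)
    (h1 := fun t => c * t ^ (c - 1)) (h2 := fun t => c * ((c - 1) * t ^ (c - 1 - 1)))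
    (by positivity) (fun t ht => Real.hasDerivAt_rpow_const (Or.inl ht.ne'))
    (fun t ht => (Real.hasDerivAt_rpow_const (Or.inl ht.ne')).const_mul c) ?_ ?_ ?_ ?_
  · exact fun t ht => ((Real.continuousAt_rpow_const t _ (Or.inl (ne_of_gt ht))).const_mul
      _ |>.const_mul _).continuousWithinAt
  · intro t ht
    have h0 : (0 : ℝ) ≤ t ^ c := by positivity
    rw [abs_of_nonneg h0]
    nlinarith [abs_nonneg c, abs_nonneg (c * (c - 1))]
  · intro t ht
    have h0 : (0 : ℝ) ≤ t ^ (c - 1) := by positivity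
    have h1 : t ^ (c - 1) ≤ t ^ (c + 0) := Real.rpow_le_rpow_of_exponent_le ht (by linarith)
    rw [abs_mul, abs_of_nonneg h0]
    have h2 : |c| * t ^ (c - 1) ≤ |c| * t ^ (c + 0) := mul_le_mul_of_nonneg_left h1 (abs_nonneg _)
    have h3 : (0 : ℝ) ≤ t ^ (c + 0) := by positivity
    nlinarith [abs_nonneg c, abs_nonneg (c * (c - 1))]
  · intro t ht
    have h0 : (0 : ℝ) ≤ t ^ (c - 1 - 1) := by positivity
    have h1 : t ^ (c - 1 - 1) ≤ t ^ (c + 0 * 2) :=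
      Real.rpow_le_rpow_of_exponent_le ht (by linarith)
    rw [← mul_assoc, abs_mul, abs_of_nonneg h0]
    have h2 : |c * (c - 1)| * t ^ (c - 1 - 1) ≤ |c * (c - 1)| * t ^ (c + 0 * 2) :=
      mul_le_mul_of_nonneg_left h1 (abs_nonneg _)
    have h3 : (0 : ℝ) ≤ t ^ (c + 0 * 2) := by positivity
    nlinarith [abs_nonneg c, abs_nonneg (c * (c - 1))]

/-! ### phases -/

lemma Ph.const_mul {b : ℝ} {F : E m → ℝ} (H : Ph b F) (κ : ℝ) : Ph b (fun p => κ * F p) := by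
  obtain ⟨h1, D, hD, h2⟩ := H
  refine ⟨contDiffOn_const.mul h1, (|κ| + 1) * D, by positivity, fun p hp j hj1 hj2 => ?_⟩
  have hj' : ((j : ℕ) : WithTop ℕ∞) ≤ 2 := by exact_mod_cast hj2
  have e := iteratedFDerivWithin_const_smul_apply (i := j) (a := κ)
    ((h1 p (mem_U hp)).of_le hj') uniq_U (mem_U hp)
  have e' : iteratedFDerivWithin ℝ j (fun p => κ * F p) (U m) p =
    κ • iteratedFDerivWithin ℝ j F (U m) p := e
  rw [e', norm_smul, Real.norm_eq_abs, mul_assoc, mul_pow]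
  have h3 : |κ| ≤ (|κ| + 1) ^ j := by
    calc |κ| ≤ (|κ| + 1) ^ 1 := by rw [pow_one]; linarith
      _ ≤ (|κ| + 1) ^ j := pow_le_pow_right₀ (by linarith [abs_nonneg κ]) hj1
  exact mul_le_mul h3 (h2 p hp j hj1 hj2) (norm_nonneg _) (by positivity)

/-- `x_i - ξ(t)` with `ξ' = O(t^b)`, `ξ'' = O(t^(2b))` -/
lemma phase {b C : ℝ} (hb : 0 ≤ b) (hC : 0 ≤ C) (i : Fin (m + 1)) {h h1 h2 : ℝ → ℝ}
    (hd : ∀ t : ℝ, 0 < t → HasDerivAt h (h1 t) t)
    (hd1 : ∀ t : ℝ, 0 < t → HasDerivAt h1 (h2 t) t) (hc : ContinuousOn h2 (Ioi 0))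
    (b1 : ∀ t : ℝ, 1 ≤ t → |h1 t| ≤ C * t ^ b) (b2 : ∀ t : ℝ, 1 ≤ t → |h2 t| ≤ C * t ^ (b * 2)) :
    Ph (m := m) b (fun p => p.1 i - h p.2) := by
  obtain ⟨k1, k2⟩ := time (m := m) hd hd1 hc
  set L : E m →L[ℝ] ℝ :=
    (ContinuousLinearMap.proj (R := ℝ) (φ := fun _ : Fin (m + 1) => ℝ) i).comp
      (ContinuousLinearMap.fst ℝ (Q m) ℝ) with hL
  have hLa : ∀ p : E m, L p = p.1 i := fun p => rfl
  have hL1 : ‖L‖ ≤ 1 := by
    refine ContinuousLinearMap.opNorm_le_bound _ zero_le_one fun p => ?_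
    rw [hLa, one_mul]
    exact (norm_le_pi_norm p.1 i).trans (norm_fst_le p)
  have hdh : ∀ {q : E m}, q ∈ U m → DifferentiableAt ℝ (fun p : E m => h p.2) q :=
    fun hq => (fd_time hd hq).differentiableAt
  have f1 : ∀ {q : E m}, q ∈ U m → fderiv ℝ (fun p : E m => p.1 i - h p.2) q =
      L - fderiv ℝ (fun p : E m => h p.2) q := fun hq =>
    (L.hasFDerivAt.sub (hdh hq).hasFDerivAt).fderiv
  refine ⟨(L.contDiff.contDiffOn).sub k1, 1 + C, by positivity, fun p hp j hj1 hj2 => ?_⟩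
  have hp1 : (1 : ℝ) ≤ p.2 ^ b := Real.one_le_rpow hp hb
  have hpU := mem_U hp
  obtain ⟨q1, q2⟩ := k2 p hpU
  interval_cases j
  · rw [norm1 hpU, f1 hpU, pow_one]
    have h3 : ‖L - fderiv ℝ (fun p : E m => h p.2) p‖ ≤ 1 + C * p.2 ^ b :=
      (norm_sub_le _ _).trans (add_le_add hL1 (q1.trans (b1 p.2 hp)))
    refine h3.trans ?_
    nlinarith
  · have e2 : fderiv ℝ (fun p : E m => p.1 i - h p.2) =ᶠ[𝓝 p]
        fun q => L - fderiv ℝ (fun p : E m => h p.2) q := by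
      filter_upwards [isOpen_U.mem_nhds hpU] with q hq using f1 hq
    have e4 : ‖fderiv ℝ (fderiv ℝ (fun p : E m => p.1 i - h p.2)) p‖ =
        ‖fderiv ℝ (fderiv ℝ (fun p : E m => h p.2)) p‖ := by
      rw [e2.fderiv_eq, fderiv_const_sub]
      exact norm_neg (fderiv ℝ (fderiv ℝ (fun p : E m => h p.2)) p)
    rw [norm2 hpU, e4]
    have hp0 : 0 < p.2 := hpU
    have h3 := q2.trans (b2 p.2 hp)
    have h5 : p.2 ^ (b * 2) = (p.2 ^ b) ^ 2 := by
      rw [Real.rpow_mul hp0.le, Real.rpow_two]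
    rw [h5] at h3
    refine h3.trans ?_
    rw [mul_pow]
    refine mul_le_mul_of_nonneg_right ?_ (by positivity)
    nlinarith

lemma ph_of_Wt {b a : ℝ} (ha : 0 ≤ a) {F : E m → ℝ} (H : Wt b a F) :
    Ph (a + b) F := by
  obtain ⟨h1, C, hC, h2⟩ := H
  refine ⟨h1, C + 1, by positivity, fun p hp j hj1 hj2 => (h2 p hp j hj2).trans ?_⟩
  have hp0 : 0 < p.2 := mem_U hp
  have h3 : p.2 ^ (a + b * j) ≤ (p.2 ^ (a + b)) ^ j := by
    rw [← Real.rpow_natCast, ← Real.rpow_mul hp0.le]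
    refine Real.rpow_le_rpow_of_exponent_le hp ?_
    have : (1 : ℝ) ≤ j := by exact_mod_cast hj1
    nlinarith
  have h4 : C ≤ (C + 1) ^ j := by
    calc C ≤ (C + 1) ^ 1 := by rw [pow_one]; linarith
      _ ≤ (C + 1) ^ j := pow_le_pow_right₀ (by linarith) hj1
  rw [mul_pow]
  exact mul_le_mul h4 h3 (by positivity) (by positivity)

/-! ### the bump -/

lemma bmp_contDiff : ContDiff ℝ 2 bmp := by
  unfold bmp
  refine Real.smoothTransition.contDiff.comp ?_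
  fun_prop

lemma bmp_supp {y : ℝ} (hy : 1 / 64 ≤ |y|) : bmp y = 0 := by
  unfold bmp
  refine Real.smoothTransition.zero_of_nonpos ?_
  have h1 : (1 / 64) ^ 2 ≤ y ^ 2 := by
    rw [← sq_abs y]
    exact pow_le_pow_left₀ (by norm_num) hy 2
  nlinarith

lemma bmp_compact : HasCompactSupport bmp := by
  refine HasCompactSupport.intro (isCompact_Icc (a := (-1 : ℝ)) (b := 1)) fun y hy => ?_
  refine bmp_supp ?_
  by_contra h
  push Not at h
  rw [abs_lt] at h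
  exact hy ⟨by linarith [h.1], by linarith [h.2]⟩

lemma bounded_iter {g : ℝ → ℝ} (hg : ContDiff ℝ 2 g) (hc : HasCompactSupport g) :
    ∃ M : ℝ, ∀ i : ℕ, i ≤ 2 → ∀ y : ℝ, ‖iteratedFDeriv ℝ i g y‖ ≤ M := by
  have h : ∀ i : ℕ, i ≤ 2 → ∃ M : ℝ, ∀ y : ℝ, ‖iteratedFDeriv ℝ i g y‖ ≤ M := by
    intro i hi
    have hi' : ((i : ℕ) : WithTop ℕ∞) ≤ 2 := by exact_mod_cast hi
    exact (hg.continuous_iteratedFDeriv hi').bounded_above_of_compact_support
      (hc.iteratedFDeriv i)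
  obtain ⟨M0, h0⟩ := h 0 (by omega)
  obtain ⟨M1, h1⟩ := h 1 (by omega)
  obtain ⟨M2, h2⟩ := h 2 (by omega)
  have m0 : 0 ≤ M0 := (norm_nonneg _).trans (h0 0)
  have m1 : 0 ≤ M1 := (norm_nonneg _).trans (h1 0)
  have m2 : 0 ≤ M2 := (norm_nonneg _).trans (h2 0)
  refine ⟨M0 + M1 + M2, fun i hi y => ?_⟩
  interval_cases i
  · exact (h0 y).trans (by linarith)
  · exact (h1 y).trans (by linarith)
  · exact (h2 y).trans (by linarith)

lemma sin_bd : ∀ i : ℕ, i ≤ 2 → ∀ y : ℝ, ‖iteratedFDeriv ℝ i Real.sin y‖ ≤ 1 := by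
  intro i _ y
  rw [norm_iteratedFDeriv_eq_norm_iteratedDeriv]
  exact Real.abs_iteratedDeriv_sin_le_one i y

lemma cos_bd : ∀ i : ℕ, i ≤ 2 → ∀ y : ℝ, ‖iteratedFDeriv ℝ i Real.cos y‖ ≤ 1 := by
  intro i _ y
  rw [norm_iteratedFDeriv_eq_norm_iteratedDeriv]
  exact Real.abs_iteratedDeriv_cos_le_one i y

/-! ### the phases of the curve -/

section curve

variable {X : ℝ → Q m} (hX : ∀ i, SyA (-1 / 2) fun t => X t i - th m t i)

include hX

lemma X_deriv (i : Fin (m + 1)) {t : ℝ} (ht : 0 < t) : HasDerivAt (fun t => X t i)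
    (th1 i t + deriv (fun t => X t i - th m t i) t) t := by
  have h1 := (hasDerivAt_th0 i ht).add ((hX i).diffAt ht).hasDerivAt
  refine h1.congr_of_eventuallyEq (Eventually.of_forall fun s => ?_)
  show X s i = th0 i s + (X s i - th m s i)
  unfold th
  ring

lemma X_deriv2 (i : Fin (m + 1)) {t : ℝ} (ht : 0 < t) :
    HasDerivAt (fun t => th1 i t + deriv (fun t => X t i - th m t i) t)
    (deriv (th1 i) t + deriv (deriv fun t => X t i - th m t i) t) t :=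
  ((syA_th1 i).diffAt ht).hasDerivAt.add ((hX i).deriv.diffAt ht).hasDerivAt

lemma X_cont (i : Fin (m + 1)) : ContinuousOn
    (fun t => deriv (th1 i) t + deriv (deriv fun t => X t i - th m t i) t) (Ioi 0) := fun t ht =>
  (((syA_th1 i).deriv.diffAt ht).continuousAt.add
    ((hX i).deriv2.diffAt ht).continuousAt).continuousWithinAt

lemma ph_gen {i : Fin (m + 1)} {b : ℝ} (hb : 0 ≤ b) (h1 : SyA b (th1 i))
    (h2 : SyA (b * 2) (deriv (th1 i))) : Ph (m := m) b (fun p => p.1 i - X p.2 i) := by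
  obtain ⟨C1, hC1, c1⟩ := (h1.add ((hX i).deriv.mono (by linarith))).bd
  obtain ⟨C2, hC2, c2⟩ := (h2.add ((hX i).deriv2.mono (by linarith))).bd
  refine phase (C := C1 + C2) hb (by positivity) i (h := fun t => X t i)
    (fun t ht => X_deriv hX i ht) (fun t ht => X_deriv2 hX i ht) (X_cont hX i)
    (fun t ht => (c1 t ht).trans ?_) (fun t ht => (c2 t ht).trans ?_)
  · exact mul_le_mul_of_nonneg_right (by linarith) (by positivity)
  · exact mul_le_mul_of_nonneg_right (by linarith) (by positivity)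

lemma ph_zero : Ph (m := m) (1 / 4) (fun p => p.1 0 - X p.2 0) :=
  ph_gen hX (by norm_num) (syA_th1 _) ((syA_th1 _).deriv.mono (by norm_num))

lemma ph_succ (i : Fin m) : Ph (m := m) 0 (fun p => p.1 i.succ - X p.2 i.succ) := by
  have h := syA_th1_succ (i : ℕ)
  have e : ((i.succ : Fin (m + 1)) : ℕ) = (i : ℕ) + 1 := Fin.val_succ i
  refine ph_gen hX le_rfl ?_ ?_
  · rw [e]
    exact h.mono (by norm_num)
  · rw [e]
    exact h.deriv.mono (by norm_num)

lemma sin_succ (i : Fin m) :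
    Wt (m := m) 0 0 (fun p => Real.sin (Real.pi * (p.1 i.succ - X p.2 i.succ))) :=
  ((ph_succ hX i).const_mul Real.pi).comp Real.sin Real.contDiff_sin 1 sin_bd

lemma cos_succ (i : Fin m) :
    Wt (m := m) (7 / 20) 0 (fun p => Real.cos (Real.pi * (p.1 i.succ - X p.2 i.succ))) :=
  (((ph_succ hX i).const_mul Real.pi).comp Real.cos Real.contDiff_cos 1 cos_bd).mono
    (by norm_num) le_rfl

lemma sin_zero :
    Wt (m := m) (7 / 20) 0 (fun p => Real.sin (2 * Real.pi * (p.1 0 - X p.2 0))) :=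
  (((ph_zero hX).const_mul (2 * Real.pi)).comp Real.sin Real.contDiff_sin 1 sin_bd).mono
    (by norm_num) le_rfl

lemma ph_phi (i : Fin m) : Ph (m := m) (7 / 20)
    (fun p => p.2 ^ (7 / 20 : ℝ) * Real.sin (Real.pi * (p.1 i.succ - X p.2 i.succ))) := by
  have h := (rpow_Wt (m := m) (7 / 20)).mul (sin_succ hX i)
  have h2 := ph_of_Wt (by norm_num) h
  have e : (7 / 20 + 0 + 0 : ℝ) = 7 / 20 := by norm_num
  rwa [e] at h2

lemma bmp_phi (i : Fin m) : Wt (m := m) (7 / 20) 0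
    (fun p => bmp (p.2 ^ (7 / 20 : ℝ) * Real.sin (Real.pi * (p.1 i.succ - X p.2 i.succ)))) := by
  obtain ⟨M, hM⟩ := bounded_iter bmp_contDiff bmp_compact
  exact (ph_phi hX i).comp bmp bmp_contDiff M hM

lemma ybmp_phi (i : Fin m) : Wt (m := m) (7 / 20) 0
    (fun p => (p.2 ^ (7 / 20 : ℝ) * Real.sin (Real.pi * (p.1 i.succ - X p.2 i.succ))) *
      bmp (p.2 ^ (7 / 20 : ℝ) * Real.sin (Real.pi * (p.1 i.succ - X p.2 i.succ)))) := by
  have hg : ContDiff ℝ 2 (fun y : ℝ => y * bmp y) := contDiff_id.mul bmp_contDiff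
  have hc : HasCompactSupport (fun y : ℝ => y * bmp y) := bmp_compact.mul_left
  obtain ⟨M, hM⟩ := bounded_iter hg hc
  exact (ph_phi hX i).comp (fun y : ℝ => y * bmp y) hg M hM

end curve

theorem tub_Wt (X : ℝ → Q m) (R : Fin (m + 1) → ℝ → ℝ)
    (hX : ∀ i, SyA (-1 / 2) fun t => X t i - th m t i) (hR : ∀ i, SyA (-1 / 2) (R i))
    (hR0 : SyA (-3 / 4) (R 0)) : Wt (7 / 20) (-3 / 4) (tub X R) := by
  classical
  have hb : (0 : ℝ) ≤ 7 / 20 := by norm_num
  have hP : Wt (m := m) (7 / 20) 0 (fun p => ∏ i : Fin m,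
      bmp (p.2 ^ (7 / 20 : ℝ) * Real.sin (Real.pi * (p.1 i.succ - X p.2 i.succ)))) :=
    Wt.prod hb _ _ fun i _ => bmp_phi hX i
  -- the fast direction
  have h0 : Wt (m := m) (7 / 20) (-3 / 4) (fun p => (∏ i : Fin m,
      bmp (p.2 ^ (7 / 20 : ℝ) * Real.sin (Real.pi * (p.1 i.succ - X p.2 i.succ)))) *
      (R 0 p.2 * (1 / (2 * Real.pi) * Real.sin (2 * Real.pi * (p.1 0 - X p.2 0))))) := by
    have h1 := hP.mul (((sy_Wt (m := m) hR0).mono (by norm_num : (1 / 4 : ℝ) ≤ 7 / 20) le_rfl).mul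
      ((sin_zero hX).const_mul hb (1 / (2 * Real.pi))))
    exact h1.mono le_rfl (by norm_num)
  -- the slow directions
  have h2 : ∀ i : Fin m, Wt (m := m) (7 / 20) (-3 / 4) (fun p => (∏ i : Fin m,
      bmp (p.2 ^ (7 / 20 : ℝ) * Real.sin (Real.pi * (p.1 i.succ - X p.2 i.succ)))) *
      (R i.succ p.2 * (1 / (2 * Real.pi) *
        Real.sin (2 * Real.pi * (p.1 i.succ - X p.2 i.succ))))) := by
    intro i
    have hPi : Wt (m := m) (7 / 20) 0 (fun p => ∏ j ∈ Finset.univ.erase i,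
        bmp (p.2 ^ (7 / 20 : ℝ) * Real.sin (Real.pi * (p.1 j.succ - X p.2 j.succ)))) :=
      Wt.prod hb _ _ fun i _ => bmp_phi hX i
    have h3 := hPi.mul (((sy_Wt (m := m) (hR i.succ)).mono
      (by norm_num : (1 / 4 : ℝ) ≤ 7 / 20) le_rfl).mul
      (((cos_succ hX i).const_mul hb (1 / Real.pi)).mul
      (((rpow_Wt (m := m) (-7 / 20)).mono (by norm_num : (0 : ℝ) ≤ 7 / 20) le_rfl).mul
        (ybmp_phi hX i))))
    refine (h3.mono le_rfl (by norm_num)).congr fun p hp => ?_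
    have hp0 : 0 < p.2 := hp
    simp only
    rw [← Finset.mul_prod_erase Finset.univ (fun j : Fin m =>
      bmp (p.2 ^ (7 / 20 : ℝ) * Real.sin (Real.pi * (p.1 j.succ - X p.2 j.succ))))
      (Finset.mem_univ i)]
    have e1 : (2 * Real.pi * (p.1 i.succ - X p.2 i.succ)) =
        2 * (Real.pi * (p.1 i.succ - X p.2 i.succ)) := by ring
    have e2 : p.2 ^ (-7 / 20 : ℝ) * p.2 ^ (7 / 20 : ℝ) = 1 := by
      rw [← Real.rpow_add hp0]
      norm_num
    have hpi : Real.pi ≠ 0 := Real.pi_ne_zero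
    rw [e1, Real.sin_two_mul]
    have e3 : p.2 ^ (-7 / 20 : ℝ) * (p.2 ^ (7 / 20 : ℝ) *
        Real.sin (Real.pi * (p.1 i.succ - X p.2 i.succ)) *
        bmp (p.2 ^ (7 / 20 : ℝ) * Real.sin (Real.pi * (p.1 i.succ - X p.2 i.succ)))) =
        Real.sin (Real.pi * (p.1 i.succ - X p.2 i.succ)) *
        bmp (p.2 ^ (7 / 20 : ℝ) * Real.sin (Real.pi * (p.1 i.succ - X p.2 i.succ))) := by
      rw [← mul_assoc, ← mul_assoc, e2, one_mul]
    rw [e3]
    field_simp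
  refine (h0.add (Wt.sum Finset.univ _ fun i _ => h2 i)).congr fun p _ => ?_
  simp only
  unfold tub
  rw [Fin.sum_univ_succ, mul_add, Finset.mul_sum]
  congr 1
  · ring
  · refine Finset.sum_congr rfl fun i _ => ?_
    ring

end TubL

open TubL

theorem tub_bd : S_TUB := by
  intro m X R hX hR hR0
  obtain ⟨h1, C, hC, h2⟩ := tub_Wt X R hX hR hR0
  refine ⟨h1, C, fun p hp => ?_⟩
  have hpU : p ∈ U m := mem_U hp
  have e : ∀ j : ℕ, j ≤ 2 → C * p.2 ^ (-3 / 4 + 7 / 20 * j : ℝ) ≤ C * p.2 ^ (-1 / 20 : ℝ) := by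
    intro j hj
    refine mul_le_mul_of_nonneg_left (Real.rpow_le_rpow_of_exponent_le hp ?_) hC
    have : (j : ℝ) ≤ 2 := by exact_mod_cast hj
    linarith
  refine ⟨?_, ?_, ?_⟩
  · have h3 := (h2 p hp 0 (by omega)).trans (e 0 (by omega))
    rwa [norm_iteratedFDerivWithin_zero] at h3
  · have h3 := (h2 p hp 1 (by omega)).trans (e 1 (by omega))
    rwa [norm1 hpU] at h3
  · have h3 := (h2 p hp 2 le_rfl).trans (e 2 le_rfl)
    rwa [norm2 hpU] at h3

end Pool.Agent.Helper6K9.ES
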