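import Pool.Agent.Helper6K9.ES.Stm

/-! # The force of the tube potential on the curve -/

set_option autoImplicit false

namespace Pool.Agent.Helper6K9.ES

open Set Filter Topology
open scoped ContDiff

namespace TugL

theorem bmp_one {y : ℝ} (h : |y| ≤ 1 / 128) : bmp y = 1 := by
  unfold bmp
  apply Real.smoothTransition.one_of_one_le
  have h1 : (128 * y) ^ 2 ≤ 1 := by
    have h2 : |128 * y| ≤ 1 := by
      rw [abs_mul, abs_of_pos (by norm_num : (0 : ℝ) < 128)]
      linarith
    have h3 := abs_le.1 h2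
    nlinarith
  linarith

theorem bmp_zero {y : ℝ} (h : 1 / 64 ≤ |y|) : bmp y = 0 := by
  unfold bmp
  apply Real.smoothTransition.zero_of_nonpos
  have h1 : 4 ≤ (128 * y) ^ 2 := by
    have h2 : (2 : ℝ) ≤ |128 * y| := by
      rw [abs_mul, abs_of_pos (by norm_num : (0 : ℝ) < 128)]
      linarith
    have h3 : (128 * y) ^ 2 = |128 * y| ^ 2 := (sq_abs _).symm
    rw [h3]
    nlinarith
  linarith

end TugL

open TugL in
theorem tug : S_TUG := by
  intro m X R t ht hd i
  obtain ⟨v, hv⟩ : ∃ v : E m, v = (Pi.single i 1, 0) := ⟨_, rfl⟩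
  have h1 : HasDerivAt (fun s : ℝ => tub X R ((X t, t) + s • v)) (dX i (tub X R) (X t, t)) 0 := by
    have h2 := hd.hasFDerivAt.hasLineDerivAt v
    unfold HasLineDerivAt at h2
    unfold dX
    rw [← hv]
    exact h2
  have h3 : (fun s : ℝ => tub X R ((X t, t) + s • v)) =ᶠ[𝓝 0]
      fun s : ℝ => R i t * (Real.sin (2 * Real.pi * s) / (2 * Real.pi)) := by
    have hcont : Continuous fun s : ℝ => t ^ (7 / 20 : ℝ) * Real.sin (Real.pi * s) := by fun_prop
    have h4 : ∀ᶠ s : ℝ in 𝓝 0, |t ^ (7 / 20 : ℝ) * Real.sin (Real.pi * s)| < 1 / 128 := by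
      have h5 : Tendsto (fun s : ℝ => |t ^ (7 / 20 : ℝ) * Real.sin (Real.pi * s)|) (𝓝 0)
          (𝓝 0) := by
        have := (hcont.abs).tendsto 0
        simpa using this
      exact h5.eventually (gt_mem_nhds (by norm_num))
    filter_upwards [h4] with s hs
    unfold tub
    have hp : ∀ j : Fin (m + 1), ((X t, t) + s • v : E m).1 j - X t j = if j = i then s else 0 := by
      intro j
      rw [hv]
      by_cases hj : j = i
      · subst hj
        simp
      · simp [hj]
    have ht2 : ((X t, t) + s • v : E m).2 = t := by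
      rw [hv]
      simp
    rw [ht2]
    have hprod : (∏ l : Fin m, bmp (t ^ (7 / 20 : ℝ) *
        Real.sin (Real.pi * (((X t, t) + s • v : E m).1 l.succ - X t l.succ)))) = 1 := by
      refine Finset.prod_eq_one fun l _ => ?_
      apply bmp_one
      rw [hp]
      split_ifs
      · exact hs.le
      · simp
    rw [hprod, one_mul, Finset.sum_eq_single i]
    · rw [hp, if_pos rfl]
    · intro j _ hj
      rw [hp, if_neg hj]
      simp
    · intro h
      exact absurd (Finset.mem_univ i) h
  have h6 : HasDerivAt (fun s : ℝ => R i t * (Real.sin (2 * Real.pi * s) / (2 * Real.pi)))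
      (R i t) 0 := by
    have h7 : HasDerivAt (fun s : ℝ => 2 * Real.pi * s) (2 * Real.pi) 0 := by
      simpa using (hasDerivAt_id (0 : ℝ)).const_mul (2 * Real.pi)
    have h8 := ((h7.sin).div_const (2 * Real.pi)).const_mul (R i t)
    have h9 : (0 : ℝ) < Real.pi := Real.pi_pos
    have e : R i t * (Real.cos (2 * Real.pi * 0) * (2 * Real.pi) / (2 * Real.pi)) = R i t := by
      rw [mul_zero, Real.cos_zero, one_mul, div_self (by positivity), mul_one]
    rw [e] at h8
    exact h8
  exact (h1.congr_of_eventuallyEq h3.symm).unique h6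

end Pool.Agent.Helper6K9.ES
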