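import Pool.Agent.Helper6K9.ES.Zero
import Pool.Agent.Helper6K9.ES.SyB

set_option autoImplicit false

/-!
# The approximate solution
-/

namespace Pool.Agent.Helper6K9.ES

open Set Filter Topology
open scoped ContDiff

variable {m : ℕ}

/-- twice differentiable for `t > 0` -/
def D2 (f : ℝ → ℝ) : Prop := DifferentiableOn ℝ f (Ioi 0) ∧ DifferentiableOn ℝ (deriv f) (Ioi 0)

theorem SyA.d2 {a : ℝ} {f : ℝ → ℝ} (H : SyA a f) : D2 f := ⟨H.diffOn, H.deriv.diffOn⟩

theorem deriv2_add {f g : ℝ → ℝ} (hf : D2 f) (hg : D2 g) {t : ℝ} (ht : 0 < t) :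
    deriv (deriv fun s => f s + g s) t = deriv (deriv f) t + deriv (deriv g) t := by
  have e : deriv (fun s => f s + g s) =ᶠ[𝓝 t] fun s => deriv f s + deriv g s := by
    filter_upwards [lt_mem_nhds ht] with s hs
    exact deriv_fun_add ((hf.1 s hs).differentiableAt (Ioi_mem_nhds hs))
      ((hg.1 s hs).differentiableAt (Ioi_mem_nhds hs))
  rw [e.deriv_eq]
  exact deriv_fun_add ((hf.2 t ht).differentiableAt (Ioi_mem_nhds ht))
    ((hg.2 t ht).differentiableAt (Ioi_mem_nhds ht))

theorem d2_congr {f g : ℝ → ℝ} (hf : D2 f) (e : ∀ t, 0 < t → f t = g t) : D2 g := by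
  refine ⟨hf.1.congr fun t ht => (e t ht).symm, hf.2.congr fun t ht => ?_⟩
  refine Filter.EventuallyEq.deriv_eq ?_
  filter_upwards [lt_mem_nhds ht] with s hs using (e s hs).symm

theorem D2.add {f g : ℝ → ℝ} (hf : D2 f) (hg : D2 g) : D2 fun s => f s + g s := by
  refine ⟨hf.1.add hg.1, (hf.2.add hg.2).congr fun t ht => ?_⟩
  exact deriv_fun_add ((hf.1 t ht).differentiableAt (Ioi_mem_nhds ht))
    ((hg.1 t ht).differentiableAt (Ioi_mem_nhds ht))

theorem deriv2_const_mul {f : ℝ → ℝ} (c : ℝ) (t : ℝ) :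
    deriv (deriv fun s => c * f s) t = c * deriv (deriv f) t := by
  have e : deriv (fun s => c * f s) = fun s => c * deriv f s := by
    funext s
    exact deriv_const_mul_field c
  rw [e]
  exact deriv_const_mul_field c

theorem D2.const_mul {f : ℝ → ℝ} (hf : D2 f) (c : ℝ) : D2 fun s => c * f s := by
  refine ⟨hf.1.const_mul c, ?_⟩
  have e : deriv (fun s => c * f s) = fun s => c * deriv f s := by
    funext s
    exact deriv_const_mul_field c
  rw [e]
  exact hf.2.const_mul c

theorem d2_zero : D2 fun _ => 0 := by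
  refine ⟨differentiableOn_const _, ?_⟩
  have : deriv (fun _ : ℝ => (0 : ℝ)) = fun _ => 0 := by
    funext s
    exact deriv_const s 0
  rw [this]
  exact differentiableOn_const _

theorem d2_sum {ι : Type} (s : Finset ι) {f : ι → ℝ → ℝ} (hf : ∀ i ∈ s, D2 (f i)) :
    D2 (fun t => ∑ i ∈ s, f i t) ∧ ∀ t, 0 < t →
      deriv (deriv fun t => ∑ i ∈ s, f i t) t = ∑ i ∈ s, deriv (deriv (f i)) t := by
  classical
  induction s using Finset.induction_on with
  | empty =>
    refine ⟨by simpa using d2_zero, fun t _ => ?_⟩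
    simp
  | insert i s hi ih =>
    have h1 := ih fun j hj => hf j (Finset.mem_insert_of_mem hj)
    have h2 := hf i (Finset.mem_insert_self i s)
    have e : (fun t => ∑ i ∈ insert i s, f i t) = fun t => f i t + ∑ i ∈ s, f i t := by
      funext t
      rw [Finset.sum_insert hi]
    rw [e]
    refine ⟨h2.add h1.1, fun t ht => ?_⟩
    rw [deriv2_add h2 h1.1 ht, h1.2 t ht, Finset.sum_insert hi]

theorem d2_th0 (i : ℕ) : D2 (th0 i) := by
  refine ⟨fun t ht => (hasDerivAt_th0 i ht).differentiableAt.differentiableWithinAt, ?_⟩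
  exact (syA_th1 i).diffOn.congr fun t ht => (hasDerivAt_th0 i ht).deriv

theorem syA_deriv_th1 (i : ℕ) : SyA (-3 / 4) (deriv (th1 i)) := by
  have key : ∀ q : ℝ, q ≤ 1 / 4 → (∀ t, 0 < t → th1 i t = t ^ q) →
      SyA (-3 / 4) (deriv (th1 i)) := by
    intro q hq e
    refine (syA_rpow q (q - 1) (by linarith)).congr fun t ht => ?_
    have h1 : th1 i =ᶠ[𝓝 t] fun t => t ^ q := by
      filter_upwards [lt_mem_nhds ht] with s hs using e s hs
    rw [h1.deriv_eq]
    exact (Real.hasDerivAt_rpow_const (x := t) (p := q) (Or.inl ht.ne')).deriv.symm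
  rcases Nat.lt_or_ge i 4 with hi | hi
  · interval_cases i
    · exact key (1 / 4) le_rfl fun t _ => by simp [th1]
    · exact key (-7 / 20) (by norm_num) fun t _ => by simp [th1]
    · exact key (-7 / 10) (by norm_num) fun t _ => by simp [th1]
    · exact key (-21 / 20) (by norm_num) fun t _ => by simp [th1]
  · have h0 : i ≠ 0 := by omega
    have h1 : i ≠ 1 := by omega
    have h2 : i ≠ 2 := by omega
    have h3 : i ≠ 3 := by omega
    have e : th1 i = fun _ => 0 := by
      funext s
      simp [th1, h0, h1, h2, h3]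
    rw [e]
    exact syA_zero.congr fun t _ => (deriv_const t (0 : ℝ)).symm

theorem syA_deriv2_th0 (i : ℕ) : SyA (-3 / 4) (deriv (deriv (th0 i))) := by
  refine (syA_deriv_th1 i).congr fun t ht => ?_
  refine Filter.EventuallyEq.deriv_eq ?_
  filter_upwards [lt_mem_nhds ht] with s hs using (hasDerivAt_th0 i hs).deriv.symm

theorem apx (ho : S_OPS) (hc : S_CMP) (ht : S_TAY) (hz : S_ZP) : S_APX := by
  intro m A B h hs hAB hh hav
  -- the force and `G = A⁻¹ F`
  set F : Fin (m + 1) → E m → ℝ := fun i => dX i h with hF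
  have hSF : ∀ i, Sm (F i) := fun i => (ho m h hh).1 i
  set G : Fin (m + 1) → E m → ℝ := fun j p => ∑ k, B j k * F k p with hG
  have hSG : ∀ j, Sm (G j) := fun j => sm_sum _ fun k _ => (hSF k).const_mul _
  have hG0 : ∀ j p, av (G j) p = 0 := by
    intro j p
    rw [hG, av_sum _ fun k _ => ((hSF k).const_mul _).cont]
    refine Finset.sum_eq_zero fun k _ => ?_
    rw [av_const_mul, hav k p, mul_zero]
  have hAG : ∀ j p, F j p = ∑ k, A j k * G k p := by
    intro j p
    have : ∑ k, A j k * G k p = ∑ l, (A * B) j l * F l p := by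
      simp only [hG, Finset.mul_sum, Matrix.mul_apply, Finset.sum_mul]
      rw [Finset.sum_comm]
      exact Finset.sum_congr rfl fun l _ => Finset.sum_congr rfl fun k _ => by ring
    rw [this, hAB]
    simp [Matrix.one_apply]
  -- first order
  have h1 : ∀ j, ∃ u : ℝ → ℝ, SyA (-1 / 2) u ∧
      (SyA (-3 / 4) fun t => u t - t ^ (-1 / 2 : ℝ) * an (an (G j)) (th m t, t)) ∧
      SyA (-3 / 4) fun t => G j (th m t, t) - deriv (deriv u) t := by
    intro j
    obtain ⟨u, hu1, hu2, hu3⟩ := hz m 0 (G j) (hSG j) (hG0 j)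
    refine ⟨u, hu1.mono (by norm_num), ?_, ?_⟩
    · refine (hu2.mono (by norm_num)).congr fun t _ => ?_
      norm_num
    · refine (hu3.mono (by norm_num)).congr fun t _ => ?_
      rw [Real.rpow_zero, one_mul]
  choose u hu1 hu2 hu3 using h1
  -- second order
  have hSI : ∀ j, Sm (an (an (G j))) := fun j =>
    (ho m _ (ho m _ (hSG j)).2.2.2.1).2.2.2.1
  set Qf : Fin (m + 1) → E m → ℝ := fun i p => ∑ j, dX j (F i) p * an (an (G j)) p with hQf
  have hSQ : ∀ i, Sm (Qf i) := fun i =>
    sm_sum _ fun j _ => ((ho m _ (hSF i)).1 j).mul (hSI j)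
  have hSaQ : ∀ i, Sm (av (Qf i)) := fun i => (ho m _ (hSQ i)).2.2.1
  have h2 : ∀ i, ∃ w : ℝ → ℝ, SyA (-1) w ∧
      SyA (-3 / 4) fun t => t ^ (-1 / 2 : ℝ) * (Qf i (th m t, t) - av (Qf i) (th m t, t)) -
        deriv (deriv w) t := by
    intro i
    obtain ⟨w, hw1, _, hw3⟩ := hz m (-1 / 2) (fun p => Qf i p - av (Qf i) p)
      ((hSQ i).sub (hSaQ i)) (fun q => by
        rw [av_sub (hSQ i).cont (hSaQ i).cont]
        have := congrFun (ho m _ (hSQ i)).2.2.2.2.2.2.2.2.2.2.1 q
        rw [this, sub_self])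
    exact ⟨w, hw1.mono (by norm_num), hw3.mono (by norm_num)⟩
  choose w hw1 hw3 using h2
  set u2 : Fin (m + 1) → ℝ → ℝ := fun j t => ∑ i, B j i * w i t with hu2d
  have hu2s : ∀ j, SyA (-1) (u2 j) := fun j => syA_sum _ fun i _ => (hw1 i).const_mul _
  set X : ℝ → Q m := fun t j => th m t j + (u j t + u2 j t) with hX
  have huu : ∀ j, SyA (-1 / 2) fun t => u j t + u2 j t := fun j =>
    (hu1 j).add ((hu2s j).mono (by norm_num))
  -- second derivatives
  have hd2 : ∀ j t, 0 < t → deriv (deriv fun s => X s j) t =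
      deriv (deriv (th0 j)) t + deriv (deriv (u j)) t + ∑ i, B j i * deriv (deriv (w i)) t := by
    intro j t ht
    have hs2 := d2_sum Finset.univ (f := fun i t => B j i * w i t)
      fun i _ => (hw1 i).d2.const_mul _
    have e1 : (fun s => X s j) = fun s => th0 j s + (u j s + u2 j s) := rfl
    have e2 : deriv (deriv (u2 j)) t = ∑ i, B j i * deriv (deriv (w i)) t := by
      rw [hs2.2 t ht]
      exact Finset.sum_congr rfl fun i _ => deriv2_const_mul _ _
    rw [e1, deriv2_add (d2_th0 j) ((hu1 j).d2.add (hu2s j).d2) ht,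
      deriv2_add (hu1 j).d2 (hu2s j).d2 ht, e2, add_assoc]
  -- the residual
  have key : ∀ i, SyA (-3 / 4) fun t => res A h X i t +
      t ^ (-1 / 2 : ℝ) * av (Qf i) (th m t, t) := by
    intro i
    obtain ⟨_, ht2⟩ := ht m (th m) (fun t j => u j t + u2 j t) (F i) (crv_th m) (hSF i) huu
    have hT1 : SyA (-3 / 4) fun t => ∑ j, A i j * deriv (deriv (th0 j)) t :=
      syA_sum _ fun j _ => (syA_deriv2_th0 j).const_mul _
    have hT2 : SyA (-3 / 4) fun t =>
        ∑ j, A i j * (G j (th m t, t) - deriv (deriv (u j)) t) :=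
      syA_sum _ fun j _ => (hu3 j).const_mul _
    have hdF : ∀ j, SyA 0 fun t => dX j (F i) (th m t, t) := fun j =>
      (hc m (th m) _ (crv_th m) ((ho m _ (hSF i)).1 j)).1
    have hT4 : SyA (-3 / 4) fun t => ∑ j, dX j (F i) (th m t, t) *
        (u j t - t ^ (-1 / 2 : ℝ) * an (an (G j)) (th m t, t)) :=
      syA_sum _ fun j _ => (hdF j).mul' (hu2 j) (by norm_num)
    have hT5 : SyA (-3 / 4) fun t => ∑ j, dX j (F i) (th m t, t) * u2 j t :=
      syA_sum _ fun j _ => (hdF j).mul' (hu2s j) (by norm_num)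
    have hsum := ((((hT1.sub hT2).sub (hw3 i)).sub hT4).sub hT5).sub (ht2.mono (b := -3 / 4)
      (by norm_num))
    refine hsum.congr fun t htp => ?_
    have r1 : res A h X i t = (∑ j, A i j * (deriv (deriv (th0 j)) t + deriv (deriv (u j)) t +
        ∑ k, B j k * deriv (deriv (w k)) t)) - F i (X t, t) := by
      unfold res
      congr 1
      exact Finset.sum_congr rfl fun j _ => by rw [hd2 j t htp]
    have r2 : ∑ j, A i j * ∑ k, B j k * deriv (deriv (w k)) t = deriv (deriv (w i)) t := by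
      have : ∑ j, A i j * ∑ k, B j k * deriv (deriv (w k)) t =
          ∑ l, (A * B) i l * deriv (deriv (w l)) t := by
        simp only [Finset.mul_sum, Matrix.mul_apply, Finset.sum_mul]
        rw [Finset.sum_comm]
        exact Finset.sum_congr rfl fun l _ => Finset.sum_congr rfl fun k _ => by ring
      rw [this, hAB]
      simp [Matrix.one_apply]
    have r3 : ∑ j, A i j * (G j (th m t, t) - deriv (deriv (u j)) t) =
        F i (th m t, t) - ∑ j, A i j * deriv (deriv (u j)) t := by
      rw [hAG i, ← Finset.sum_sub_distrib]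
      exact Finset.sum_congr rfl fun j _ => by ring
    have r4 : ∑ j, dX j (F i) (th m t, t) *
        (u j t - t ^ (-1 / 2 : ℝ) * an (an (G j)) (th m t, t)) =
        (∑ j, dX j (F i) (th m t, t) * u j t) - t ^ (-1 / 2 : ℝ) * Qf i (th m t, t) := by
      rw [hQf, Finset.mul_sum, ← Finset.sum_sub_distrib]
      exact Finset.sum_congr rfl fun j _ => by ring
    have r5 : ∑ j, dX j (F i) (th m t, t) * (u j t + u2 j t) =
        (∑ j, dX j (F i) (th m t, t) * u j t) + ∑ j, dX j (F i) (th m t, t) * u2 j t := by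
      rw [← Finset.sum_add_distrib]
      exact Finset.sum_congr rfl fun j _ => by ring
    have r6 : ∑ j, A i j * (deriv (deriv (th0 j)) t + deriv (deriv (u j)) t +
        ∑ k, B j k * deriv (deriv (w k)) t) = (∑ j, A i j * deriv (deriv (th0 j)) t) +
        (∑ j, A i j * deriv (deriv (u j)) t) + deriv (deriv (w i)) t := by
      rw [← r2, ← Finset.sum_add_distrib, ← Finset.sum_add_distrib]
      exact Finset.sum_congr rfl fun j _ => by ring
    have r7 : th m t + (fun j => u j t + u2 j t) = X t := rfl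
    rw [r1, r6, r3, r4, r7, r5]
    ring
  refine ⟨X, ?_, ?_, ?_⟩
  · intro j
    refine (huu j).congr fun t _ => ?_
    simp only [hX]
    ring
  · intro i
    have h5 : SyA (-1 / 2) fun t => t ^ (-1 / 2 : ℝ) * av (Qf i) (th m t, t) :=
      (syA_rpow' (-1 / 2) le_rfl).mul' (hc m (th m) _ (crv_th m) (hSaQ i)).1 (by norm_num)
    refine (((key i).mono (b := -1 / 2) (by norm_num)).sub h5).congr fun t _ => ?_
    ring
  · refine (key 0).congr fun t _ => ?_
    have : av (Qf 0) (th m t, t) = 0 := zero_mode ho A hs h hh G hSG hG0 hAG _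
    rw [this, mul_zero, add_zero]

end Pool.Agent.Helper6K9.ES
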