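import Pool.Agent.Helper6K9.ES.Dis

/-! # Different passes of the tube are disjoint: the bump functions (after helper71) -/

set_option autoImplicit false

namespace Pool.Agent.Helper6K9.ES

open Set Filter Topology
open scoped ContDiff

/-- the product of the bump functions -/
noncomputable def bpr {m : ℕ} (X : ℝ → Q m) (p : E m) : ℝ :=
  ∏ i : Fin m, bmp (p.2 ^ (7 / 20 : ℝ) * Real.sin (Real.pi * (p.1 i.succ - X p.2 i.succ)))

/-- outside of the tube -/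
theorem bpr_zero {m : ℕ} {X : ℝ → Q m} {p : E m} {l : Fin m}
    (hc : ContinuousAt (fun t => X t l.succ) p.2) (hp : 0 < p.2)
    (h : 1 / 64 < |p.2 ^ (7 / 20 : ℝ) * Real.sin (Real.pi * (p.1 l.succ - X p.2 l.succ))|) :
    bpr X =ᶠ[𝓝 p] 0 := by
  have h1 : ContinuousAt (fun p : E m =>
      |p.2 ^ (7 / 20 : ℝ) * Real.sin (Real.pi * (p.1 l.succ - X p.2 l.succ))|) p := by
    have e1 : ContinuousAt (fun p : E m => p.2 ^ (7 / 20 : ℝ)) p :=
      ContinuousAt.comp (g := fun t : ℝ => t ^ (7 / 20 : ℝ)) (f := fun p : E m => p.2)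
        (Real.continuousAt_rpow_const _ _ (Or.inl hp.ne')) continuousAt_snd
    have e2 : ContinuousAt (fun p : E m => X p.2 l.succ) p :=
      ContinuousAt.comp (g := fun t => X t l.succ) (f := fun p : E m => p.2) hc continuousAt_snd
    have e3 : ContinuousAt (fun p : E m => p.1 l.succ) p := by fun_prop
    exact (e1.mul (Real.continuous_sin.continuousAt.comp
      (continuousAt_const.mul (e3.sub e2)))).abs
  filter_upwards [h1.eventually (lt_mem_nhds h)] with q hq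
  show bpr X q = 0
  unfold bpr
  rw [Finset.prod_eq_zero (Finset.mem_univ l) (TugL.bmp_zero hq.le)]

open DisL in
theorem dis2 (hS : S_SEP) (m : ℕ) (hm : 3 ≤ m) (X : ℝ → Q m)
    (hX : ∀ i, SyA (-1 / 2) fun t => X t i - th m t i) :
    ∃ T₁ : ℝ, 1 ≤ T₁ ∧ ∀ p : E m, T₁ ≤ p.2 → ∀ k : ℕ, 1 ≤ k →
      bpr X =ᶠ[𝓝 p] 0 ∨ bpr X =ᶠ[𝓝 (p.1, p.2 + k)] 0 := by
  obtain ⟨T₀, hT₀, hsep⟩ := hS
  have hC : ∀ i, ∃ C : ℝ, 0 ≤ C ∧ ∀ t : ℝ, 1 ≤ t → |X t i - th m t i| ≤ C * t ^ (-1 / 2 : ℝ) := by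
    intro i
    obtain ⟨C, hC⟩ := hX i 0
    refine ⟨|C|, abs_nonneg _, fun t ht => (hC t ht).trans ?_⟩
    exact mul_le_mul_of_nonneg_right (le_abs_self C) (Real.rpow_nonneg (by linarith) _)
  choose C hC0 hC using hC
  have hcX : ∀ i, ∀ t : ℝ, 0 < t → ContinuousAt (fun t => X t i) t := by
    intro i t ht
    have h1 : DifferentiableOn ℝ (fun t => X t i - th m t i) (Ioi 0) := (hX i 1).2.1
    have h2 : ContinuousAt (fun t => X t i - th m t i) t :=
      (h1.differentiableAt (Ioi_mem_nhds ht)).continuousAt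
    have h3 : ContinuousAt (fun t => th m t i) t := th0_cont i ht
    have h4 := h2.add h3
    have h5 : ((fun t => X t i - th m t i) + fun t => th m t i) = fun t => X t i := by
      funext s
      simp
    rwa [h5] at h4
  obtain ⟨D, hD⟩ : ∃ D, D = ∑ i, C i := ⟨_, rfl⟩
  have hCD : ∀ i, C i ≤ D := by
    intro i
    rw [hD]
    exact Finset.single_le_sum (fun j _ => hC0 j) (Finset.mem_univ i)
  have hD0 : 0 ≤ D := by
    rw [hD]
    exact Finset.sum_nonneg fun j _ => hC0 j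
  -- the time from which on the remainder is small
  obtain ⟨T₂, hT₂⟩ : ∃ T₂ : ℝ, ∀ t, T₂ ≤ t → 2 * D * t ^ (-1 / 2 : ℝ) ≤
      1 / 64 * t ^ (-7 / 20 : ℝ) := by
    have h1 : Tendsto (fun t : ℝ => t ^ (-(3 / 20) : ℝ)) atTop (𝓝 0) :=
      tendsto_rpow_neg_atTop (by norm_num)
    have h2 : Tendsto (fun t : ℝ => 2 * D * t ^ (-(3 / 20) : ℝ)) atTop (𝓝 (2 * D * 0)) :=
      h1.const_mul _
    rw [mul_zero] at h2
    have h3 : ∀ᶠ t : ℝ in atTop, 2 * D * t ^ (-(3 / 20) : ℝ) < 1 / 64 :=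
      h2.eventually (gt_mem_nhds (by norm_num))
    obtain ⟨T, hT⟩ := (h3.and (eventually_ge_atTop (1 : ℝ))).exists_forall_of_atTop
    refine ⟨T, fun t ht => ?_⟩
    obtain ⟨h4, h5⟩ := hT t ht
    have h6 : t ^ (-1 / 2 : ℝ) = t ^ (-(3 / 20) : ℝ) * t ^ (-7 / 20 : ℝ) := by
      rw [← Real.rpow_add (by linarith)]
      norm_num
    rw [h6, ← mul_assoc]
    exact mul_le_mul_of_nonneg_right h4.le (Real.rpow_nonneg (by linarith) _)
  refine ⟨max T₀ (max T₂ 1), le_max_of_le_right (le_max_right _ _), fun p hp k hk => ?_⟩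
  obtain ⟨τ, hτ⟩ : ∃ τ, τ = p.2 := ⟨_, rfl⟩
  rw [← hτ] at hp ⊢
  have hτ0 : T₀ ≤ τ := (le_max_left _ _).trans hp
  have hτ2 : T₂ ≤ τ := (le_max_of_le_right (le_max_left _ _)).trans hp
  have hτ1 : 1 ≤ τ := (le_max_of_le_right (le_max_right _ _)).trans hp
  have hk1 : (1 : ℝ) ≤ k := by exact_mod_cast hk
  obtain ⟨i, hi, hsepi⟩ := hsep τ hτ0 k hk
  obtain ⟨l, hl⟩ : ∃ l : Fin m, (l.succ : ℕ) = i :=
    ⟨⟨i - 1, by omega⟩, by simp only [Fin.succ_mk]; omega⟩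
  by_contra hcon
  push Not at hcon
  obtain ⟨hc1, hc2⟩ := hcon
  have h1 : |τ ^ (7 / 20 : ℝ) * Real.sin (Real.pi * (p.1 l.succ - X τ l.succ))| ≤ 1 / 64 := by
    by_contra h
    push Not at h
    rw [hτ] at h
    exact hc1 (bpr_zero (hcX _ _ (by rw [← hτ]; linarith)) (by rw [← hτ]; linarith) h)
  have h2 : |(τ + k) ^ (7 / 20 : ℝ) * Real.sin (Real.pi * (p.1 l.succ - X (τ + k) l.succ))| ≤
      1 / 64 := by
    by_contra h
    push Not at h
    exact hc2 (bpr_zero (p := (p.1, τ + k)) (hcX _ _ (by simp only; linarith))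
      (by simp only; linarith) h)
  have hpow : ∀ s : ℝ, 0 < s → ∀ y : ℝ, |s ^ (7 / 20 : ℝ) * y| ≤ 1 / 64 →
      |y| ≤ 1 / 64 * s ^ (-7 / 20 : ℝ) := by
    intro s hs y hy
    rw [abs_mul, abs_of_pos (Real.rpow_pos_of_pos hs _)] at hy
    have e1 : s ^ (-7 / 20 : ℝ) = (s ^ (7 / 20 : ℝ))⁻¹ := by
      rw [← Real.rpow_neg hs.le]
      norm_num
    rw [e1, ← div_eq_mul_inv, le_div_iff₀ (Real.rpow_pos_of_pos hs _), mul_comm]
    exact hy
  have h3 := hpow τ (by linarith) _ h1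
  have h4 := hpow (τ + k) (by linarith) _ h2
  have hmono : ∀ a : ℝ, a ≤ 0 → (τ + k) ^ a ≤ τ ^ a := fun a ha =>
    Real.rpow_le_rpow_of_nonpos (by linarith) (by linarith) ha
  have h5 := abs_sin_sub (Real.pi * (p.1 l.succ - X τ l.succ))
    (Real.pi * (p.1 l.succ - X (τ + k) l.succ))
  have h6 : Real.pi * (p.1 l.succ - X τ l.succ) - Real.pi * (p.1 l.succ - X (τ + k) l.succ) =
      Real.pi * (X (τ + k) l.succ - X τ l.succ) := by ring
  rw [h6] at h5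
  obtain ⟨a, ha⟩ := exists_int (X (τ + k) l.succ - X τ l.succ)
  have h7 := hsepi a
  have h8 : |th0 i (τ + k) - th0 i τ - a| ≤ |X (τ + k) l.succ - X τ l.succ - a| +
      (D * (τ + k) ^ (-1 / 2 : ℝ) + D * τ ^ (-1 / 2 : ℝ)) := by
    have e1 := hC l.succ (τ + k) (by linarith)
    have e2 := hC l.succ τ hτ1
    have e3 : C l.succ * (τ + k) ^ (-1 / 2 : ℝ) ≤ D * (τ + k) ^ (-1 / 2 : ℝ) :=
      mul_le_mul_of_nonneg_right (hCD _) (Real.rpow_nonneg (by linarith) _)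
    have e4 : C l.succ * τ ^ (-1 / 2 : ℝ) ≤ D * τ ^ (-1 / 2 : ℝ) :=
      mul_le_mul_of_nonneg_right (hCD _) (Real.rpow_nonneg (by linarith) _)
    have e5 : ∀ t, th m t l.succ = th0 i t := fun t => by
      unfold th
      rw [hl]
    rw [e5] at e1 e2
    have e6 : th0 i (τ + k) - th0 i τ - a = (X (τ + k) l.succ - X τ l.succ - a) -
        ((X (τ + k) l.succ - th0 i (τ + k)) - (X τ l.succ - th0 i τ)) := by ring
    rw [e6]
    refine (abs_sub _ _).trans ?_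
    have e7 := abs_sub (X (τ + k) l.succ - th0 i (τ + k)) (X τ l.succ - th0 i τ)
    linarith
  have h9 := hT₂ τ hτ2
  have h10 : D * (τ + k) ^ (-1 / 2 : ℝ) ≤ D * τ ^ (-1 / 2 : ℝ) :=
    mul_le_mul_of_nonneg_left (hmono _ (by norm_num)) hD0
  have h11 := hmono (-7 / 20) (by norm_num)
  have h12 : 0 < τ ^ (-7 / 20 : ℝ) := Real.rpow_pos_of_pos (by linarith) _
  linarith

end Pool.Agent.Helper6K9.ES
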