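import Pool.Agent.Helper6K9.ES.Stm

set_option autoImplicit false

/-!
# Periodisation of a function supported in disjoint tubes
-/

namespace Pool.Agent.Helper6K9.ES

open Set Filter Topology
open scoped ContDiff

namespace LimL

variable {m : ℕ} {V : Type} [NormedAddCommGroup V]

/-- the shift in time -/
def sh (p : E m) (k : ℤ) : E m := p + (0, (k : ℝ))

theorem sh_eq (p : E m) (k : ℤ) : sh p k = (p.1, p.2 + k) := by
  unfold sh
  ext <;> simp

theorem sh_snd (p : E m) (k : ℤ) : (sh p k).2 = p.2 + k := by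
  rw [sh_eq]

theorem sh_sh (p : E m) (k l : ℤ) : sh (sh p k) l = sh p (k + l) := by
  unfold sh
  ext
  · simp
  · simp [add_assoc]

/-- the conditions -/
structure Hyp (H : E m → V) (η : ℝ → ℝ) : Prop where
  z : ∀ p, p.2 < 1 → H p = 0
  b : ∀ p, ‖H p‖ ≤ η p.2
  d : ∀ (p : E m) (k : ℕ), 1 ≤ k → H p = 0 ∨ H (sh p k) = 0

/-- the periodic function -/
noncomputable def per (H : E m → V) (p : E m) : V := ∑' k : ℤ, H (sh p k)

/-- the partial sums -/
noncomputable def ps (H : E m → V) (N : ℕ) (p : E m) : V :=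
  ∑ k ∈ Finset.Icc (-(N : ℤ)) N, H (sh p k)

theorem one {H : E m → V} {η : ℝ → ℝ} (h : Hyp H η) (p : E m) :
    ∃ k0 : ℤ, ∀ k, k ≠ k0 → H (sh p k) = 0 := by
  by_cases hz : ∀ k, H (sh p k) = 0
  · exact ⟨0, fun k _ => hz k⟩
  · push Not at hz
    obtain ⟨k0, hk0⟩ := hz
    refine ⟨k0, fun k hk => ?_⟩
    rcases lt_or_gt_of_ne hk with h1 | h1
    · have h2 := h.d (sh p k) (k0 - k).toNat (by omega)
      have h3 : (((k0 - k).toNat : ℕ) : ℤ) = k0 - k := Int.toNat_of_nonneg (by omega)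
      rw [sh_sh, h3, add_sub_cancel] at h2
      exact h2.resolve_right hk0
    · have h2 := h.d (sh p k0) (k - k0).toNat (by omega)
      have h3 : (((k - k0).toNat : ℕ) : ℤ) = k - k0 := Int.toNat_of_nonneg (by omega)
      rw [sh_sh, h3, add_sub_cancel] at h2
      exact h2.resolve_left hk0

theorem per_eq {H : E m → V} {p : E m} {k0 : ℤ} (h : ∀ k, k ≠ k0 → H (sh p k) = 0) :
    per H p = H (sh p k0) := tsum_eq_single k0 h

theorem per_le {H : E m → V} {η : ℝ → ℝ} (h : Hyp H η) {ε : ℝ} (hε : ∀ t, η t ≤ ε) (p : E m) :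
    ‖per H p‖ ≤ ε := by
  obtain ⟨k0, hk⟩ := one h p
  rw [per_eq hk]
  exact (h.b _).trans (hε _)

theorem unif {H : E m → V} {η : ℝ → ℝ} (h : Hyp H η) (hη : Antitone η)
    (h0 : Tendsto η atTop (𝓝 0)) (R : ℝ) :
    TendstoUniformlyOn (ps H) (per H) atTop {p : E m | |p.2| < R} := by
  rw [Metric.tendstoUniformlyOn_iff]
  intro ε hε
  obtain ⟨T, hT⟩ := (h0.eventually (gt_mem_nhds hε)).exists_forall_of_atTop
  obtain ⟨N0, hN0⟩ := exists_nat_ge (max (T + R) R)
  filter_upwards [eventually_ge_atTop N0] with N hN p hp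
  have hp : |p.2| < R := hp
  rw [abs_lt] at hp
  have hN' : (N0 : ℝ) ≤ N := by exact_mod_cast hN
  have hN1 : T + R ≤ N := (le_max_left _ _).trans (hN0.trans hN')
  have hN2 : R ≤ N := (le_max_right _ _).trans (hN0.trans hN')
  obtain ⟨k0, hk⟩ := one h p
  rw [per_eq hk]
  by_cases hm : k0 ∈ Finset.Icc (-(N : ℤ)) N
  · have h1 : ps H N p = H (sh p k0) := Finset.sum_eq_single_of_mem k0 hm fun k _ hne => hk k hne
    rw [h1, dist_self]
    exact hε
  · have h1 : ps H N p = 0 := Finset.sum_eq_zero fun k hkm => hk k fun he => hm (he ▸ hkm)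
    rw [h1, dist_zero_right]
    rw [Finset.mem_Icc, not_and_or, not_le, not_le] at hm
    rcases hm with h2 | h2
    · have h3 : (k0 : ℝ) < -(N : ℝ) := by exact_mod_cast h2
      rw [h.z _ (by rw [sh_snd]; linarith), norm_zero]
      exact hε
    · have h3 : (N : ℝ) < k0 := by exact_mod_cast h2
      refine lt_of_le_of_lt (h.b _) (lt_of_le_of_lt (hη ?_) (hT T le_rfl))
      rw [sh_snd]
      linarith

theorem slab_open (R : ℝ) : IsOpen {p : E m | |p.2| < R} :=
  isOpen_lt (continuous_abs.comp continuous_snd) continuous_const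

theorem per_cont {H : E m → V} {η : ℝ → ℝ} (h : Hyp H η) (hη : Antitone η)
    (h0 : Tendsto η atTop (𝓝 0)) (hc : Continuous H) : Continuous (per H) := by
  rw [continuous_iff_continuousAt]
  intro p
  have h1 := unif h hη h0 (|p.2| + 1)
  have h2 : ContinuousOn (per H) {q : E m | |q.2| < |p.2| + 1} := by
    refine h1.continuousOn (Frequently.of_forall fun N => ?_)
    refine Continuous.continuousOn (continuous_finsetSum _ fun k _ => hc.comp ?_)
    unfold sh
    fun_prop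
  exact h2.continuousAt ((slab_open _).mem_nhds (lt_add_one |p.2|))

theorem per_deriv [NormedSpace ℝ V] {H : E m → V} {η : ℝ → ℝ} (h : Hyp H η)
    (h' : Hyp (fderiv ℝ H) η) (hη : Antitone η)
    (h0 : Tendsto η atTop (𝓝 0)) (hd : Differentiable ℝ H) (p : E m) :
    HasFDerivAt (per H) (per (fderiv ℝ H) p) p := by
  refine hasFDerivAt_of_tendstoUniformlyOn (f := ps H) (slab_open (|p.2| + 1))
    (unif h' hη h0 _) ?_ ?_ (x := p) (lt_add_one |p.2|)
  · intro N q _
    refine HasFDerivAt.fun_sum fun k _ => ?_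
    have h1 : HasFDerivAt (fun q : E m => sh q k) (ContinuousLinearMap.id ℝ (E m)) q :=
      (hasFDerivAt_id q).add_const _
    have h2 := (hd (sh q k)).hasFDerivAt.comp q h1
    rw [ContinuousLinearMap.comp_id] at h2
    exact h2
  · intro q hq
    exact (unif h hη h0 (|p.2| + 1)).tendsto_at hq

end LimL

open LimL in
/-- **Periodisation.** -/
theorem lim : S_LIM := by
  intro m G η ε hG hz hx hη h0 hε hb hd
  have hG1 : Differentiable ℝ G := hG.differentiable (by norm_num)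
  have hG' : ContDiff ℝ 1 (fderiv ℝ G) := hG.fderiv_right (by norm_num)
  have hG2 : Differentiable ℝ (fderiv ℝ G) := hG'.differentiable (by norm_num)
  have hG3 : Continuous (fderiv ℝ (fderiv ℝ G)) := hG'.continuous_fderiv (by norm_num)
  -- germs
  have g1 : ∀ p, G =ᶠ[𝓝 p] 0 → fderiv ℝ G =ᶠ[𝓝 p] 0 := by
    intro p h
    have h1 := h.fderiv (𝕜 := ℝ)
    refine h1.trans (Eventually.of_forall fun q => ?_)
    show fderiv ℝ (0 : E m → ℝ) q = 0
    rw [fderiv_zero]
    rfl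
  have g2 : ∀ p, G =ᶠ[𝓝 p] 0 → fderiv ℝ (fderiv ℝ G) =ᶠ[𝓝 p] 0 := by
    intro p h
    have h1 := (g1 p h).fderiv (𝕜 := ℝ)
    refine h1.trans (Eventually.of_forall fun q => ?_)
    show fderiv ℝ (0 : E m → (E m →L[ℝ] ℝ)) q = 0
    rw [fderiv_zero]
    rfl
  have gz : ∀ p : E m, p.2 < 1 → G =ᶠ[𝓝 p] 0 := by
    intro p hp
    filter_upwards [(isOpen_lt continuous_snd continuous_const).mem_nhds hp] with q hq
    exact hz q (le_of_lt hq)
  have hsh : ∀ (p : E m) (k : ℕ), sh p k = (p.1, p.2 + k) := by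
    intro p k
    rw [sh_eq]
    simp
  have H0 : Hyp G η := ⟨fun p hp => (gz p hp).eq_of_nhds, fun p => (hb p).1, fun p k hk => by
    rw [hsh]
    exact (hd p k hk).imp (fun h => h.eq_of_nhds) fun h => h.eq_of_nhds⟩
  have H1 : Hyp (fderiv ℝ G) η := ⟨fun p hp => (g1 p (gz p hp)).eq_of_nhds,
    fun p => (hb p).2.1, fun p k hk => by
    rw [hsh]
    exact (hd p k hk).imp (fun h => (g1 _ h).eq_of_nhds) fun h => (g1 _ h).eq_of_nhds⟩
  have H2 : Hyp (fderiv ℝ (fderiv ℝ G)) η := ⟨fun p hp => (g2 p (gz p hp)).eq_of_nhds,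
    fun p => (hb p).2.2, fun p k hk => by
    rw [hsh]
    exact (hd p k hk).imp (fun h => (g2 _ h).eq_of_nhds) fun h => (g2 _ h).eq_of_nhds⟩
  have d1 := per_deriv H0 H1 hη h0 hG1
  have d2 := per_deriv H1 H2 hη h0 hG2
  have e1 : fderiv ℝ (per G) = per (fderiv ℝ G) := funext fun p => (d1 p).fderiv
  have e2 : fderiv ℝ (per (fderiv ℝ G)) = per (fderiv ℝ (fderiv ℝ G)) :=
    funext fun p => (d2 p).fderiv
  refine ⟨per G, ?_, ?_, ?_, ?_⟩
  · have h1 : ContDiff ℝ 1 (per (fderiv ℝ G)) := by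
      rw [contDiff_one_iff_fderiv, e2]
      exact ⟨fun p => (d2 p).differentiableAt, per_cont H2 hη h0 hG3⟩
    have h2 : (2 : WithTop ℕ∞) = 1 + 1 := by norm_num
    rw [h2, contDiff_succ_iff_fderiv, e1]
    exact ⟨fun p => (d1 p).differentiableAt, by simp, h1⟩
  · intro p k l
    show (∑' j : ℤ, G (sh (p.1 + (fun i => (k i : ℝ)), p.2 + l) j)) = ∑' j : ℤ, G (sh p j)
    rw [← (Equiv.addLeft l).tsum_eq fun j : ℤ => G (sh p j)]
    refine tsum_congr fun j => ?_
    rw [sh_eq, Equiv.coe_addLeft, sh_eq, hx (p.1, p.2 + l + j) k]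
    push_cast
    rw [add_assoc]
  · intro p
    rw [e1, e2]
    exact ⟨per_le H0 hε p, per_le H1 hε p, per_le H2 hε p⟩
  · intro p hp
    rw [e1, per_eq (k0 := 0)]
    · rw [sh_eq]
      simp
    · intro k hk
      rw [sh_eq]
      exact (g1 _ (hp k hk)).eq_of_nhds

end Pool.Agent.Helper6K9.ES
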