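import Pool.Agent.Helper6K9.ES.Stm
import Pool.Agent.Helper27.Har.P_global_ode

set_option autoImplicit false

/-!
# Escaping orbits, [ODE]: global solutions
-/

namespace Pool.Agent.Helper6K9.ES

open Set Filter Topology
open scoped ContDiff NNReal

namespace OdeL

variable {m : ℕ}

/-- the compact fundamental domain -/
def box (m : ℕ) : Set (E m) := (Set.pi univ fun _ => Icc (0 : ℝ) 1) ×ˢ Icc (0 : ℝ) 1

lemma box_compact (m : ℕ) : IsCompact (box m) :=
  (isCompact_univ_pi fun _ => isCompact_Icc).prod isCompact_Icc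

/-- continuous periodic functions are bounded -/
lemma bounded_of_per {Y : Type*} [SeminormedAddCommGroup Y] (g : E m → Y) (hg : Continuous g)
    (hp : ∀ (p : E m) (k : Fin (m + 1) → ℤ) (l : ℤ),
      g (p.1 + (fun i => (k i : ℝ)), p.2 + l) = g p) : ∃ C : ℝ, ∀ p, ‖g p‖ ≤ C := by
  obtain ⟨C, hC⟩ := (box_compact m).exists_bound_of_continuousOn hg.continuousOn
  refine ⟨C, fun p => ?_⟩
  have h := hp p (fun i => -⌊p.1 i⌋) (-⌊p.2⌋)
  rw [← h]
  refine hC _ ⟨fun i _ => ?_, ?_⟩
  · simp only [Pi.add_apply, Int.cast_neg]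
    have h1 := Int.floor_le (p.1 i)
    have h2 := Int.lt_floor_add_one (p.1 i)
    constructor <;> linarith
  · simp only [Int.cast_neg]
    have h1 := Int.floor_le p.2
    have h2 := Int.lt_floor_add_one p.2
    constructor <;> linarith

/-- the derivative of a periodic function is periodic -/
lemma fderiv_per {Y : Type*} [NormedAddCommGroup Y] [NormedSpace ℝ Y] (g : E m → Y)
    (hp : ∀ (p : E m) (k : Fin (m + 1) → ℤ) (l : ℤ),
      g (p.1 + (fun i => (k i : ℝ)), p.2 + l) = g p) (p : E m) (k : Fin (m + 1) → ℤ) (l : ℤ) :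
    fderiv ℝ g (p.1 + (fun i => (k i : ℝ)), p.2 + l) = fderiv ℝ g p := by
  have e : (fun q : E m => g (q + ((fun i => (k i : ℝ)), (l : ℝ)))) = g := by
    funext q
    exact hp q k l
  have h := fderiv_comp_add_right (𝕜 := ℝ) (f := g) (x := p) ((fun i => (k i : ℝ)), (l : ℝ))
  rw [e] at h
  rw [h]
  rfl

/-- the linear map `φ ↦ A⁻¹ φ|_x` -/
noncomputable def Lam (B : Matrix (Fin (m + 1)) (Fin (m + 1)) ℝ) :
    (E m →L[ℝ] ℝ) →L[ℝ] Q m :=
  LinearMap.toContinuousLinearMap
    { toFun := fun φ j => ∑ k, B j k * φ (Pi.single k 1, 0)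
      map_add' := fun φ ψ => by
        funext j
        simp only [_root_.add_apply, Pi.add_apply, mul_add, Finset.sum_add_distrib]
      map_smul' := fun c φ => by
        funext j
        simp only [_root_.smul_apply, smul_eq_mul, RingHom.id_apply, Pi.smul_apply,
          Finset.mul_sum]
        refine Finset.sum_congr rfl fun k _ => ?_
        ring }

lemma Lam_apply (B : Matrix (Fin (m + 1)) (Fin (m + 1)) ℝ) (f : E m → ℝ) (p : E m)
    (j : Fin (m + 1)) : Lam B (fderiv ℝ f p) j = ∑ k, B j k * dX k f p := rfl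

end OdeL

open OdeL

theorem ode : S_ODE := by
  intro m A f T X hA hf hper hX
  have hAA : A * A⁻¹ = 1 := Matrix.mul_nonsing_inv A hA
  have hAA' : A⁻¹ * A = 1 := Matrix.nonsing_inv_mul A hA
  obtain ⟨G, hG⟩ : ∃ G : E m → Q m, G = fun p => Lam A⁻¹ (fderiv ℝ f p) := ⟨_, rfl⟩
  have hf1 : ContDiff ℝ 1 (fderiv ℝ f) := hf.fderiv_right (by norm_num)
  have hcont2 : Continuous (fderiv ℝ (fderiv ℝ f)) := hf1.continuous_fderiv (by norm_num)
  obtain ⟨C, hC⟩ := bounded_of_per _ hcont2 (fderiv_per _ (fderiv_per _ hper))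
  have hC0 : 0 ≤ C := (norm_nonneg _).trans (hC 0)
  have hlip : LipschitzWith ⟨C, hC0⟩ (fderiv ℝ f) :=
    lipschitzWith_of_nnnorm_fderiv_le (hf1.differentiable (by norm_num)) fun p => hC p
  have hGl : LipschitzWith (‖Lam (m := m) A⁻¹‖₊ * ⟨C, hC0⟩) G := by
    rw [hG]
    exact (Lam A⁻¹).lipschitz.comp hlip
  have hGc : Continuous G := hGl.continuous
  obtain ⟨F, hF⟩ : ∃ F : ℝ → Q m × Q m → Q m × Q m, F = fun t y => (y.2, G (y.1, t)) := ⟨_, rfl⟩
  have hFl : ∀ t, LipschitzWith (max 1 (‖Lam (m := m) A⁻¹‖₊ * ⟨C, hC0⟩ * 1)) (F t) := by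
    intro t
    rw [hF]
    refine LipschitzWith.prodMk LipschitzWith.prod_snd (hGl.comp ?_)
    refine LipschitzWith.mk_one fun a b => ?_
    rw [Prod.dist_eq]
    simp only [dist_self]
    refine max_le ?_ dist_nonneg
    exact le_max_left _ _
  have hFc : Continuous (Function.uncurry F) := by
    rw [hF]
    exact (continuous_snd.comp continuous_snd).prodMk
      (hGc.comp ((continuous_fst.comp continuous_snd).prodMk continuous_fst))
  -- the solution starting at time `T + 1`
  obtain ⟨ξ, hξ0, hξ⟩ := Haraux.global_ode (fun t y => F (t + (T + 1)) y) _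
    (fun t => hFl _) (hFc.comp ((continuous_fst.add continuous_const).prodMk continuous_snd))
    (X (T + 1), fun i => deriv (fun u => X u i) (T + 1))
  obtain ⟨Y, hY⟩ : ∃ Y : ℝ → Q m × Q m, Y = fun t => ξ (t - (T + 1)) := ⟨_, rfl⟩
  have hYd : ∀ t, HasDerivAt Y (F t (Y t)) t := by
    intro t
    have h1 := hξ (t - (T + 1))
    have h2 := HasDerivAt.comp_sub_const t (T + 1) h1
    rw [sub_add_cancel] at h2
    rw [hY]
    exact h2
  have hY0 : Y (T + 1) = (X (T + 1), fun i => deriv (fun u => X u i) (T + 1)) := by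
    rw [hY]
    simp only [sub_self]
    exact hξ0
  -- the given solution
  obtain ⟨Z, hZ⟩ : ∃ Z : ℝ → Q m × Q m, Z = fun t => (X t, fun i => deriv (fun u => X u i) t) :=
    ⟨_, rfl⟩
  have hZd : ∀ t, T < t → HasDerivAt Z (F t (Z t)) t := by
    intro t ht
    obtain ⟨h1, h2, h3⟩ := hX t ht
    have h4 : HasDerivAt (fun t => X t) (fun i => deriv (fun u => X u i) t) t :=
      hasDerivAt_pi.2 fun i => (h1 i).hasDerivAt
    have h5 : HasDerivAt (fun t => fun i => deriv (fun u => X u i) t)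
        (fun i => deriv (deriv fun u => X u i) t) t :=
      hasDerivAt_pi.2 fun i => (h2 i).hasDerivAt
    have h6 : (fun i => deriv (deriv fun u => X u i) t) = G (X t, t) := by
      funext i
      rw [hG]
      simp only
      rw [Lam_apply]
      have h7 : ∀ k, dX k f (X t, t) = ∑ j, A k j * deriv (deriv fun u => X u j) t :=
        fun k => (h3 k).symm
      simp_rw [h7, Finset.mul_sum, ← mul_assoc]
      rw [Finset.sum_comm]
      simp_rw [← Finset.sum_mul]
      have h8 : ∀ j, ∑ k, A⁻¹ i k * A k j = (1 : Matrix (Fin (m + 1)) (Fin (m + 1)) ℝ) i j := by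
        intro j
        rw [← hAA', Matrix.mul_apply]
      simp_rw [h8, Matrix.one_apply]
      simp
    rw [h6] at h5
    rw [hZ, hF]
    exact h4.prodMk h5
  have heq : ∀ t, T < t → Y t = Z t := by
    intro t ht
    have h1 := ODE_solution_unique_of_mem_Ioo (v := F) (s := fun _ => univ)
      (K := max 1 (‖Lam (m := m) A⁻¹‖₊ * ⟨C, hC0⟩ * 1)) (t₀ := T + 1) (a := T)
      (b := max t (T + 1) + 1)
      (fun t _ => (hFl t).lipschitzOnWith) ⟨by linarith, by linarith [le_max_right t (T + 1)]⟩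
      (f := Y) (g := Z) (fun s _ => ⟨hYd s, trivial⟩) (fun s hs => ⟨hZd s hs.1, trivial⟩)
      (by rw [hY0, hZ])
    exact h1 ⟨ht, by linarith [le_max_left t (T + 1)]⟩
  -- the curve
  have hd1 : ∀ (i : Fin (m + 1)) (t : ℝ), HasDerivAt (fun u => (Y u).1 i) ((Y t).2 i) t := by
    intro i t
    have h1 := (hYd t).fst
    rw [hF] at h1
    exact hasDerivAt_pi.1 h1 i
  have hd2 : ∀ (i : Fin (m + 1)) (t : ℝ), HasDerivAt (fun u => (Y u).2 i) (G ((Y t).1, t) i) t := by
    intro i t
    have h1 := (hYd t).snd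
    rw [hF] at h1
    exact hasDerivAt_pi.1 h1 i
  have hde : ∀ i : Fin (m + 1), deriv (fun u => (Y u).1 i) = fun u => (Y u).2 i := fun i =>
    funext fun t => (hd1 i t).deriv
  refine ⟨fun t => (Y t).1, fun t _ => ⟨fun i => (hd1 i t).differentiableAt, fun i => ?_,
    fun i => ?_⟩, fun t ht => ?_⟩
  · show DifferentiableAt ℝ (deriv fun u => (Y u).1 i) t
    rw [hde i]
    exact (hd2 i t).differentiableAt
  · show ∑ j, A i j * deriv (deriv fun u => (Y u).1 j) t = dX i f ((Y t).1, t)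
    have h1 : ∀ j, deriv (deriv fun u => (Y u).1 j) t = ∑ k, A⁻¹ j k * dX k f ((Y t).1, t) := by
      intro j
      rw [hde j, (hd2 j t).deriv, hG]
      exact Lam_apply _ _ _ _
    simp_rw [h1, Finset.mul_sum, ← mul_assoc]
    rw [Finset.sum_comm]
    simp_rw [← Finset.sum_mul]
    have h8 : ∀ k, ∑ j, A i j * A⁻¹ j k = (1 : Matrix (Fin (m + 1)) (Fin (m + 1)) ℝ) i k := by
      intro k
      rw [← hAA, Matrix.mul_apply]
    simp_rw [h8, Matrix.one_apply]
    simp
  · show (Y t).1 = X t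
    rw [heq t (by linarith), hZ]

end Pool.Agent.Helper6K9.ES
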