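import Pool.Agent.Helper6K9.ES.Cmp

set_option autoImplicit false

/-!
# [TAY] Taylor expansion along a curve
-/

namespace Pool.Agent.Helper6K9.ES

open Set Filter Topology
open scoped ContDiff

namespace TayL

open CmpL

variable {m : ℕ}

theorem hasDerivAt_line {F : E m → ℝ} (hF : Sm F) (p h : Q m) (t s : ℝ) :
    HasDerivAt (fun s : ℝ => F (p + s • h, t)) (∑ i, dX i F (p + s • h, t) * h i) s := by
  have hd : DifferentiableAt ℝ F (p + s • h, t) :=
    (hF.1.differentiable (by simp)).differentiableAt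
  have h1 : HasDerivAt (fun s : ℝ => p + s • h) h s := by
    have := ((hasDerivAt_id s).smul_const h).const_add p
    rw [one_smul] at this
    exact this
  have h2 : HasDerivAt (fun s : ℝ => ((p + s • h, t) : E m)) (h, 0) s :=
    h1.prodMk (hasDerivAt_const s t)
  have h3 := HasFDerivAt.comp_hasDerivAt (f := fun s : ℝ => ((p + s • h, t) : E m)) s
    hd.hasFDerivAt h2
  rw [fderiv_split, mul_zero, add_zero] at h3
  exact h3

theorem mv0 (hops : S_OPS) {F : E m → ℝ} (hF : Sm F) : ∃ C : ℝ, 0 ≤ C ∧ ∀ (p h : Q m) (t : ℝ),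
    |F (p + h, t) - F (p, t)| ≤ C * ∑ i, |h i| := by
  have hb : ∀ i, ∃ C : ℝ, 0 ≤ C ∧ ∀ p, |dX i F p| ≤ C := fun i =>
    per_bd ((hops m F hF).1 i).1.continuous ((hops m F hF).1 i).2
  choose C hC0 hC using hb
  refine ⟨∑ i, C i, Finset.sum_nonneg fun i _ => hC0 i, fun p h t => ?_⟩
  have := norm_image_sub_le_of_norm_deriv_le_segment_01'
    (f := fun s : ℝ => F (p + s • h, t)) (C := (∑ i, C i) * ∑ i, |h i|)
    (fun s _ => (hasDerivAt_line hF p h t s).hasDerivWithinAt) (fun s _ => by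
      rw [Real.norm_eq_abs]
      calc |∑ i, dX i F (p + s • h, t) * h i| ≤ ∑ i, |dX i F (p + s • h, t) * h i| :=
            Finset.abs_sum_le_sum_abs _ _
        _ ≤ ∑ i, (∑ j, C j) * |h i| := Finset.sum_le_sum fun i _ => by
            rw [abs_mul]
            exact mul_le_mul_of_nonneg_right ((hC i _).trans
              (Finset.single_le_sum (f := C) (fun j _ => hC0 j) (Finset.mem_univ i)))
              (abs_nonneg _)
        _ = (∑ i, C i) * ∑ i, |h i| := (Finset.mul_sum _ _ _).symm)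
  simpa using this

theorem mv1 (hops : S_OPS) {F : E m → ℝ} (hF : Sm F) : ∃ C : ℝ, 0 ≤ C ∧ ∀ (p h : Q m) (t : ℝ),
    |F (p + h, t) - F (p, t) - ∑ i, dX i F (p, t) * h i| ≤ C * (∑ i, |h i|) ^ 2 := by
  have hb : ∀ i, ∃ C : ℝ, 0 ≤ C ∧ ∀ (p h : Q m) (t : ℝ),
      |dX i F (p + h, t) - dX i F (p, t)| ≤ C * ∑ i, |h i| := fun i =>
    mv0 hops ((hops m F hF).1 i)
  choose C hC0 hC using hb
  refine ⟨∑ i, C i, Finset.sum_nonneg fun i _ => hC0 i, fun p h t => ?_⟩
  have hs0 : 0 ≤ ∑ i, |h i| := Finset.sum_nonneg fun i _ => abs_nonneg _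
  have hder : ∀ s : ℝ, HasDerivAt (fun s : ℝ => F (p + s • h, t) - s * ∑ i, dX i F (p, t) * h i)
      (∑ i, (dX i F (p + s • h, t) - dX i F (p, t)) * h i) s := by
    intro s
    have h1 := (hasDerivAt_line hF p h t s).sub
      ((hasDerivAt_id s).mul_const (∑ i, dX i F (p, t) * h i))
    rw [one_mul] at h1
    refine h1.congr_deriv ?_
    rw [← Finset.sum_sub_distrib]
    exact Finset.sum_congr rfl fun i _ => by ring
  have := norm_image_sub_le_of_norm_deriv_le_segment_01'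
    (f := fun s : ℝ => F (p + s • h, t) - s * ∑ i, dX i F (p, t) * h i)
    (C := (∑ i, C i) * (∑ i, |h i|) ^ 2)
    (fun s _ => (hder s).hasDerivWithinAt) (fun s hs => by
      rw [Real.norm_eq_abs]
      have hsh : ∑ i, |(s • h) i| ≤ ∑ i, |h i| := Finset.sum_le_sum fun i _ => by
        rw [Pi.smul_apply, smul_eq_mul, abs_mul, abs_of_nonneg hs.1]
        exact mul_le_of_le_one_left (abs_nonneg _) hs.2.le
      calc |∑ i, (dX i F (p + s • h, t) - dX i F (p, t)) * h i|
          ≤ ∑ i, |(dX i F (p + s • h, t) - dX i F (p, t)) * h i| :=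
            Finset.abs_sum_le_sum_abs _ _
        _ ≤ ∑ i, ((∑ j, C j) * ∑ i, |h i|) * |h i| := Finset.sum_le_sum fun i _ => by
            rw [abs_mul]
            refine mul_le_mul_of_nonneg_right ?_ (abs_nonneg _)
            refine (hC i p (s • h) t).trans ?_
            exact mul_le_mul (Finset.single_le_sum (f := C) (fun j _ => hC0 j)
              (Finset.mem_univ i)) hsh (Finset.sum_nonneg fun i _ => abs_nonneg _)
              (Finset.sum_nonneg fun i _ => hC0 i)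
        _ = (∑ i, C i) * (∑ i, |h i|) ^ 2 := by rw [← Finset.mul_sum]; ring)
  simp only [one_smul, one_mul, zero_smul, zero_mul, add_zero, sub_zero] at this
  rw [Real.norm_eq_abs] at this
  calc _ = |F (p + h, t) - ∑ i, dX i F (p, t) * h i - F (p, t)| := by congr 1; ring
    _ ≤ _ := this

/-- the bound of the sum of the components -/
theorem sum_bd {u : ℝ → Q m} {a : ℝ} (hu : ∀ i, SyA a fun t => u t i) :
    ∃ C : ℝ, 0 ≤ C ∧ ∀ t : ℝ, 1 ≤ t → ∑ i, |u t i| ≤ C * t ^ a := by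
  choose C hC0 hC using fun i => (hu i).bd
  refine ⟨∑ i, C i, Finset.sum_nonneg fun i _ => hC0 i, fun t ht => ?_⟩
  rw [Finset.sum_mul]
  exact Finset.sum_le_sum fun i _ => hC i t ht

theorem fderiv_dir {F : E m → ℝ} (hF : Sm F) (v w p : E m) :
    fderiv ℝ (fun p => fderiv ℝ F p v) p w = fderiv ℝ (fderiv ℝ F) p w v := by
  have hd : DifferentiableAt ℝ (fderiv ℝ F) p :=
    ((hF.1.fderiv_right (m := ∞) (by simp)).differentiable (by simp)).differentiableAt
  rw [fderiv_clm_apply hd (differentiableAt_const v)]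
  simp

theorem symm2 {F : E m → ℝ} (hF : Sm F) (v w p : E m) :
    fderiv ℝ (fun p => fderiv ℝ F p v) p w = fderiv ℝ (fun p => fderiv ℝ F p w) p v := by
  rw [fderiv_dir hF, fderiv_dir hF]
  have h : IsSymmSndFDerivAt ℝ F p :=
    (hF.1.contDiffAt (x := p)).isSymmSndFDerivAt (by
      rw [minSmoothness_of_isRCLikeNormedField]
      exact WithTop.coe_le_coe.2 (le_top : (2 : ℕ∞) ≤ ⊤))
  exact h.eq w v

theorem dX_dX {F : E m → ℝ} (hF : Sm F) (i j : Fin (m + 1)) (p : E m) :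
    dX i (dX j F) p = dX j (dX i F) p := symm2 hF _ _ p

theorem dT_dX {F : E m → ℝ} (hF : Sm F) (i : Fin (m + 1)) (p : E m) :
    dT (dX i F) p = dX i (dT F) p := symm2 hF _ _ p

theorem deriv_add_curve {Y u : ℝ → Q m} (hY : Crv Y) (hu : ∀ i, SyA (-1 / 2) fun t => u t i)
    (i : Fin (m + 1)) {t : ℝ} (ht : 0 < t) :
    deriv (fun s => (Y s + u s) i) t = deriv (fun s => Y s i) t + deriv (fun s => u s i) t :=
  deriv_fun_add (((hY i).1 t ht).differentiableAt (Ioi_mem_nhds ht)) ((hu i).diffAt ht)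

/-- the derivative of `F(Y+u) - F(Y)` -/
theorem hasDerivAt_E0 {Y u : ℝ → Q m} (hY : Crv Y) (hu : ∀ i, SyA (-1 / 2) fun t => u t i)
    {F : E m → ℝ} (hF : Sm F) {t : ℝ} (ht : 0 < t) :
    HasDerivAt (fun t => F (Y t + u t, t) - F (Y t, t))
      (((∑ i, (dX i F (Y t + u t, t) - dX i F (Y t, t)) * deriv (fun s => Y s i) t) +
        (dT F (Y t + u t, t) - dT F (Y t, t))) +
        ∑ i, dX i F (Y t + u t, t) * deriv (fun s => u s i) t) t := by
  have h1 := hasDerivAt_comp (crv_add hY hu) hF ht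
  have h2 := hasDerivAt_comp hY hF ht
  have h3 := h1.sub h2
  refine (h3.congr_deriv ?_)
  have e : ∑ i, dX i F (Y t + u t, t) * deriv (fun s => (Y s + u s) i) t =
      ∑ i, (dX i F (Y t + u t, t) * deriv (fun s => Y s i) t +
        dX i F (Y t + u t, t) * deriv (fun s => u s i) t) :=
    Finset.sum_congr rfl fun i _ => by rw [deriv_add_curve hY hu i ht, mul_add]
  rw [e, Finset.sum_add_distrib]
  have e2 : ∑ i, (dX i F (Y t + u t, t) - dX i F (Y t, t)) * deriv (fun s => Y s i) t =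
      ∑ i, dX i F (Y t + u t, t) * deriv (fun s => Y s i) t -
        ∑ i, dX i F (Y t, t) * deriv (fun s => Y s i) t := by
    rw [← Finset.sum_sub_distrib]
    exact Finset.sum_congr rfl fun i _ => by ring
  rw [e2]
  ring

theorem sy_E0 (hops : S_OPS) {Y u : ℝ → Q m} (hY : Crv Y)
    (hu : ∀ i, SyA (-1 / 2) fun t => u t i) : ∀ (J : ℕ) (F : E m → ℝ), Sm F →
    Sy J (-1 / 2) (fun t => F (Y t + u t, t) - F (Y t, t)) := by
  have key : ∀ F : E m → ℝ, Sm F → ∃ C : ℝ, ∀ t : ℝ, 1 ≤ t →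
      |F (Y t + u t, t) - F (Y t, t)| ≤ C * t ^ (-1 / 2 : ℝ) := by
    intro F hF
    obtain ⟨C, hC0, hC⟩ := mv0 hops hF
    obtain ⟨D, _, hD⟩ := sum_bd hu
    refine ⟨C * D, fun t ht => (hC _ _ _).trans ?_⟩
    rw [mul_assoc]
    exact mul_le_mul_of_nonneg_left (hD t ht) hC0
  intro J
  induction J with
  | zero => exact fun F hF => key F hF
  | succ J ih =>
    intro F hF
    obtain ⟨h1, h2, -⟩ := hops m F hF
    refine sy_succ_of_deriv (key F hF) (fun t ht => hasDerivAt_E0 hY hu hF ht) ?_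
    refine sy_add J (sy_add J (sy_sum J _ fun i _ => ?_) (sy_mono J (by norm_num) (ih _ h2)))
      (sy_sum J _ fun i _ => ?_)
    · exact sy_mono J (by norm_num) (sy_mul J (ih _ (h1 i)) ((hY i).2 J))
    · have hc := sy_comp hops (crv_add hY hu) J _ (h1 i)
      exact sy_mono J (by norm_num) (sy_mul J hc ((hu i).deriv J))

/-- the derivative of the second remainder -/
theorem hasDerivAt_E1 (hops : S_OPS) {Y u : ℝ → Q m} (hY : Crv Y)
    (hu : ∀ i, SyA (-1 / 2) fun t => u t i) {F : E m → ℝ} (hF : Sm F) {t : ℝ} (ht : 0 < t) :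
    HasDerivAt (fun t => F (Y t + u t, t) - F (Y t, t) - ∑ i, dX i F (Y t, t) * u t i)
      (((∑ j, (dX j F (Y t + u t, t) - dX j F (Y t, t) - ∑ i, dX i (dX j F) (Y t, t) * u t i) *
          deriv (fun s => Y s j) t) +
        (dT F (Y t + u t, t) - dT F (Y t, t) - ∑ i, dX i (dT F) (Y t, t) * u t i)) +
        ∑ i, (dX i F (Y t + u t, t) - dX i F (Y t, t)) * deriv (fun s => u s i) t) t := by
  have h1 := hasDerivAt_E0 hY hu hF ht
  have h2 : HasDerivAt (fun t => ∑ i, dX i F (Y t, t) * u t i)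
      (∑ i, (((∑ j, dX j (dX i F) (Y t, t) * deriv (fun s => Y s j) t) +
        dT (dX i F) (Y t, t)) * u t i + dX i F (Y t, t) * deriv (fun s => u s i) t)) t := by
    refine HasDerivAt.fun_sum fun i _ => ?_
    exact (hasDerivAt_comp hY ((hops m F hF).1 i) ht).mul ((hu i).diffAt ht).hasDerivAt
  have h3 := h1.sub h2
  refine (h3.congr_deriv ?_)
  have e1 : ∑ j, (dX j F (Y t + u t, t) - dX j F (Y t, t) -
      ∑ i, dX i (dX j F) (Y t, t) * u t i) * deriv (fun s => Y s j) t =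
      ∑ j, (dX j F (Y t + u t, t) - dX j F (Y t, t)) * deriv (fun s => Y s j) t -
      ∑ i, (∑ j, dX j (dX i F) (Y t, t) * deriv (fun s => Y s j) t) * u t i := by
    have : ∑ i, (∑ j, dX j (dX i F) (Y t, t) * deriv (fun s => Y s j) t) * u t i =
        ∑ j, (∑ i, dX i (dX j F) (Y t, t) * u t i) * deriv (fun s => Y s j) t := by
      simp only [Finset.sum_mul]
      rw [Finset.sum_comm]
      refine Finset.sum_congr rfl fun j _ => Finset.sum_congr rfl fun i _ => ?_
      rw [dX_dX hF j i]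
      ring
    rw [this, ← Finset.sum_sub_distrib]
    exact Finset.sum_congr rfl fun j _ => by ring
  have e2 : ∑ i, (((∑ j, dX j (dX i F) (Y t, t) * deriv (fun s => Y s j) t) +
        dT (dX i F) (Y t, t)) * u t i + dX i F (Y t, t) * deriv (fun s => u s i) t) =
      (∑ i, (∑ j, dX j (dX i F) (Y t, t) * deriv (fun s => Y s j) t) * u t i) +
        (∑ i, dX i (dT F) (Y t, t) * u t i) +
        ∑ i, dX i F (Y t, t) * deriv (fun s => u s i) t := by
    rw [← Finset.sum_add_distrib, ← Finset.sum_add_distrib]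
    refine Finset.sum_congr rfl fun i _ => ?_
    rw [dT_dX hF i]
    ring
  have e3 : ∑ i, (dX i F (Y t + u t, t) - dX i F (Y t, t)) * deriv (fun s => u s i) t =
      ∑ i, dX i F (Y t + u t, t) * deriv (fun s => u s i) t -
        ∑ i, dX i F (Y t, t) * deriv (fun s => u s i) t := by
    rw [← Finset.sum_sub_distrib]
    exact Finset.sum_congr rfl fun i _ => by ring
  rw [e1, e2, e3]
  ring

theorem sy_E1 (hops : S_OPS) {Y u : ℝ → Q m} (hY : Crv Y)
    (hu : ∀ i, SyA (-1 / 2) fun t => u t i) : ∀ (J : ℕ) (F : E m → ℝ), Sm F →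
    Sy J (-1) (fun t => F (Y t + u t, t) - F (Y t, t) - ∑ i, dX i F (Y t, t) * u t i) := by
  have key : ∀ F : E m → ℝ, Sm F → ∃ C : ℝ, ∀ t : ℝ, 1 ≤ t →
      |F (Y t + u t, t) - F (Y t, t) - ∑ i, dX i F (Y t, t) * u t i| ≤ C * t ^ (-1 : ℝ) := by
    intro F hF
    obtain ⟨C, hC0, hC⟩ := mv1 hops hF
    obtain ⟨D, hD0, hD⟩ := sum_bd hu
    refine ⟨C * D ^ 2, fun t ht => (hC _ _ _).trans ?_⟩
    rw [mul_assoc]
    refine mul_le_mul_of_nonneg_left ?_ hC0
    have h1 : (∑ i, |u t i|) ^ 2 ≤ (D * t ^ (-1 / 2 : ℝ)) ^ 2 :=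
      pow_le_pow_left₀ (Finset.sum_nonneg fun i _ => abs_nonneg _) (hD t ht) 2
    refine h1.trans (le_of_eq ?_)
    rw [mul_pow, ← Real.rpow_natCast (t ^ (-1 / 2 : ℝ)), ← Real.rpow_mul (by linarith)]
    norm_num
  intro J
  induction J with
  | zero => exact fun F hF => key F hF
  | succ J ih =>
    intro F hF
    obtain ⟨h1, h2, -⟩ := hops m F hF
    refine sy_succ_of_deriv (key F hF) (fun t ht => hasDerivAt_E1 hops hY hu hF ht) ?_
    refine sy_add J (sy_add J (sy_sum J _ fun i _ => ?_) (sy_mono J (by norm_num) (ih _ h2)))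
      (sy_sum J _ fun i _ => ?_)
    · exact sy_mono J (by norm_num) (sy_mul J (ih _ (h1 i)) ((hY i).2 J))
    · exact sy_mono J (by norm_num) (sy_mul J (sy_E0 hops hY hu J _ (h1 i)) ((hu i).deriv J))

end TayL

theorem tay (hops : S_OPS) (_hcmp : S_CMP) : S_TAY := fun _ _ _ _ hY hF hu =>
  ⟨fun J => TayL.sy_E0 hops hY hu J _ hF, fun J => TayL.sy_E1 hops hY hu J _ hF⟩

end Pool.Agent.Helper6K9.ES
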