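import Pool.Agent.Helper6K9.ES.Stm

set_option autoImplicit false

/-!
# Euler-Lagrange equations
-/

namespace Pool.Agent.Helper6K9.ES

open Set Filter Topology
open scoped ContDiff

/-- `∂L/∂v_i` -/
noncomputable def dv {n : ℕ} (L : (Fin n → ℝ) → (Fin n → ℝ) → ℝ → ℝ) (i : Fin n)
    (x v : Fin n → ℝ) (t : ℝ) : ℝ := deriv (fun s => L x (Function.update v i s) t) (v i)

/-- `∂L/∂x_i` -/
noncomputable def dx {n : ℕ} (L : (Fin n → ℝ) → (Fin n → ℝ) → ℝ → ℝ) (i : Fin n)
    (x v : Fin n → ℝ) (t : ℝ) : ℝ := deriv (fun s => L (Function.update x i s) v t) (x i)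

/-- the Lagrangian of the constant metric `A` and the potential `f` -/
noncomputable def lag {n : ℕ} (A : Matrix (Fin n) (Fin n) ℝ) (f : (Fin n → ℝ) × ℝ → ℝ)
    (x v : Fin n → ℝ) (t : ℝ) : ℝ := 1 / 2 * (∑ i, ∑ j, A i j * v i * v j) + f (x, t)

theorem dv_lag {n : ℕ} (A : Matrix (Fin n) (Fin n) ℝ) (hA : A.IsSymm)
    (f : (Fin n → ℝ) × ℝ → ℝ) (i : Fin n) (x v : Fin n → ℝ) (t : ℝ) :
    dv (lag A f) i x v t = ∑ j, A i j * v j := by
  unfold dv lag
  have hu : ∀ j, HasDerivAt (fun s => Function.update v i s j) (if j = i then 1 else 0) (v i) := by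
    intro j
    by_cases h : j = i
    · subst h
      simp only [Function.update_self, if_true]
      exact hasDerivAt_id _
    · simp only [Function.update_of_ne h, if_neg h]
      exact hasDerivAt_const _ _
  have h1 : HasDerivAt (fun s => ∑ k, ∑ j, A k j * Function.update v i s k *
      Function.update v i s j) (∑ k, ∑ j, ((A k j * (if k = i then 1 else 0)) * v j +
        A k j * v k * (if j = i then 1 else 0))) (v i) := by
    refine HasDerivAt.fun_sum fun k _ => HasDerivAt.fun_sum fun j _ => ?_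
    have := ((hu k).const_mul (A k j)).mul (hu j)
    simp only [Function.update_eq_self] at this
    exact this
  have h2 : (∑ k, ∑ j, ((A k j * (if k = i then 1 else 0)) * v j +
      A k j * v k * (if j = i then 1 else 0))) = 2 * ∑ j, A i j * v j := by
    simp only [Finset.sum_add_distrib, mul_ite, mul_one, mul_zero, ite_mul, zero_mul]
    have e1 : ∑ k, ∑ j, (if k = i then A k j * v j else 0) = ∑ j, A i j * v j := by
      rw [Finset.sum_eq_single i]
      · simp
      · intro b _ hb
        simp [hb]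
      · simp
    have e2 : ∑ k, ∑ j, (if j = i then A k j * v k else 0) = ∑ j, A i j * v j := by
      refine Finset.sum_congr rfl fun k _ => ?_
      rw [Finset.sum_ite_eq' Finset.univ i, if_pos (Finset.mem_univ i)]
      rw [hA.apply]
    rw [e1, e2]
    ring
  have h3 := (h1.const_mul (1 / 2)).add_const (f (x, t))
  rw [h3.deriv, h2]
  ring

theorem dx_lag {n : ℕ} (A : Matrix (Fin n) (Fin n) ℝ) (f : (Fin n → ℝ) × ℝ → ℝ)
    (hf : Differentiable ℝ f) (i : Fin n) (x v : Fin n → ℝ) (t : ℝ) :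
    dx (lag A f) i x v t = fderiv ℝ f (x, t) (Pi.single i 1, 0) := by
  unfold dx lag
  have h1 : HasDerivAt (fun s => (Function.update x i s, t)) (Pi.single i (1 : ℝ), (0 : ℝ))
      (x i) := (hasDerivAt_update x i (x i)).prodMk (hasDerivAt_const _ _)
  have h2 : HasDerivAt (fun s => f (Function.update x i s, t))
      (fderiv ℝ f (x, t) (Pi.single i 1, 0)) (x i) := by
    have h3 : HasFDerivAt f (fderiv ℝ f (x, t)) (Function.update x i (x i), t) := by
      rw [Function.update_eq_self]
      exact (hf _).hasFDerivAt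
    exact HasFDerivAt.comp_hasDerivAt (x i) h3 h1
  exact (h2.const_add _).deriv

/-- a curve with `A γ'' = ∂f/∂x` satisfies the Euler-Lagrange equations -/
theorem orbit_of_sol {m : ℕ} (A : Matrix (Fin (m + 1)) (Fin (m + 1)) ℝ) (hA : A.IsSymm)
    (f : E m → ℝ) (hf : Differentiable ℝ f) (γ : ℝ → Q m) (h : Sol A f γ univ) :
    (∀ t, DifferentiableAt ℝ γ t) ∧ ∀ (t : ℝ) (i : Fin (m + 1)),
      HasDerivAt (fun s => dv (lag A f) i (γ s) (deriv γ s) s)
        (dx (lag A f) i (γ t) (deriv γ t) t) t := by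
  have h1 : ∀ t, DifferentiableAt ℝ γ t := fun t =>
    differentiableAt_pi.2 (h t (mem_univ t)).1
  have h2 : ∀ t i, deriv γ t i = deriv (fun u => γ u i) t := by
    intro t i
    have := (hasDerivAt_pi.1 (h1 t).hasDerivAt) i
    exact this.deriv.symm
  refine ⟨h1, fun t i => ?_⟩
  have e1 : (fun s => dv (lag A f) i (γ s) (deriv γ s) s) =
      fun s => ∑ j, A i j * deriv (fun u => γ u j) s := by
    funext s
    rw [dv_lag A hA]
    exact Finset.sum_congr rfl fun j _ => by rw [h2]
  have e2 : dx (lag A f) i (γ t) (deriv γ t) t =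
      ∑ j, A i j * deriv (deriv fun u => γ u j) t := by
    rw [dx_lag A f hf, (h t (mem_univ t)).2.2 i]
    rfl
  rw [e1, e2]
  exact HasDerivAt.fun_sum fun j _ =>
    ((h t (mem_univ t)).2.1 j).hasDerivAt.const_mul _

/-- the second derivative in terms of `iteratedFDeriv` -/
theorem small_iter {m : ℕ} {F : E m → ℝ} {ε : ℝ} (h : Small F ε) (p : E m) (j : ℕ) (hj : j ≤ 2) :
    ‖iteratedFDeriv ℝ j F p‖ ≤ ε := by
  interval_cases j
  · rw [norm_iteratedFDeriv_zero]
    exact (h p).1
  · rw [norm_iteratedFDeriv_one]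
    exact (h p).2.1
  · rw [← norm_iteratedFDeriv_fderiv, norm_iteratedFDeriv_one]
    exact (h p).2.2

end Pool.Agent.Helper6K9.ES
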