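import Pool.Agent.Helper6K9.ES.Tug

/-! # Different passes of the tube are disjoint -/

set_option autoImplicit false

namespace Pool.Agent.Helper6K9.ES

open Set Filter Topology
open scoped ContDiff

namespace DisL

theorem two_mul_le_sin {d : ℝ} (h0 : |d| ≤ 1 / 2) : 2 * |d| ≤ |Real.sin (Real.pi * d)| := by
  have key : ∀ x : ℝ, 0 ≤ x → x ≤ 1 / 2 → 2 * x ≤ Real.sin (Real.pi * x) := by
    intro x hx hx2
    have h1 := Real.mul_le_sin (x := Real.pi * x) (by positivity) (by nlinarith [Real.pi_pos])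
    have h2 : 2 / Real.pi * (Real.pi * x) = 2 * x := by
      have := Real.pi_pos
      field_simp
    rw [h2] at h1
    exact h1
  rcases le_total 0 d with hd | hd
  · rw [abs_of_nonneg hd] at h0 ⊢
    exact (key d hd h0).trans (le_abs_self _)
  · rw [abs_of_nonpos hd] at h0 ⊢
    have := key (-d) (by linarith) h0
    rw [mul_neg Real.pi, Real.sin_neg] at this
    exact this.trans (neg_le_abs _)

/-- the distance to the nearest integer -/
theorem exists_int (d : ℝ) : ∃ a : ℤ, 2 * |d - a| ≤ |Real.sin (Real.pi * d)| := by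
  refine ⟨round d, ?_⟩
  have h1 : |d - round d| ≤ 1 / 2 := abs_sub_round d
  refine (two_mul_le_sin h1).trans (le_of_eq ?_)
  have h2 : Real.pi * (d - round d) = Real.pi * d - round d * Real.pi := by ring
  rw [h2, Real.sin_sub_int_mul_pi]
  rw [abs_mul]
  have h3 : |((-1 : ℝ) ^ (round d : ℤ))| = 1 := by
    rw [abs_zpow]
    simp
  rw [h3, one_mul]

theorem abs_sin_sub (a b : ℝ) : |Real.sin (a - b)| ≤ |Real.sin a| + |Real.sin b| := by
  rw [Real.sin_sub]
  refine (abs_sub _ _).trans (add_le_add ?_ ?_)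
  · rw [abs_mul]
    exact mul_le_of_le_one_right (abs_nonneg _) (Real.abs_cos_le_one _)
  · rw [abs_mul]
    exact mul_le_of_le_one_left (abs_nonneg _) (Real.abs_cos_le_one _)

theorem th0_cont (i : ℕ) {t : ℝ} (ht : 0 < t) : ContinuousAt (th0 i) t := by
  unfold th0
  split_ifs
  · exact continuousAt_const.mul (Real.continuousAt_rpow_const _ _ (Or.inl ht.ne'))
  · exact continuousAt_const.mul (Real.continuousAt_rpow_const _ _ (Or.inl ht.ne'))
  · exact continuousAt_const.mul (Real.continuousAt_rpow_const _ _ (Or.inl ht.ne'))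
  · exact continuousAt_const.mul (Real.continuousAt_rpow_const _ _ (Or.inl ht.ne'))
  · exact continuousAt_const

/-- outside of the tube -/
theorem tub_zero {m : ℕ} {X : ℝ → Q m} {R : Fin (m + 1) → ℝ → ℝ} {p : E m} {l : Fin m}
    (hc : ContinuousAt (fun t => X t l.succ) p.2) (hp : 0 < p.2)
    (h : 1 / 64 < |p.2 ^ (7 / 20 : ℝ) * Real.sin (Real.pi * (p.1 l.succ - X p.2 l.succ))|) :
    tub X R =ᶠ[𝓝 p] 0 := by
  have h1 : ContinuousAt (fun p : E m =>
      |p.2 ^ (7 / 20 : ℝ) * Real.sin (Real.pi * (p.1 l.succ - X p.2 l.succ))|) p := by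
    have e1 : ContinuousAt (fun p : E m => p.2 ^ (7 / 20 : ℝ)) p :=
      ContinuousAt.comp (g := fun t : ℝ => t ^ (7 / 20 : ℝ)) (f := fun p : E m => p.2)
        (Real.continuousAt_rpow_const _ _ (Or.inl hp.ne')) continuousAt_snd
    have e2 : ContinuousAt (fun p : E m => X p.2 l.succ) p :=
      ContinuousAt.comp (g := fun t => X t l.succ) (f := fun p : E m => p.2) hc continuousAt_snd
    have e3 : ContinuousAt (fun p : E m => p.1 l.succ) p := by fun_prop
    exact (e1.mul (Real.continuous_sin.continuousAt.comp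
      (continuousAt_const.mul (e3.sub e2)))).abs
  filter_upwards [h1.eventually (lt_mem_nhds h)] with q hq
  show tub X R q = 0
  unfold tub
  rw [Finset.prod_eq_zero (Finset.mem_univ l) (TugL.bmp_zero hq.le), zero_mul]

end DisL

open DisL in
theorem dis : S_SEP → S_DIS := by
  rintro ⟨T₀, hT₀, hsep⟩ m hm X R hX
  have hC : ∀ i, ∃ C : ℝ, 0 ≤ C ∧ ∀ t : ℝ, 1 ≤ t → |X t i - th m t i| ≤ C * t ^ (-1 / 2 : ℝ) := by
    intro i
    obtain ⟨C, hC⟩ := hX i 0
    refine ⟨|C|, abs_nonneg _, fun t ht => (hC t ht).trans ?_⟩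
    exact mul_le_mul_of_nonneg_right (le_abs_self C) (Real.rpow_nonneg (by linarith) _)
  choose C hC0 hC using hC
  have hcX : ∀ i, ∀ t : ℝ, 0 < t → ContinuousAt (fun t => X t i) t := by
    intro i t ht
    have h1 : DifferentiableOn ℝ (fun t => X t i - th m t i) (Ioi 0) := (hX i 1).2.1
    have h2 : ContinuousAt (fun t => X t i - th m t i) t :=
      (h1.differentiableAt (Ioi_mem_nhds ht)).continuousAt
    have h3 : ContinuousAt (fun t => th m t i) t := th0_cont i ht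
    have h4 := h2.add h3
    have h5 : ((fun t => X t i - th m t i) + fun t => th m t i) = fun t => X t i := by
      funext s
      simp
    rwa [h5] at h4
  obtain ⟨D, hD⟩ : ∃ D, D = ∑ i, C i := ⟨_, rfl⟩
  have hCD : ∀ i, C i ≤ D := by
    intro i
    rw [hD]
    exact Finset.single_le_sum (fun j _ => hC0 j) (Finset.mem_univ i)
  have hD0 : 0 ≤ D := by
    rw [hD]
    exact Finset.sum_nonneg fun j _ => hC0 j
  -- the time from which on the remainder is small
  obtain ⟨T₂, hT₂⟩ : ∃ T₂ : ℝ, ∀ t, T₂ ≤ t → 2 * D * t ^ (-1 / 2 : ℝ) ≤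
      1 / 64 * t ^ (-7 / 20 : ℝ) := by
    have h1 : Tendsto (fun t : ℝ => t ^ (-(3 / 20) : ℝ)) atTop (𝓝 0) :=
      tendsto_rpow_neg_atTop (by norm_num)
    have h2 : Tendsto (fun t : ℝ => 2 * D * t ^ (-(3 / 20) : ℝ)) atTop (𝓝 (2 * D * 0)) :=
      h1.const_mul _
    rw [mul_zero] at h2
    have h3 : ∀ᶠ t : ℝ in atTop, 2 * D * t ^ (-(3 / 20) : ℝ) < 1 / 64 :=
      h2.eventually (gt_mem_nhds (by norm_num))
    obtain ⟨T, hT⟩ := (h3.and (eventually_ge_atTop (1 : ℝ))).exists_forall_of_atTop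
    refine ⟨T, fun t ht => ?_⟩
    obtain ⟨h4, h5⟩ := hT t ht
    have h6 : t ^ (-1 / 2 : ℝ) = t ^ (-(3 / 20) : ℝ) * t ^ (-7 / 20 : ℝ) := by
      rw [← Real.rpow_add (by linarith)]
      norm_num
    rw [h6, ← mul_assoc]
    exact mul_le_mul_of_nonneg_right h4.le (Real.rpow_nonneg (by linarith) _)
  refine ⟨max T₀ (max T₂ 1), le_max_of_le_right (le_max_right _ _), fun p hp k hk => ?_⟩
  obtain ⟨τ, hτ⟩ : ∃ τ, τ = p.2 := ⟨_, rfl⟩
  rw [← hτ] at hp ⊢
  have hτ0 : T₀ ≤ τ := (le_max_left _ _).trans hp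
  have hτ2 : T₂ ≤ τ := (le_max_of_le_right (le_max_left _ _)).trans hp
  have hτ1 : 1 ≤ τ := (le_max_of_le_right (le_max_right _ _)).trans hp
  have hk1 : (1 : ℝ) ≤ k := by exact_mod_cast hk
  obtain ⟨i, hi, hsepi⟩ := hsep τ hτ0 k hk
  obtain ⟨l, hl⟩ : ∃ l : Fin m, (l.succ : ℕ) = i :=
    ⟨⟨i - 1, by omega⟩, by simp only [Fin.succ_mk]; omega⟩
  by_contra hcon
  push Not at hcon
  obtain ⟨hc1, hc2⟩ := hcon
  have h1 : |τ ^ (7 / 20 : ℝ) * Real.sin (Real.pi * (p.1 l.succ - X τ l.succ))| ≤ 1 / 64 := by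
    by_contra h
    push Not at h
    rw [hτ] at h
    exact hc1 (tub_zero (hcX _ _ (by rw [← hτ]; linarith)) (by rw [← hτ]; linarith) h)
  have h2 : |(τ + k) ^ (7 / 20 : ℝ) * Real.sin (Real.pi * (p.1 l.succ - X (τ + k) l.succ))| ≤
      1 / 64 := by
    by_contra h
    push Not at h
    exact hc2 (tub_zero (p := (p.1, τ + k)) (hcX _ _ (by simp only; linarith))
      (by simp only; linarith) h)
  have hpow : ∀ s : ℝ, 0 < s → ∀ y : ℝ, |s ^ (7 / 20 : ℝ) * y| ≤ 1 / 64 →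
      |y| ≤ 1 / 64 * s ^ (-7 / 20 : ℝ) := by
    intro s hs y hy
    rw [abs_mul, abs_of_pos (Real.rpow_pos_of_pos hs _)] at hy
    have e1 : s ^ (-7 / 20 : ℝ) = (s ^ (7 / 20 : ℝ))⁻¹ := by
      rw [← Real.rpow_neg hs.le]
      norm_num
    rw [e1, ← div_eq_mul_inv, le_div_iff₀ (Real.rpow_pos_of_pos hs _), mul_comm]
    exact hy
  have h3 := hpow τ (by linarith) _ h1
  have h4 := hpow (τ + k) (by linarith) _ h2
  have hmono : ∀ a : ℝ, a ≤ 0 → (τ + k) ^ a ≤ τ ^ a := fun a ha =>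
    Real.rpow_le_rpow_of_nonpos (by linarith) (by linarith) ha
  have h5 := abs_sin_sub (Real.pi * (p.1 l.succ - X τ l.succ))
    (Real.pi * (p.1 l.succ - X (τ + k) l.succ))
  have h6 : Real.pi * (p.1 l.succ - X τ l.succ) - Real.pi * (p.1 l.succ - X (τ + k) l.succ) =
      Real.pi * (X (τ + k) l.succ - X τ l.succ) := by ring
  rw [h6] at h5
  obtain ⟨a, ha⟩ := exists_int (X (τ + k) l.succ - X τ l.succ)
  have h7 := hsepi a
  have h8 : |th0 i (τ + k) - th0 i τ - a| ≤ |X (τ + k) l.succ - X τ l.succ - a| +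
      (D * (τ + k) ^ (-1 / 2 : ℝ) + D * τ ^ (-1 / 2 : ℝ)) := by
    have e1 := hC l.succ (τ + k) (by linarith)
    have e2 := hC l.succ τ hτ1
    have e3 : C l.succ * (τ + k) ^ (-1 / 2 : ℝ) ≤ D * (τ + k) ^ (-1 / 2 : ℝ) :=
      mul_le_mul_of_nonneg_right (hCD _) (Real.rpow_nonneg (by linarith) _)
    have e4 : C l.succ * τ ^ (-1 / 2 : ℝ) ≤ D * τ ^ (-1 / 2 : ℝ) :=
      mul_le_mul_of_nonneg_right (hCD _) (Real.rpow_nonneg (by linarith) _)
    have e5 : ∀ t, th m t l.succ = th0 i t := fun t => by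
      unfold th
      rw [hl]
    rw [e5] at e1 e2
    have e6 : th0 i (τ + k) - th0 i τ - a = (X (τ + k) l.succ - X τ l.succ - a) -
        ((X (τ + k) l.succ - th0 i (τ + k)) - (X τ l.succ - th0 i τ)) := by ring
    rw [e6]
    refine (abs_sub _ _).trans ?_
    have e7 := abs_sub (X (τ + k) l.succ - th0 i (τ + k)) (X τ l.succ - th0 i τ)
    linarith
  have h9 := hT₂ τ hτ2
  have h10 : D * (τ + k) ^ (-1 / 2 : ℝ) ≤ D * τ ^ (-1 / 2 : ℝ) :=
    mul_le_mul_of_nonneg_left (hmono _ (by norm_num)) hD0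
  have h11 := hmono (-7 / 20) (by norm_num)
  have h12 : 0 < τ ^ (-7 / 20 : ℝ) := Real.rpow_pos_of_pos (by linarith) _
  linarith

end Pool.Agent.Helper6K9.ES
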