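import Pool.Agent.Helper6K9.ES.Stm

set_option autoImplicit false

/-!
# Orbits which escape to infinity on flat tori: smoothing
-/

namespace Pool.Agent.Helper6K9.ES

open Set Filter Topology MeasureTheory
open scoped ContDiff Convolution

namespace MolL

/-- periodicity of vector valued functions -/
def PerV {m : ℕ} {β : Type*} (g : E m → β) : Prop :=
  ∀ (p : E m) (k : Fin (m + 1) → ℤ) (l : ℤ), g (p.1 + (fun i => (k i : ℝ)), p.2 + l) = g p

variable {m : ℕ} {β : Type*} [NormedAddCommGroup β]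

/-- translation into the unit cube -/
theorem exists_cube (p : E m) : ∃ (k : Fin (m + 1) → ℤ) (l : ℤ),
    ((p.1 + (fun i => (k i : ℝ)), p.2 + l) : E m) ∈ Icc (0 : E m) 1 := by
  refine ⟨fun i => -⌊p.1 i⌋, -⌊p.2⌋, ⟨fun i => ?_, ?_⟩, ⟨fun i => ?_, ?_⟩⟩
  · change (0 : ℝ) ≤ p.1 i + ((-⌊p.1 i⌋ : ℤ) : ℝ)
    push_cast
    linarith [Int.floor_le (p.1 i)]
  · change (0 : ℝ) ≤ p.2 + ((-⌊p.2⌋ : ℤ) : ℝ)
    push_cast
    linarith [Int.floor_le p.2]
  · change p.1 i + ((-⌊p.1 i⌋ : ℤ) : ℝ) ≤ 1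
    push_cast
    linarith [(Int.lt_floor_add_one (p.1 i)).le]
  · change p.2 + ((-⌊p.2⌋ : ℤ) : ℝ) ≤ 1
    push_cast
    linarith [(Int.lt_floor_add_one p.2).le]

/-- continuous periodic functions are bounded -/
theorem bdd_per (g : E m → β) (hg : Continuous g) (hp : PerV g) :
    ∃ C : ℝ, 0 ≤ C ∧ ∀ p, ‖g p‖ ≤ C := by
  have hK : IsCompact (Icc (0 : E m) 1) := isCompact_Icc
  obtain ⟨C, hC⟩ := hK.exists_bound_of_continuousOn hg.continuousOn
  refine ⟨max C 0, le_max_right _ _, fun p => ?_⟩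
  obtain ⟨k, l, h1⟩ := exists_cube p
  rw [← hp p k l]
  exact (hC _ h1).trans (le_max_left _ _)

/-- continuous periodic functions are uniformly continuous -/
theorem uc_per (g : E m → β) (hg : Continuous g) (hp : PerV g) (ε : ℝ) (hε : 0 < ε) :
    ∃ δ : ℝ, 0 < δ ∧ ∀ p q : E m, dist p q < δ → dist (g p) (g q) ≤ ε := by
  have hK : IsCompact (Icc (-1 : E m) 2) := isCompact_Icc
  have hu := hK.uniformContinuousOn_of_continuous hg.continuousOn
  rw [Metric.uniformContinuousOn_iff] at hu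
  obtain ⟨δ, hδ, h⟩ := hu ε hε
  refine ⟨min δ 1, lt_min hδ one_pos, fun p q hpq => ?_⟩
  obtain ⟨k, l, h1⟩ := exists_cube p
  rw [← hp p k l, ← hp q k l]
  have h2 : dist ((p.1 + (fun i => (k i : ℝ)), p.2 + l) : E m) (q.1 + (fun i => (k i : ℝ)), q.2 + l)
      = dist p q := by
    rw [Prod.dist_eq, Prod.dist_eq]
    simp only [dist_add_right]
  have h3 : dist ((p.1 + (fun i => (k i : ℝ)), p.2 + l) : E m)
      (q.1 + (fun i => (k i : ℝ)), q.2 + l) < 1 := by
    rw [h2]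
    exact lt_of_lt_of_le hpq (min_le_right _ _)
  refine (h _ ?_ _ ?_ ?_).le
  · refine ⟨le_trans ?_ h1.1, h1.2.trans ?_⟩
    · exact ⟨fun i => by simp, by simp⟩
    · exact ⟨fun i => by simp, by simp⟩
  · rw [Prod.dist_eq, max_lt_iff, dist_pi_lt_iff one_pos] at h3
    obtain ⟨h4, h5⟩ := h3
    rw [Real.dist_eq, abs_lt] at h5
    obtain ⟨⟨h6, h7⟩, ⟨h8, h9⟩⟩ := h1
    refine ⟨⟨fun i => ?_, ?_⟩, ⟨fun i => ?_, ?_⟩⟩
    · have h10 := h4 i
      rw [Real.dist_eq, abs_lt] at h10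
      have h11 : (0 : ℝ) ≤ p.1 i + (k i : ℝ) := h6 i
      change (-1 : ℝ) ≤ q.1 i + (k i : ℝ)
      have h12 : (p.1 i + (k i : ℝ)) - (q.1 i + (k i : ℝ)) < 1 := h10.2
      linarith
    · change (-1 : ℝ) ≤ q.2 + (l : ℝ)
      have h11 : (0 : ℝ) ≤ p.2 + (l : ℝ) := h7
      have h12 : (p.2 + (l : ℝ)) - (q.2 + (l : ℝ)) < 1 := h5.2
      linarith
    · have h10 := h4 i
      rw [Real.dist_eq, abs_lt] at h10
      have h11 : p.1 i + (k i : ℝ) ≤ 1 := h8 i
      change q.1 i + (k i : ℝ) ≤ 2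
      have h12 : -1 < (p.1 i + (k i : ℝ)) - (q.1 i + (k i : ℝ)) := h10.1
      linarith
    · change q.2 + (l : ℝ) ≤ 2
      have h11 : p.2 + (l : ℝ) ≤ 1 := h9
      have h12 : -1 < (p.2 + (l : ℝ)) - (q.2 + (l : ℝ)) := h5.1
      linarith
  · rw [h2]
    exact lt_of_lt_of_le hpq (min_le_left _ _)

instance : (volume : Measure (E m)).IsAddHaarMeasure :=
  inferInstanceAs ((volume : Measure (Q m)).prod (volume : Measure ℝ)).IsAddHaarMeasure

variable [NormedSpace ℝ β]

/-- derivatives of periodic functions are periodic -/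
theorem per_fderiv (g : E m → β) (hp : PerV g) : PerV (fderiv ℝ g) := by
  intro p k l
  have h1 : (fun q : E m => g (q + ((fun i => (k i : ℝ)), (l : ℝ)))) = g := by
    ext q
    exact hp q k l
  have h2 := fderiv_comp_add_right (𝕜 := ℝ) (f := g) (x := p) ((fun i => (k i : ℝ)), (l : ℝ))
  rw [h1] at h2
  exact h2.symm

/-- the mollification -/
noncomputable def mo (φ : ContDiffBump (0 : E m)) (g : E m → β) (x : E m) : β :=
  ∫ t, φ.normed volume t • g (x - t)

theorem mo_eq (φ : ContDiffBump (0 : E m)) (g : E m → β) :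
    mo φ g = (φ.normed volume ⋆[ContinuousLinearMap.lsmul ℝ ℝ, volume] g) := by
  ext x
  rfl

theorem mo_per (φ : ContDiffBump (0 : E m)) (g : E m → β) (hp : PerV g) : PerV (mo φ g) := by
  intro p k l
  unfold mo
  congr 1
  ext t
  have h := hp (p - t) k l
  have h1 : ((p.1 + (fun i => (k i : ℝ)), p.2 + l) : E m) - t =
      ((p - t).1 + (fun i => (k i : ℝ)), (p - t).2 + l) := by
    ext i
    · change p.1 i + (k i : ℝ) - t.1 i = p.1 i - t.1 i + (k i : ℝ)
      ring
    · change p.2 + (l : ℝ) - t.2 = p.2 - t.2 + (l : ℝ)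
      ring
  rw [h1, h]

theorem mo_close [CompleteSpace β] (φ : ContDiffBump (0 : E m)) (g : E m → β) (hg : Continuous g)
    {ε : ℝ} (h : ∀ p q : E m, dist p q < φ.rOut → dist (g p) (g q) ≤ ε) (x : E m) :
    ‖mo φ g x - g x‖ ≤ ε := by
  rw [← dist_eq_norm, mo_eq]
  exact φ.dist_normed_convolution_le hg.aestronglyMeasurable fun y hy => h y x hy

theorem mo_smooth (φ : ContDiffBump (0 : E m)) (g : E m → ℝ) (hg : Continuous g) :
    ContDiff ℝ ∞ (mo φ g) := by
  rw [mo_eq]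
  exact φ.hasCompactSupport_normed.contDiff_convolution_left _ φ.contDiff_normed
    hg.locallyIntegrable

theorem mo_hasFDerivAt [CompleteSpace β] (φ : ContDiffBump (0 : E m)) (g : E m → β)
    (hg : ContDiff ℝ 1 g) (hp : PerV g) (x : E m) :
    HasFDerivAt (mo φ g) (mo φ (fderiv ℝ g) x) x := by
  obtain ⟨C, hC0, hC⟩ := bdd_per (fderiv ℝ g) (hg.continuous_fderiv (by norm_num))
    (per_fderiv g hp)
  have hφc : Continuous (φ.normed (volume : Measure (E m))) := φ.continuous_normed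
  have hcs : HasCompactSupport (φ.normed (volume : Measure (E m))) := φ.hasCompactSupport_normed
  have hgc : Continuous g := hg.continuous
  have hgc' : Continuous (fderiv ℝ g) := hg.continuous_fderiv (by norm_num)
  unfold mo
  refine hasFDerivAt_integral_of_dominated_of_fderiv_le (𝕜 := ℝ) (s := univ)
    (F := fun x t => φ.normed volume t • g (x - t))
    (F' := fun x t => φ.normed volume t • fderiv ℝ g (x - t))
    (bound := fun t => φ.normed volume t * C) univ_mem ?_ ?_ ?_ ?_ ?_ ?_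
  · refine Eventually.of_forall fun y => ?_
    exact (hφc.smul (hgc.comp (continuous_const.sub continuous_id))).aestronglyMeasurable
  · exact (hφc.smul (hgc.comp (continuous_const.sub continuous_id))).integrable_of_hasCompactSupport
      hcs.smul_right
  · exact (hφc.smul (hgc'.comp (continuous_const.sub continuous_id))).aestronglyMeasurable
  · refine Eventually.of_forall fun t y _ => ?_
    rw [norm_smul, Real.norm_of_nonneg (φ.nonneg_normed t)]
    exact mul_le_mul_of_nonneg_left (hC _) (φ.nonneg_normed t)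
  · exact φ.integrable_normed.mul_const C
  · refine Eventually.of_forall fun t y _ => ?_
    refine HasFDerivAt.const_smul ?_ _
    have h1 := ((hg.differentiable (by norm_num)) (y - t)).hasFDerivAt.comp y
      ((hasFDerivAt_id y).sub_const t)
    exact h1

end MolL

open MolL in
theorem mol : S_MOL := by
  intro m f ε hε hf hp
  have hf1 : ContDiff ℝ 1 (fderiv ℝ f) := hf.fderiv_right (by norm_num)
  have hf1' : ContDiff ℝ 1 f := hf.of_le (by norm_num)
  have hp0 : PerV f := hp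
  have hp1 : PerV (fderiv ℝ f) := per_fderiv f hp0
  have hp2 : PerV (fderiv ℝ (fderiv ℝ f)) := per_fderiv _ hp1
  have hc0 : Continuous f := hf.continuous
  have hc1 : Continuous (fderiv ℝ f) := hf1.continuous
  have hc2 : Continuous (fderiv ℝ (fderiv ℝ f)) := hf1.continuous_fderiv (by norm_num)
  obtain ⟨δ0, hδ0, h0⟩ := uc_per f hc0 hp0 ε hε
  obtain ⟨δ1, hδ1, h1⟩ := uc_per _ hc1 hp1 ε hε
  obtain ⟨δ2, hδ2, h2⟩ := uc_per _ hc2 hp2 ε hε
  set δ : ℝ := min δ0 (min δ1 δ2) with hδ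
  have hδpos : 0 < δ := lt_min hδ0 (lt_min hδ1 hδ2)
  let φ : ContDiffBump (0 : E m) := ⟨δ / 2, δ, half_pos hδpos, half_lt_self hδpos⟩
  have hd1 : fderiv ℝ (mo φ f) = mo φ (fderiv ℝ f) := by
    ext1 x
    exact (mo_hasFDerivAt φ f hf1' hp0 x).fderiv
  have hd2 : fderiv ℝ (mo φ (fderiv ℝ f)) = mo φ (fderiv ℝ (fderiv ℝ f)) := by
    ext1 x
    exact (mo_hasFDerivAt φ _ hf1 hp1 x).fderiv
  have hD0 : Differentiable ℝ (mo φ f) := fun x =>
    (mo_hasFDerivAt φ f hf1' hp0 x).differentiableAt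
  have hD1 : Differentiable ℝ (mo φ (fderiv ℝ f)) := fun x =>
    (mo_hasFDerivAt φ _ hf1 hp1 x).differentiableAt
  have e1 : fderiv ℝ (fun p => mo φ f p - f p) = fun p => mo φ (fderiv ℝ f) p - fderiv ℝ f p := by
    ext1 x
    rw [fderiv_fun_sub (hD0 x) ((hf1'.differentiable (by norm_num)) x), hd1]
  have e2 : fderiv ℝ (fderiv ℝ (fun p => mo φ f p - f p)) =
      fun p => mo φ (fderiv ℝ (fderiv ℝ f)) p - fderiv ℝ (fderiv ℝ f) p := by
    rw [e1]
    ext1 x
    rw [fderiv_fun_sub (hD1 x) ((hf1.differentiable (by norm_num)) x), hd2]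
  refine ⟨mo φ f, ⟨mo_smooth φ f hc0, mo_per φ f hp0⟩, fun p => ⟨?_, ?_, ?_⟩⟩
  · rw [← Real.norm_eq_abs]
    exact mo_close φ f hc0 (fun p q hpq => h0 p q (lt_of_lt_of_le hpq (min_le_left _ _))) p
  · rw [e1]
    exact mo_close φ _ hc1 (fun p q hpq => h1 p q (lt_of_lt_of_le hpq
      ((min_le_right _ _).trans (min_le_left _ _)))) p
  · rw [e2]
    exact mo_close φ _ hc2 (fun p q hpq => h2 p q (lt_of_lt_of_le hpq
      ((min_le_right _ _).trans (min_le_right _ _)))) p

end Pool.Agent.Helper6K9.ES
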