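import Pool.Agent.Helper6K9.ES.Stm

set_option autoImplicit false

/-!
# Orbits which escape to infinity on flat tori: reduction to adapted coordinates
-/

namespace Pool.Agent.Helper6K9.ES

open Set Filter Topology
open scoped ContDiff

namespace RedL

variable {m : ℕ}

/-- `(x, t) ↦ (B x, t)` -/
noncomputable def lin (B : Matrix (Fin (m + 1)) (Fin (m + 1)) ℝ) : E m →L[ℝ] E m :=
  LinearMap.toContinuousLinearMap ((Matrix.toLin' B).prodMap LinearMap.id)

lemma lin_apply (B : Matrix (Fin (m + 1)) (Fin (m + 1)) ℝ) (p : E m) :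
    lin B p = (B.mulVec p.1, p.2) := by
  simp [lin]

lemma small_add {F G : E m → ℝ} {a b : ℝ} (hF : ContDiff ℝ 2 F) (hG : ContDiff ℝ 2 G)
    (h1 : Small F a) (h2 : Small G b) : Small (fun p => F p + G p) (a + b) := by
  have d1 : Differentiable ℝ F := hF.differentiable (by norm_num)
  have d2 : Differentiable ℝ G := hG.differentiable (by norm_num)
  have e1 : Differentiable ℝ (fderiv ℝ F) :=
    (hF.fderiv_right (m := 1) (by norm_num)).differentiable (by norm_num)
  have e2 : Differentiable ℝ (fderiv ℝ G) :=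
    (hG.fderiv_right (m := 1) (by norm_num)).differentiable (by norm_num)
  have e : fderiv ℝ (fun p => F p + G p) = fun p => fderiv ℝ F p + fderiv ℝ G p :=
    funext fun p => fderiv_fun_add (d1 p) (d2 p)
  intro p
  obtain ⟨u1, u2, u3⟩ := h1 p
  obtain ⟨v1, v2, v3⟩ := h2 p
  refine ⟨(abs_add_le _ _).trans (add_le_add u1 v1), ?_, ?_⟩
  · rw [e]
    exact (norm_add_le _ _).trans (add_le_add u2 v2)
  · rw [e, fderiv_fun_add (e1 p) (e2 p)]
    have := norm_add_le (fderiv ℝ (fderiv ℝ F) p) (fderiv ℝ (fderiv ℝ G) p)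
    exact this.trans (add_le_add u3 v3)

lemma fderiv_lin {F : E m → ℝ} (hF : Differentiable ℝ F)
    (B : Matrix (Fin (m + 1)) (Fin (m + 1)) ℝ) (p : E m) :
    fderiv ℝ (fun p => F (lin B p)) p = (fderiv ℝ F (lin B p)).comp (lin B) := by
  have := fderiv_comp p (hF (lin B p)) (lin B).differentiableAt
  rw [ContinuousLinearMap.fderiv] at this
  exact this

lemma small_lin {F : E m → ℝ} {a : ℝ} (hF : ContDiff ℝ 2 F) (h : Small F a)
    (B : Matrix (Fin (m + 1)) (Fin (m + 1)) ℝ) :
    Small (fun p => F (lin B p)) (a * (1 + ‖lin B‖) ^ 2) := by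
  have d1 : Differentiable ℝ F := hF.differentiable (by norm_num)
  have e1 : Differentiable ℝ (fderiv ℝ F) :=
    (hF.fderiv_right (m := 1) (by norm_num)).differentiable (by norm_num)
  have ha : 0 ≤ a := (abs_nonneg _).trans (h 0).1
  have hn : 0 ≤ ‖lin B‖ := norm_nonneg _
  intro p
  obtain ⟨u1, u2, u3⟩ := h (lin B p)
  refine ⟨u1.trans (le_mul_of_one_le_right ha (by nlinarith)), ?_, ?_⟩
  · rw [fderiv_lin d1]
    refine (ContinuousLinearMap.opNorm_comp_le _ _).trans ?_
    exact mul_le_mul u2 (by nlinarith) hn ha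
  · have e : fderiv ℝ (fun p => F (lin B p)) = fun p => (fderiv ℝ F (lin B p)).comp (lin B) :=
      funext fun p => fderiv_lin d1 B p
    rw [e]
    have hd : HasFDerivAt (fun p => (fderiv ℝ F (lin B p)))
        ((fderiv ℝ (fderiv ℝ F) (lin B p)).comp (lin B)) p :=
      (e1 (lin B p)).hasFDerivAt.comp p (lin B).hasFDerivAt
    have hd2 : HasFDerivAt (fun p => (fderiv ℝ F (lin B p)).comp (lin B))
        (((ContinuousLinearMap.compL ℝ (E m) (E m) ℝ).flip (lin B)).comp
          ((fderiv ℝ (fderiv ℝ F) (lin B p)).comp (lin B))) p :=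
      (((ContinuousLinearMap.compL ℝ (E m) (E m) ℝ).flip (lin B)).hasFDerivAt).comp p hd
    rw [hd2.fderiv]
    refine ContinuousLinearMap.opNorm_le_bound _ (by positivity) fun v => ?_
    have : (((ContinuousLinearMap.compL ℝ (E m) (E m) ℝ).flip (lin B)).comp
          ((fderiv ℝ (fderiv ℝ F) (lin B p)).comp (lin B))) v =
        (fderiv ℝ (fderiv ℝ F) (lin B p) (lin B v)).comp (lin B) := rfl
    rw [this]
    refine (ContinuousLinearMap.opNorm_comp_le _ _).trans ?_
    have h1 : ‖fderiv ℝ (fderiv ℝ F) (lin B p) (lin B v)‖ ≤ a * (‖lin B‖ * ‖v‖) :=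
      (ContinuousLinearMap.le_opNorm _ _).trans
        (mul_le_mul u3 (ContinuousLinearMap.le_opNorm _ _) (norm_nonneg _) ha)
    have h2 : ‖fderiv ℝ (fderiv ℝ F) (lin B p) (lin B v)‖ * ‖lin B‖ ≤
        a * (‖lin B‖ * ‖v‖) * ‖lin B‖ := mul_le_mul_of_nonneg_right h1 hn
    have h3 : a * (‖lin B‖ * ‖v‖) * ‖lin B‖ = a * ‖lin B‖ ^ 2 * ‖v‖ := by ring
    rw [h3] at h2
    refine h2.trans (mul_le_mul_of_nonneg_right (mul_le_mul_of_nonneg_left ?_ ha) (norm_nonneg _))
    nlinarith

/-- the integral unipotent matrix with first column `om m M` -/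
def SM (m M : ℕ) : Matrix (Fin (m + 1)) (Fin (m + 1)) ℤ :=
  fun i j => if j ≤ i then (M : ℤ) ^ ((i : ℕ) - (j : ℕ)) else 0

lemma SM_det (m M : ℕ) : (SM m M).det = 1 := by
  rw [Matrix.det_of_isLowerTriangular]
  · simp [SM]
  · intro i j hij
    have : ¬ j ≤ i := not_le.mpr (by simpa using hij)
    simp [SM, this]

lemma per_lin {F : E m → ℝ} (hF : Per F) (S : Matrix (Fin (m + 1)) (Fin (m + 1)) ℤ) :
    Per (fun p => F (lin (S.map (Int.cast : ℤ → ℝ)) p)) := by
  intro p k l
  have := hF (lin (S.map (Int.cast : ℤ → ℝ)) p) (S.mulVec k) l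
  simp only [lin_apply] at this ⊢
  rw [← this]
  congr 2
  rw [Matrix.mulVec_add]
  congr 1
  ext i
  simp [Matrix.mulVec, dotProduct]

lemma dX_lin {F : E m → ℝ} (hF : Differentiable ℝ F)
    (B : Matrix (Fin (m + 1)) (Fin (m + 1)) ℝ) (p : E m) (j : Fin (m + 1)) :
    dX j (fun p => F (lin B p)) p = ∑ i, B i j * dX i F (lin B p) := by
  unfold dX
  rw [fderiv_lin hF, ContinuousLinearMap.comp_apply, lin_apply B (Pi.single j 1, 0)]
  have h : ((B.mulVec (Pi.single j 1), (0 : ℝ)) : E m) =
      ∑ i, B i j • ((Pi.single i 1, 0) : E m) := by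
    rw [Prod.ext_iff]
    constructor
    · simp only [Prod.fst_sum, Prod.smul_mk]
      ext l
      simp [Finset.sum_apply, Pi.single_apply]
    · simp [Prod.snd_sum]
  rw [h, map_sum]
  exact Finset.sum_congr rfl fun i _ => by rw [map_smul, smul_eq_mul]

end RedL

open RedL in
theorem red : S_MOL → S_AVG → S_CT → S_FIN := by
  intro hmol havg hct m hm A f₀ ε hε hA hf₀ hper
  obtain ⟨h, hh, hsm⟩ := hmol m f₀ (ε / 3) (by positivity) hf₀ hper
  obtain ⟨M, h₂, hh₂, hsm₂, hav⟩ := havg m h (ε / 3) (by positivity) hh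
  set S : Matrix (Fin (m + 1)) (Fin (m + 1)) ℤ := SM m M with hS
  have hdet : IsUnit S.det := by rw [hS, SM_det]; exact isUnit_one
  set R : Matrix (Fin (m + 1)) (Fin (m + 1)) ℤ := S⁻¹ with hR
  have hSR : S * R = 1 := Matrix.mul_nonsing_inv S hdet
  have hRS : R * S = 1 := Matrix.nonsing_inv_mul S hdet
  set Sr : Matrix (Fin (m + 1)) (Fin (m + 1)) ℝ := S.map (Int.cast : ℤ → ℝ) with hSr
  set Rr : Matrix (Fin (m + 1)) (Fin (m + 1)) ℝ := R.map (Int.cast : ℤ → ℝ) with hRr
  have hSRr : Sr * Rr = 1 := by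
    have h1 : Sr * Rr = (S * R).map (Int.castRingHom ℝ) :=
      (Matrix.map_mul (L := S) (M := R) (f := Int.castRingHom ℝ)).symm
    rw [h1, hSR]
    exact Matrix.map_one _ (map_zero _) (map_one _)
  have hRSr : Rr * Sr = 1 := by
    have h1 : Rr * Sr = (R * S).map (Int.castRingHom ℝ) :=
      (Matrix.map_mul (L := R) (M := S) (f := Int.castRingHom ℝ)).symm
    rw [h1, hRS]
    exact Matrix.map_one _ (map_zero _) (map_one _)
  have hcancel : ∀ p : E m, lin Sr (lin Rr p) = p := by
    intro p
    simp [lin_apply, Matrix.mulVec_mulVec, hSRr]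
  have hcancel' : ∀ p : E m, lin Rr (lin Sr p) = p := by
    intro p
    simp [lin_apply, Matrix.mulVec_mulVec, hRSr]
  have hom : ∀ (p : E m) (s : ℝ), lin Sr (p.1 + s • Pi.single (0 : Fin (m + 1)) (1 : ℝ), p.2) =
      ((lin Sr p).1 + s • om m M, (lin Sr p).2) := by
    intro p s
    simp only [lin_apply]
    congr 1
    rw [Matrix.mulVec_add, Matrix.mulVec_smul]
    congr 2
    ext i
    simp [hSr, hS, SM, om, Matrix.mulVec_single]
  -- the function in the adapted coordinates
  obtain ⟨g', γ', hg', hgper, hgsm, hsol, c, hc, hgrow⟩ :=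
    hct m hm (Sr.transpose * A * Sr) (fun p => h₂ (lin Sr p))
      (ε / 3 / (1 + ‖lin Rr‖) ^ 2) (by positivity) (by
        have hinj : Function.Injective Sr.mulVec := by
          intro x y hxy
          have := congrArg Rr.mulVec hxy
          simpa [Matrix.mulVec_mulVec, hRSr] using this
        have := hA.conjTranspose_mul_mul_same hinj
        rwa [Matrix.conjTranspose_eq_transpose_of_trivial] at this)
      ⟨hh₂.1.comp (lin Sr).contDiff, per_lin hh₂.2 S⟩ (by
        intro p q hpq
        unfold av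
        have := hav (lin Sr p) (lin Sr q) (by simp [lin_apply, hpq])
        simp only [hom]
        exact this)
  have hgC : ContDiff ℝ 2 fun p => g' (lin Rr p) := hg'.comp (lin Rr).contDiff
  have hh₂C : ContDiff ℝ 2 h₂ := by exact_mod_cast contDiff_infty.mp hh₂.1 2
  have hhC : ContDiff ℝ 2 h := by exact_mod_cast contDiff_infty.mp hh.1 2
  set f : E m → ℝ := fun p => h₂ p + g' (lin Rr p) with hf
  have hfC : ContDiff ℝ 2 f := hh₂C.add hgC
  have hfd : Differentiable ℝ f := hfC.differentiable (by norm_num)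
  have hfS : (fun p => h₂ (lin Sr p) + g' p) = fun p => f (lin Sr p) := by
    funext p
    simp only [hf, hcancel']
  refine ⟨f, fun t => Sr.mulVec (γ' t), hfC, ?_, ?_, ?_, c, hc, ?_⟩
  · intro p k l
    have h1 := hh₂.2 p k l
    have h2 := per_lin hgper R p k l
    simp only [hf]
    rw [h1]
    congr 1
  · have h1 : Small (fun p => g' (lin Rr p)) (ε / 3) := by
      have := small_lin hg' hgsm Rr
      have e : ε / 3 / (1 + ‖lin Rr‖) ^ 2 * (1 + ‖lin Rr‖) ^ 2 = ε / 3 := by
        have : (1 + ‖lin Rr‖) ^ 2 ≠ 0 := by positivity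
        field_simp
      rwa [e] at this
    have h2 := small_add (hhC.sub hf₀) (hh₂C.sub hhC) hsm hsm₂
    have h3 := small_add ((hhC.sub hf₀).add (hh₂C.sub hhC)) hgC h2 h1
    have e1 : (fun p => f p - f₀ p) =
        fun p => h p - f₀ p + (h₂ p - h p) + g' (lin Rr p) := by
      funext p
      simp only [hf]
      ring
    have e2 : ε / 3 + ε / 3 + ε / 3 = ε := by ring
    rw [e1, ← e2]
    exact h3
  · -- the equation
    intro t _
    obtain ⟨s1, s2, s3⟩ := hsol t (mem_univ t)
    have hder : ∀ i, (deriv fun u => (Sr.mulVec (γ' u)) i) =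
        fun u => ∑ j, Sr i j * deriv (fun u => γ' u j) u := by
      intro i
      funext u
      have hs1 := (hsol u (mem_univ u)).1
      have : (fun u => (Sr.mulVec (γ' u)) i) = fun u => ∑ j, Sr i j * γ' u j := by
        funext v
        simp [Matrix.mulVec, dotProduct]
      rw [this]
      have hd : HasDerivAt (fun u => ∑ j, Sr i j * γ' u j)
          (∑ j, Sr i j * deriv (fun u => γ' u j) u) u :=
        HasDerivAt.fun_sum fun j _ => ((hs1 j).hasDerivAt).const_mul (Sr i j)
      exact hd.deriv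
    have hder2 : ∀ i, HasDerivAt (deriv fun u => (Sr.mulVec (γ' u)) i)
        (∑ j, Sr i j * deriv (deriv fun u => γ' u j) t) t := by
      intro i
      rw [hder]
      exact HasDerivAt.fun_sum fun j _ => ((s2 j).hasDerivAt).const_mul (Sr i j)
    refine ⟨fun i => ?_, fun i => (hder2 i).differentiableAt, ?_⟩
    · have : (fun u => (Sr.mulVec (γ' u)) i) = fun u => ∑ j, Sr i j * γ' u j := by
        funext v
        simp [Matrix.mulVec, dotProduct]
      rw [this]
      exact DifferentiableAt.fun_sum fun j _ => (s1 j).const_mul (Sr i j)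
    · -- vectors
      set a : Fin (m + 1) → ℝ := fun j => deriv (deriv fun u => γ' u j) t with ha
      set b : Fin (m + 1) → ℝ := fun i => dX i f (lin Sr (γ' t, t)) with hb
      have key : (Sr.transpose * A * Sr).mulVec a = Sr.transpose.mulVec b := by
        ext j
        have h3 := s3 j
        have h4 : dX j (fun p => h₂ (lin Sr p) + g' p) (γ' t, t) =
            ∑ i, Sr i j * dX i f (lin Sr (γ' t, t)) := by
          rw [hfS, dX_lin hfd]
        rw [h4] at h3
        simpa [Matrix.mulVec, dotProduct, Matrix.transpose_apply] using h3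
      have key2 : (A * Sr).mulVec a = b := by
        have := congrArg Rr.transpose.mulVec key
        rw [Matrix.mulVec_mulVec, Matrix.mulVec_mulVec] at this
        have e1 : Rr.transpose * Sr.transpose = 1 := by
          rw [← Matrix.transpose_mul, hSRr, Matrix.transpose_one]
        have e2 : Rr.transpose * (Sr.transpose * A * Sr) = A * Sr := by
          rw [Matrix.mul_assoc, ← Matrix.mul_assoc, e1, Matrix.one_mul]
        rw [e1, e2, Matrix.one_mulVec] at this
        exact this
      intro i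
      have h5 : (fun j => deriv (deriv fun u => (Sr.mulVec (γ' u)) j) t) = Sr.mulVec a := by
        ext j
        rw [(hder2 j).deriv]
        simp [Matrix.mulVec, dotProduct, ha]
      have h6 : ∑ j, A i j * deriv (deriv fun u => (Sr.mulVec (γ' u)) j) t =
          A.mulVec (Sr.mulVec a) i := by
        rw [← h5]
        simp [Matrix.mulVec, dotProduct]
      have h7 : (lin Sr (γ' t, t)) = (Sr.mulVec (γ' t), t) := lin_apply _ _
      rw [h6, Matrix.mulVec_mulVec, key2, hb, h7]
  · filter_upwards [hgrow] with t ht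
    refine ⟨0, ht.trans ?_⟩
    have : (fun s => (Sr.mulVec (γ' s)) 0) = fun s => γ' s 0 := by
      funext s
      have : ∀ j : Fin (m + 1), Sr 0 j = if j = 0 then 1 else 0 := by
        intro j
        by_cases hj : j = 0
        · subst hj
          simp [hSr, hS, SM]
        · have : ¬ j ≤ 0 := fun h => hj (le_antisymm h (Fin.zero_le j))
          simp [hSr, hS, SM, hj]
      simp [Matrix.mulVec, dotProduct, this]
    rw [this]
    exact le_abs_self _

end Pool.Agent.Helper6K9.ES
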