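import Pool.Agent.Helper6K9.ES.Stm

set_option autoImplicit false

/-!
# Removal of the average along a long closed geodesic
-/

namespace Pool.Agent.Helper6K9.ES

open Set Filter Topology MeasureTheory
open scoped ContDiff

namespace AvgL

variable {m : ℕ} {V : Type} [NormedAddCommGroup V] [NormedSpace ℝ V]

/-- periodic functions with values in `V` -/
def PerV (F : E m → V) : Prop :=
  ∀ (p : E m) (k : Fin (m + 1) → ℤ) (l : ℤ), F (p.1 + (fun i => (k i : ℝ)), p.2 + l) = F p

/-- the translation -/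
def tr (k : Fin (m + 1) → ℤ) (l : ℤ) : E m := ((fun i => (k i : ℝ)), (l : ℝ))

theorem PerV.add {F : E m → V} (h : PerV F) (p : E m) (k : Fin (m + 1) → ℤ) (l : ℤ) :
    F (p + tr k l) = F p := h p k l

theorem PerV.fderiv {F : E m → V} (h : PerV F) : PerV (fderiv ℝ F) := by
  intro p k l
  have h1 : F = fun q => F (q + tr k l) := funext fun q => (h.add q k l).symm
  have h2 : _root_.fderiv ℝ F p = _root_.fderiv ℝ F (p + tr k l) := by
    conv_lhs => rw [h1]
    exact fderiv_comp_add_right (tr k l)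
  exact h2.symm

theorem PerV.bdd {F : E m → V} (h : PerV F) (hc : Continuous F) : ∃ C : ℝ, 0 ≤ C ∧ ∀ p, ‖F p‖ ≤ C := by
  obtain ⟨C, hC⟩ := (isCompact_Icc (a := (0 : E m)) (b := (fun _ => 1, 1))).exists_bound_of_continuousOn
    hc.continuousOn
  refine ⟨max C 0, le_max_right _ _, fun p => ?_⟩
  have h1 := h (fun i => Int.fract (p.1 i), Int.fract p.2) (fun i => ⌊p.1 i⌋) ⌊p.2⌋
  have h2 : ((fun i => Int.fract (p.1 i)) + (fun i => (⌊p.1 i⌋ : ℝ)), Int.fract p.2 + (⌊p.2⌋ : ℝ)) = p := by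
    refine Prod.ext ?_ ?_
    · funext i
      exact Int.fract_add_floor _
    · exact Int.fract_add_floor _
  rw [h2] at h1
  rw [h1]
  refine (hC _ ⟨⟨fun i => Int.fract_nonneg _, Int.fract_nonneg _⟩,
    ⟨fun i => (Int.fract_lt_one _).le, (Int.fract_lt_one _).le⟩⟩).trans (le_max_left _ _)

/-- the average in the direction of `w` -/
noncomputable def avw (w : Q m) (F : E m → V) (p : E m) : V :=
  ∫ s in (0 : ℝ)..1, F (p + s • ((w, 0) : E m))

theorem cont_line (w : Q m) {F : E m → V} (hc : Continuous F) (p : E m) :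
    Continuous fun s : ℝ => F (p + s • ((w, 0) : E m)) := hc.comp (by fun_prop)

theorem avw_cont (w : Q m) {F : E m → V} (hc : Continuous F) : Continuous (avw w F) := by
  refine intervalIntegral.continuous_parametric_intervalIntegral_of_continuous' ?_ 0 1
  exact hc.comp (by fun_prop)

theorem avw_per (w : Q m) {F : E m → V} (h : PerV F) : PerV (avw w F) := by
  intro p k l
  refine intervalIntegral.integral_congr fun s _ => ?_
  show F (p + tr k l + s • ((w, 0) : E m)) = F (p + s • ((w, 0) : E m))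
  rw [add_right_comm]
  exact h.add _ k l

variable [CompleteSpace V]

theorem avw_deriv (w : Q m) {F : E m → V} (h : PerV F) (hc : ContDiff ℝ 1 F) (p : E m) :
    HasFDerivAt (avw w F) (avw w (fderiv ℝ F) p) p := by
  have hc' : Continuous (fderiv ℝ F) := hc.continuous_fderiv (by norm_num)
  obtain ⟨C, -, hC⟩ := h.fderiv.bdd hc'
  refine intervalIntegral.hasFDerivAt_integral_of_dominated_of_fderiv_le (𝕜 := ℝ) (s := univ)
    (F := fun (q : E m) (s : ℝ) => F (q + s • ((w, 0) : E m)))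
    (F' := fun (q : E m) (s : ℝ) => fderiv ℝ F (q + s • ((w, 0) : E m)))
    (bound := fun _ => C) univ_mem ?_ ?_ ?_ ?_ ?_ ?_
  · exact Eventually.of_forall fun q => (cont_line w hc.continuous q).aestronglyMeasurable
  · exact (cont_line w hc.continuous p).intervalIntegrable _ _
  · exact (cont_line w hc' p).aestronglyMeasurable
  · exact Eventually.of_forall fun s _ q _ => hC _
  · exact intervalIntegrable_const
  · refine Eventually.of_forall fun s _ q _ => ?_
    have h1 : HasFDerivAt (fun q : E m => q + s • ((w, 0) : E m))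
      (ContinuousLinearMap.id ℝ (E m)) q := (hasFDerivAt_id q).add_const _
    have h2 := ((hc.differentiable (by norm_num)) (q + s • ((w, 0) : E m))).hasFDerivAt.comp q h1
    rw [ContinuousLinearMap.comp_id] at h2
    exact h2

end AvgL

open AvgL in
theorem avw_contDiff {m : ℕ} (w : Q m) (n : ℕ) : ∀ {V : Type} [NormedAddCommGroup V]
    [NormedSpace ℝ V] [CompleteSpace V] {F : E m → V}, PerV F → ContDiff ℝ n F →
    ContDiff ℝ n (avw w F) := by
  induction n with
  | zero =>
    intro V _ _ _ F h hc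
    rw [Nat.cast_zero, contDiff_zero] at hc ⊢
    exact avw_cont w hc
  | succ n ih =>
    intro V _ _ _ F h hc
    have hc1 : ContDiff ℝ 1 F := hc.of_le (by push_cast; exact le_add_self)
    have hd := avw_deriv w h hc1
    have he : fderiv ℝ (avw w F) = avw w (fderiv ℝ F) := funext fun p => (hd p).fderiv
    rw [Nat.cast_succ] at hc ⊢
    rw [contDiff_succ_iff_fderiv] at hc ⊢
    refine ⟨fun p => (hd p).differentiableAt, fun h => ?_, ?_⟩
    · exact absurd h (by simp)
    · rw [he]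
      exact ih h.fderiv hc.2.2

namespace AvgL

variable {m : ℕ}

/-- the density of the geodesic -/
theorem dense_aux {M : ℕ} (hM : 2 ≤ M) (z : ℕ → ℝ) (n : ℕ) :
    ∃ (s : ℝ) (k : ℕ → ℤ), ∀ i j, i + j + 1 = n →
      |s * (M : ℝ) ^ i + k i - z i| ≤ 2 / M * (1 - (1 / 2) ^ j) := by
  have hM0 : (2 : ℝ) ≤ M := by exact_mod_cast hM
  induction n with
  | zero => exact ⟨0, 0, fun i j h => by omega⟩
  | succ n ih =>
    obtain ⟨s, k, h⟩ := ih
    have hMn : (0 : ℝ) < (M : ℝ) ^ n := by positivity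
    set f := Int.fract (s * (M : ℝ) ^ n - z n) with hf
    refine ⟨s - f / (M : ℝ) ^ n, Function.update k n (-⌊s * (M : ℝ) ^ n - z n⌋), ?_⟩
    intro i j hij
    rcases Nat.lt_or_ge i n with hi | hi
    · obtain ⟨j', rfl⟩ : ∃ j', j = j' + 1 := ⟨j - 1, by omega⟩
      have h1 := h i j' (by omega)
      rw [Function.update_of_ne hi.ne]
      have h2 : f / (M : ℝ) ^ n * (M : ℝ) ^ i = f * (1 / (M : ℝ) ^ (j' + 1)) := by
        have h3 : (M : ℝ) ^ n = (M : ℝ) ^ i * (M : ℝ) ^ (j' + 1) := by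
          rw [← pow_add]
          congr 1
          omega
        rw [h3]
        have h4 : (M : ℝ) ^ i ≠ 0 := by positivity
        have h5 : (M : ℝ) ^ (j' + 1) ≠ 0 := by positivity
        field_simp
      have h3 : |f * (1 / (M : ℝ) ^ (j' + 1))| ≤ 1 / M * (1 / 2) ^ j' := by
        have h4 : 0 ≤ f := Int.fract_nonneg _
        have h5 : f ≤ 1 := (Int.fract_lt_one _).le
        rw [abs_of_nonneg (by positivity)]
        have h6 : f * (1 / (M : ℝ) ^ (j' + 1)) ≤ 1 * (1 / (M : ℝ) ^ (j' + 1)) :=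
          mul_le_mul_of_nonneg_right h5 (by positivity)
        refine h6.trans ?_
        rw [one_mul, pow_succ, one_div, mul_inv, mul_comm, one_div]
        refine mul_le_mul_of_nonneg_left ?_ (by positivity)
        rw [one_div, inv_pow]
        refine inv_anti₀ (by positivity) ?_
        exact pow_le_pow_left₀ (by norm_num) hM0 j'
      have h4 : (s - f / (M : ℝ) ^ n) * (M : ℝ) ^ i + k i - z i =
          (s * (M : ℝ) ^ i + k i - z i) - f * (1 / (M : ℝ) ^ (j' + 1)) := by
        rw [← h2]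
        ring
      rw [h4]
      refine (abs_sub _ _).trans ((add_le_add h1 h3).trans (le_of_eq ?_))
      rw [pow_succ]
      ring
    · have hi' : i = n := by omega
      have hj' : j = 0 := by omega
      subst hi'
      subst hj'
      rw [Function.update_self, pow_zero, sub_self, mul_zero]
      refine le_of_eq ?_
      have h1 : f / (M : ℝ) ^ i * (M : ℝ) ^ i = f := div_mul_cancel₀ _ hMn.ne'
      have h2 : f = s * (M : ℝ) ^ i - z i - ⌊s * (M : ℝ) ^ i - z i⌋ := rfl
      rw [sub_mul, h1, h2]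
      push_cast
      rw [abs_eq_zero]
      ring

theorem dense {M : ℕ} (hM : 2 ≤ M) (z : Q m) :
    ∃ (s : ℝ) (k : Fin (m + 1) → ℤ), ‖s • om m M + (fun i => (k i : ℝ)) - z‖ ≤ 2 / M := by
  obtain ⟨s, k, h⟩ := dense_aux hM (fun i => if hi : i < m + 1 then z ⟨i, hi⟩ else 0) (m + 1)
  refine ⟨s, fun i => k i, ?_⟩
  rw [pi_norm_le_iff_of_nonneg (by positivity)]
  intro i
  have h1 := h i (m - i) (by omega)
  rw [dif_pos i.2] at h1
  rw [Real.norm_eq_abs]
  refine h1.trans ?_
  have h2 : (0 : ℝ) < (1 / 2) ^ (m - (i : ℕ)) := by positivity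
  have h3 : (0 : ℝ) ≤ 2 / M := by positivity
  nlinarith

variable {V : Type} [NormedAddCommGroup V] [NormedSpace ℝ V]

/-- the average does not change along `w` -/
theorem avw_line {M : ℕ} {F : E m → V} (h : PerV F) (p : E m) (r : ℝ) :
    avw (om m M) F (p + r • ((om m M, 0) : E m)) = avw (om m M) F p := by
  have hp : Function.Periodic (fun s : ℝ => F (p + s • ((om m M, 0) : E m))) 1 := by
    intro s
    show F (p + (s + 1) • ((om m M, 0) : E m)) = F (p + s • ((om m M, 0) : E m))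
    have h1 : p + (s + 1) • ((om m M, 0) : E m) =
        p + s • ((om m M, 0) : E m) + tr (fun i => ((M ^ (i : ℕ) : ℕ) : ℤ)) 0 := by
      rw [add_smul, one_smul, ← add_assoc]
      congr 1
      refine Prod.ext ?_ ?_
      · funext i
        simp [tr, om]
      · simp [tr]
    rw [h1]
    exact h.add _ _ _
  have h2 := hp.intervalIntegral_add_eq r 0
  rw [zero_add] at h2
  show ∫ s in (0 : ℝ)..1, F (p + r • ((om m M, 0) : E m) + s • ((om m M, 0) : E m)) = _
  have h3 : (∫ s in (0 : ℝ)..1, F (p + r • ((om m M, 0) : E m) + s • ((om m M, 0) : E m))) =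
      ∫ s in (0 : ℝ)..1, (fun s : ℝ => F (p + s • ((om m M, 0) : E m))) (s + r) := by
    refine intervalIntegral.integral_congr fun s _ => ?_
    show F _ = F _
    rw [add_smul, add_assoc, add_comm (r • _)]
  rw [h3]
  refine (intervalIntegral.integral_comp_add_right
    (fun s : ℝ => F (p + s • ((om m M, 0) : E m))) r).trans ?_
  rw [zero_add, add_comm 1 r]
  exact h2

/-- the average is almost constant -/
theorem osc {M : ℕ} (hM : 2 ≤ M) {F : E m → V} (h : PerV F) (hc : ContDiff ℝ 1 F) {L : ℝ}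
    (hL : ∀ p, ‖fderiv ℝ F p‖ ≤ L) (x y : Q m) (t : ℝ) :
    ‖avw (om m M) F (x, t) - avw (om m M) F (y, t)‖ ≤ L * (2 / M) := by
  have hL0 : 0 ≤ L := (norm_nonneg _).trans (hL 0)
  obtain ⟨s, k, hs⟩ := dense hM (y - x)
  have h1 : avw (om m M) F (x, t) =
      avw (om m M) F (((x, t) + s • ((om m M, 0) : E m)) + tr k 0) := by
    rw [(avw_per (om m M) h).add, avw_line h]
  set q : E m := ((x, t) + s • ((om m M, 0) : E m)) + tr k 0 with hq
  have hq1 : ‖q - (y, t)‖ ≤ 2 / M := by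
    have h2 : q - (y, t) = (s • om m M + (fun i => (k i : ℝ)) - (y - x), 0) := by
      refine Prod.ext ?_ ?_
      · funext i
        simp [hq, tr]
        ring
      · simp [hq, tr]
    rw [h2, Prod.norm_def]
    simpa using hs
  rw [h1]
  have h2 : avw (om m M) F q - avw (om m M) F (y, t) = ∫ s in (0 : ℝ)..1,
      (F (q + s • ((om m M, 0) : E m)) - F ((y, t) + s • ((om m M, 0) : E m))) :=
    (intervalIntegral.integral_sub ((cont_line _ hc.continuous _).intervalIntegrable _ _)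
      ((cont_line _ hc.continuous _).intervalIntegrable _ _)).symm
  rw [h2]
  have h3 : ∀ s ∈ uIoc (0 : ℝ) 1, ‖F (q + s • ((om m M, 0) : E m)) -
      F ((y, t) + s • ((om m M, 0) : E m))‖ ≤ L * (2 / M) := by
    intro s _
    have h4 := Convex.norm_image_sub_le_of_norm_fderiv_le (𝕜 := ℝ) (f := F) (s := univ)
      (C := L) (x := (y, t) + s • ((om m M, 0) : E m)) (y := q + s • ((om m M, 0) : E m))
      (fun z _ => hc.differentiable (by norm_num) z) (fun z _ => hL z) convex_univ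
      (mem_univ _) (mem_univ _)
    refine h4.trans (mul_le_mul_of_nonneg_left ?_ hL0)
    rw [add_sub_add_right_eq_sub]
    exact hq1
  refine (intervalIntegral.norm_integral_le_of_norm_le_const h3).trans ?_
  simp

/-- the derivatives in the directions of the torus are small -/
theorem small_x {G : E m → ℝ} (h : PerV G) (hd : Differentiable ℝ G) {δ : ℝ}
    (hδ : ∀ (x y : Q m) (t : ℝ), ‖fderiv ℝ G (x, t) - fderiv ℝ G (y, t)‖ ≤ δ) (p : E m) (u : Q m) :
    |fderiv ℝ G p (u, 0)| ≤ (m + 1) * δ * ‖u‖ := by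
  classical
  have h1 : ∀ i : Fin (m + 1), |fderiv ℝ G p (Pi.single i 1, 0)| ≤ δ := by
    intro i
    set e : E m := (Pi.single i 1, 0) with he
    have hper : G (p + (1 : ℝ) • e) = G (p + (0 : ℝ) • e) := by
      have h2 := h.add p (Pi.single i 1) 0
      rw [zero_smul, add_zero, one_smul]
      rw [← h2]
      congr 2
      refine Prod.ext ?_ ?_
      · funext j
        simp only [he, tr, Pi.single_apply]
        split_ifs <;> simp
      · simp [he, tr]
    have hd1 : ∀ r : ℝ, HasDerivAt (fun r : ℝ => G (p + r • e)) (fderiv ℝ G (p + r • e) e) r := by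
      intro r
      have h2 : HasDerivAt (fun r : ℝ => p + r • e) e r := by
        have h3 := ((hasDerivAt_id r).smul_const e).const_add p
        simpa using h3
      exact (hd (p + r • e)).hasFDerivAt.comp_hasDerivAt r h2
    obtain ⟨c, -, hc⟩ := exists_hasDerivAt_eq_zero (f := fun r : ℝ => G (p + r • e))
      (f' := fun r : ℝ => fderiv ℝ G (p + r • e) e) zero_lt_one
      (fun r _ => (hd1 r).continuousAt.continuousWithinAt) hper.symm (fun r _ => hd1 r)
    have h4 : fderiv ℝ G p e = (fderiv ℝ G p - fderiv ℝ G (p + c • e)) e := by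
      rw [sub_apply, hc, sub_zero]
    rw [h4, ← Real.norm_eq_abs]
    have h5 : ‖e‖ ≤ 1 := by
      rw [he, Prod.norm_def, norm_zero, Pi.norm_single, norm_one]
      simp
    have h6 : p + c • e = ((p + c • e).1, p.2) := by
      refine Prod.ext rfl ?_
      simp [he]
    have h7 := hδ p.1 (p + c • e).1 p.2
    rw [← h6] at h7
    have h8 : 0 ≤ δ := (norm_nonneg _).trans h7
    refine (ContinuousLinearMap.le_opNorm _ _).trans ?_
    calc _ ≤ δ * 1 := mul_le_mul h7 h5 (norm_nonneg _) h8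
      _ = δ := mul_one _
  have hδ0 : 0 ≤ δ := (abs_nonneg _).trans (h1 0)
  have h2 : ((u, 0) : E m) = ∑ i, u i • ((Pi.single i 1, 0) : E m) := by
    refine Prod.ext ?_ ?_
    · rw [Prod.fst_sum]
      funext j
      rw [Finset.sum_apply]
      simp [Pi.single_apply]
    · rw [Prod.snd_sum]
      simp
  rw [h2, map_sum]
  refine (Finset.abs_sum_le_sum_abs _ _).trans ?_
  have h3 : ∀ i ∈ Finset.univ, |fderiv ℝ G p (u i • ((Pi.single i 1, 0) : E m))| ≤ ‖u‖ * δ := by
    intro i _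
    rw [map_smul, smul_eq_mul, abs_mul]
    exact mul_le_mul (norm_le_pi_norm u i) (h1 i) (abs_nonneg _) (norm_nonneg _)
  refine (Finset.sum_le_sum h3).trans (le_of_eq ?_)
  rw [Finset.sum_const, Finset.card_univ, Fintype.card_fin, nsmul_eq_mul]
  push_cast
  ring

/-- the projection to the time axis -/
noncomputable def PT (m : ℕ) : E m →L[ℝ] E m :=
  (0 : E m →L[ℝ] Q m).prod (ContinuousLinearMap.snd ℝ (Q m) ℝ)

theorem PT_apply (p : E m) : PT m p = (0, p.2) := rfl

theorem PT_norm (p : E m) : ‖PT m p‖ ≤ ‖p‖ := by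
  rw [PT_apply, Prod.norm_def, norm_zero]
  exact max_le (norm_nonneg _) (le_max_right _ _)

theorem PT_add (p : E m) : p = PT m p + (p.1, 0) := by
  rw [PT_apply]
  refine Prod.ext ?_ ?_
  · simp
  · simp

theorem fst_norm (p : E m) : ‖p.1‖ ≤ ‖p‖ := le_max_left _ _

theorem D_small {W : E m → ℝ} (hper : PerV W) (hc : ContDiff ℝ ∞ W) {δ : ℝ}
    (h0 : ∀ (x y : Q m) (t : ℝ), |W (x, t) - W (y, t)| ≤ δ)
    (h1 : ∀ (x y : Q m) (t : ℝ), ‖fderiv ℝ W (x, t) - fderiv ℝ W (y, t)‖ ≤ δ)
    (h2 : ∀ (x y : Q m) (t : ℝ),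
      ‖fderiv ℝ (fderiv ℝ W) (x, t) - fderiv ℝ (fderiv ℝ W) (y, t)‖ ≤ δ) :
    Small (fun p => W (PT m p) - W p) ((2 * m + 3) * δ) := by
  have hδ : 0 ≤ δ := (abs_nonneg _).trans (h0 0 0 0)
  have hK1 : δ ≤ (2 * m + 3) * δ := by nlinarith [(Nat.cast_nonneg m : (0 : ℝ) ≤ m)]
  have hd1 : Differentiable ℝ W := hc.differentiable (by norm_num)
  have hc' : ContDiff ℝ ∞ (fderiv ℝ W) := hc.fderiv_right (by norm_num)
  have hd2 : Differentiable ℝ (fderiv ℝ W) := hc'.differentiable (by norm_num)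
  -- the first derivative
  have e1 : fderiv ℝ (fun p => W (PT m p) - W p) =
      fun p => (fderiv ℝ W (PT m p)).comp (PT m) - fderiv ℝ W p := by
    funext p
    have a1 := (hd1 (PT m p)).hasFDerivAt.comp p (PT m).hasFDerivAt
    exact (a1.sub (hd1 p).hasFDerivAt).fderiv
  -- the second derivative
  set cP : (E m →L[ℝ] ℝ) →L[ℝ] (E m →L[ℝ] ℝ) :=
    (ContinuousLinearMap.compL ℝ (E m) (E m) ℝ).flip (PT m) with hcP
  have e2 : ∀ p, fderiv ℝ (fderiv ℝ (fun p => W (PT m p) - W p)) p =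
      cP.comp ((fderiv ℝ (fderiv ℝ W) (PT m p)).comp (PT m)) - fderiv ℝ (fderiv ℝ W) p := by
    intro p
    rw [e1]
    have a1 := (hd2 (PT m p)).hasFDerivAt.comp p (PT m).hasFDerivAt
    have a2 := cP.hasFDerivAt.comp p a1
    exact (a2.sub (hd2 p).hasFDerivAt).fderiv
  have e3 : ∀ p v v', fderiv ℝ (fderiv ℝ (fun p => W (PT m p) - W p)) p v v' =
      fderiv ℝ (fderiv ℝ W) (PT m p) (PT m v) (PT m v') - fderiv ℝ (fderiv ℝ W) p v v' := by
    intro p v v'
    rw [e2]
    rfl
  -- derivatives along the torus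
  have k1 : ∀ (p : E m) (u : Q m), |fderiv ℝ W p (u, 0)| ≤ (m + 1) * δ * ‖u‖ :=
    small_x hper hd1 h1
  have k2 : ∀ (p v : E m) (u : Q m), |fderiv ℝ (fderiv ℝ W) p (u, 0) v| ≤
      (m + 1) * (δ * ‖v‖) * ‖u‖ := by
    intro p v u
    have a1 : ∀ q, HasFDerivAt (fun q => fderiv ℝ W q v)
        ((ContinuousLinearMap.apply ℝ ℝ v).comp (fderiv ℝ (fderiv ℝ W) q)) q := fun q =>
      (ContinuousLinearMap.apply ℝ ℝ v).hasFDerivAt.comp q (hd2 q).hasFDerivAt
    have a2 : PerV (fun q => fderiv ℝ W q v) := fun p k l => by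
      show fderiv ℝ W _ v = fderiv ℝ W _ v
      rw [hper.fderiv p k l]
    have a3 := small_x a2 (fun q => (a1 q).differentiableAt) (δ := δ * ‖v‖) (by
      intro x y t
      rw [(a1 _).fderiv, (a1 _).fderiv]
      refine ContinuousLinearMap.opNorm_le_bound _ (by positivity) fun w => ?_
      have a4 : ((ContinuousLinearMap.apply ℝ ℝ v).comp (fderiv ℝ (fderiv ℝ W) (x, t)) -
          (ContinuousLinearMap.apply ℝ ℝ v).comp (fderiv ℝ (fderiv ℝ W) (y, t))) w =
          (fderiv ℝ (fderiv ℝ W) (x, t) - fderiv ℝ (fderiv ℝ W) (y, t)) w v := rfl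
      rw [a4]
      refine (ContinuousLinearMap.le_opNorm₂ _ _ _).trans ?_
      have a5 : 0 ≤ ‖w‖ * ‖v‖ := by positivity
      calc _ = ‖fderiv ℝ (fderiv ℝ W) (x, t) - fderiv ℝ (fderiv ℝ W) (y, t)‖ * (‖w‖ * ‖v‖) := by
              ring
        _ ≤ δ * (‖w‖ * ‖v‖) := mul_le_mul_of_nonneg_right (h2 x y t) a5
        _ = δ * ‖v‖ * ‖w‖ := by ring) p u
    rw [(a1 p).fderiv] at a3
    exact a3
  intro p
  have hPp : PT m p = (0, p.2) := rfl
  refine ⟨?_, ?_, ?_⟩
  · refine le_trans ?_ hK1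
    exact h0 0 p.1 p.2
  · refine ContinuousLinearMap.opNorm_le_bound _ (by positivity) fun v => ?_
    rw [e1]
    have a1 : ((fderiv ℝ W (PT m p)).comp (PT m) - fderiv ℝ W p) v =
        (fderiv ℝ W (PT m p) - fderiv ℝ W p) (PT m v) - fderiv ℝ W p (v.1, 0) := by
      have a2 : fderiv ℝ W p v = fderiv ℝ W p (PT m v) + fderiv ℝ W p (v.1, 0) := by
        rw [← map_add, ← PT_add]
      show fderiv ℝ W (PT m p) (PT m v) - fderiv ℝ W p v =
        (fderiv ℝ W (PT m p) (PT m v) - fderiv ℝ W p (PT m v)) - _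
      rw [a2]
      ring
    show ‖((fderiv ℝ W (PT m p)).comp (PT m) - fderiv ℝ W p) v‖ ≤ _
    rw [a1]
    have a2 : ‖(fderiv ℝ W (PT m p) - fderiv ℝ W p) (PT m v)‖ ≤ δ * ‖v‖ := by
      refine (ContinuousLinearMap.le_opNorm _ _).trans ?_
      exact mul_le_mul (h1 0 p.1 p.2) (PT_norm v) (norm_nonneg _) hδ
    have a3 : ‖fderiv ℝ W p (v.1, 0)‖ ≤ (m + 1) * δ * ‖v‖ := by
      refine (k1 p v.1).trans ?_
      exact mul_le_mul_of_nonneg_left (fst_norm v) (by positivity)
    refine (norm_sub_le _ _).trans ((add_le_add a2 a3).trans ?_)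
    have a4 : 0 ≤ δ * ‖v‖ := by positivity
    have a5 : 0 ≤ (m : ℝ) * (δ * ‖v‖) := by positivity
    nlinarith
  · refine ContinuousLinearMap.opNorm_le_bound₂ _ (by positivity) fun v v' => ?_
    have hsym : fderiv ℝ (fderiv ℝ W) p (PT m v) (v'.1, 0) =
        fderiv ℝ (fderiv ℝ W) p (v'.1, 0) (PT m v) := by
      have a1 : IsSymmSndFDerivAt ℝ W p :=
        hc.contDiffAt.isSymmSndFDerivAt (by rw [minSmoothness_of_isRCLikeNormedField]; norm_cast)
      exact a1 _ _
    have a1 : fderiv ℝ (fderiv ℝ (fun p => W (PT m p) - W p)) p v v' =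
        (fderiv ℝ (fderiv ℝ W) (PT m p) - fderiv ℝ (fderiv ℝ W) p) (PT m v) (PT m v') -
        fderiv ℝ (fderiv ℝ W) p (v.1, 0) v' - fderiv ℝ (fderiv ℝ W) p (v'.1, 0) (PT m v) := by
      rw [e3, ← hsym]
      have a2 : fderiv ℝ (fderiv ℝ W) p v v' =
          fderiv ℝ (fderiv ℝ W) p (PT m v) (PT m v') + fderiv ℝ (fderiv ℝ W) p (PT m v) (v'.1, 0) +
          fderiv ℝ (fderiv ℝ W) p (v.1, 0) v' := by
        rw [← map_add, ← PT_add, ← add_apply, ← map_add, ← PT_add]
      rw [a2]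
      show _ = (fderiv ℝ (fderiv ℝ W) (PT m p) (PT m v) (PT m v') -
        fderiv ℝ (fderiv ℝ W) p (PT m v) (PT m v')) - _ - _
      ring
    rw [a1]
    have a2 : ‖(fderiv ℝ (fderiv ℝ W) (PT m p) - fderiv ℝ (fderiv ℝ W) p) (PT m v) (PT m v')‖ ≤
        δ * (‖v‖ * ‖v'‖) := by
      refine (ContinuousLinearMap.le_opNorm₂ _ _ _).trans ?_
      rw [mul_assoc]
      exact mul_le_mul (h2 0 p.1 p.2)
        (mul_le_mul (PT_norm v) (PT_norm v') (norm_nonneg _) (norm_nonneg _)) (by positivity) hδ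
    have a3 : ‖fderiv ℝ (fderiv ℝ W) p (v.1, 0) v'‖ ≤ (m + 1) * δ * (‖v‖ * ‖v'‖) := by
      refine (k2 p v' v.1).trans ?_
      calc _ = (m + 1) * δ * (‖v.1‖ * ‖v'‖) := by ring
        _ ≤ _ := mul_le_mul_of_nonneg_left
          (mul_le_mul_of_nonneg_right (fst_norm v) (norm_nonneg _)) (by positivity)
    have a4 : ‖fderiv ℝ (fderiv ℝ W) p (v'.1, 0) (PT m v)‖ ≤ (m + 1) * δ * (‖v‖ * ‖v'‖) := by
      refine (k2 p (PT m v) v'.1).trans ?_
      calc _ = (m + 1) * δ * (‖PT m v‖ * ‖v'.1‖) := by ring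
        _ ≤ _ := mul_le_mul_of_nonneg_left
          (mul_le_mul (PT_norm v) (fst_norm v') (norm_nonneg _) (norm_nonneg _)) (by positivity)
    refine (norm_sub_le _ _).trans ((add_le_add ((norm_sub_le _ _).trans (add_le_add a2 a3))
      a4).trans (le_of_eq ?_))
    ring

end AvgL

open AvgL in
/-- **Removal of the average.** -/
theorem avg : S_AVG := by
  intro m h ε hε hh
  obtain ⟨hc, hp⟩ := hh
  have hp : PerV h := hp
  have hc1 : ContDiff ℝ ∞ (fderiv ℝ h) := hc.fderiv_right (by norm_num)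
  have hc2 : ContDiff ℝ ∞ (fderiv ℝ (fderiv ℝ h)) := hc1.fderiv_right (by norm_num)
  obtain ⟨L0, hL0, b0⟩ := hp.fderiv.bdd hc1.continuous
  obtain ⟨L1, hL1, b1⟩ := hp.fderiv.fderiv.bdd hc2.continuous
  obtain ⟨L2, hL2, b2⟩ := hp.fderiv.fderiv.fderiv.bdd (hc2.continuous_fderiv (by norm_num))
  obtain ⟨M, hM⟩ := exists_nat_ge (max 2 ((2 * m + 3) * ((L0 + L1 + L2) * 2) / ε))
  have hM2 : (2 : ℝ) ≤ M := (le_max_left _ _).trans hM
  have hM2' : 2 ≤ M := by exact_mod_cast hM2
  have hM0 : (0 : ℝ) < M := by linarith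
  set δ : ℝ := (L0 + L1 + L2) * (2 / M) with hδ
  have hδε : (2 * m + 3) * δ ≤ ε := by
    have h1 := (le_max_right _ _).trans hM
    rw [div_le_iff₀ hε] at h1
    rw [hδ]
    have h2 : (2 * m + 3) * ((L0 + L1 + L2) * (2 / M)) =
        (2 * m + 3) * ((L0 + L1 + L2) * 2) / M := by ring
    rw [h2, div_le_iff₀ hM0]
    linarith
  set W := avw (om m M) h with hW
  have hWp : PerV W := avw_per _ hp
  have hWc : ContDiff ℝ ∞ W := by
    rw [contDiff_infty]
    intro n
    exact avw_contDiff _ n hp (hc.of_le (by exact_mod_cast le_top))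
  have hle : ∀ {n : ℕ}, ((n : ℕ∞) : WithTop ℕ∞) ≤ ∞ := by
    intro n
    exact_mod_cast le_top
  have f1 : fderiv ℝ W = avw (om m M) (fderiv ℝ h) :=
    funext fun p => (avw_deriv _ hp (hc.of_le (hle (n := 1))) p).fderiv
  have f2 : fderiv ℝ (fderiv ℝ W) = avw (om m M) (fderiv ℝ (fderiv ℝ h)) := by
    rw [f1]
    exact funext fun p => (avw_deriv _ hp.fderiv (hc1.of_le (hle (n := 1))) p).fderiv
  have g : ∀ L : ℝ, L ≤ L0 + L1 + L2 → L * (2 / M) ≤ δ := fun L hL =>
    mul_le_mul_of_nonneg_right hL (by positivity)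
  have hsm := D_small hWp hWc (δ := δ)
    (fun x y t => (osc hM2' hp (hc.of_le (hle (n := 1))) b0 x y t).trans (g _ (by linarith)))
    (fun x y t => by
      rw [f1]
      exact (osc hM2' hp.fderiv (hc1.of_le (hle (n := 1))) b1 x y t).trans (g _ (by linarith)))
    (fun x y t => by
      rw [f2]
      exact (osc hM2' hp.fderiv.fderiv (hc2.of_le (hle (n := 1))) b2 x y t).trans
        (g _ (by linarith)))
  refine ⟨M, fun p => h p + (W (PT m p) - W p), ⟨?_, ?_⟩, ?_, ?_⟩
  · exact hc.add ((hWc.comp (PT m).contDiff).sub hWc)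
  · intro p k l
    show h _ + (W _ - W _) = h _ + (W _ - W _)
    have h1 : W (PT m (p.1 + (fun i => (k i : ℝ)), p.2 + l)) = W (PT m p) := by
      have h2 := hWp (PT m p) 0 l
      rw [← h2]
      congr 1
      refine Prod.ext ?_ ?_
      · funext i
        simp [PT_apply]
      · simp [PT_apply]
    rw [h1, hp p k l, hWp p k l]
  · have h1 : (fun p => h p + (W (PT m p) - W p) - h p) = fun p => W (PT m p) - W p := by
      funext p
      ring
    rw [h1]
    intro p
    exact ⟨(hsm p).1.trans hδε, (hsm p).2.1.trans hδε, (hsm p).2.2.trans hδε⟩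
  · have key : ∀ p : E m, (∫ s in (0 : ℝ)..1, (h (p.1 + s • om m M, p.2) +
        (W (PT m (p.1 + s • om m M, p.2)) - W (p.1 + s • om m M, p.2)))) = W (0, p.2) := by
      intro p
      have h1 : ∀ s : ℝ, ((p.1 + s • om m M, p.2) : E m) = p + s • ((om m M, 0) : E m) := by
        intro s
        refine Prod.ext ?_ ?_
        · rfl
        · simp
      have h2 : (∫ s in (0 : ℝ)..1, (h (p.1 + s • om m M, p.2) +
          (W (PT m (p.1 + s • om m M, p.2)) - W (p.1 + s • om m M, p.2)))) =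
          ∫ s in (0 : ℝ)..1, (h (p + s • ((om m M, 0) : E m)) + (W (0, p.2) - W p)) := by
        refine intervalIntegral.integral_congr fun s _ => ?_
        show h _ + (W _ - W _) = h _ + (W _ - W _)
        have h4 : (p + s • ((om m M, 0) : E m)).2 = p.2 := by simp
        rw [PT_apply, h1, hW, avw_line hp, h4]
      rw [h2, intervalIntegral.integral_add ((cont_line _ hc.continuous _).intervalIntegrable _ _)
        intervalIntegrable_const, intervalIntegral.integral_const]
      have h3 : (∫ s in (0 : ℝ)..1, h (p + s • ((om m M, 0) : E m))) = W p := rfl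
      rw [h3]
      simp
    intro p q hpq
    show (∫ s in (0 : ℝ)..1, (h (p.1 + s • om m M, p.2) +
        (W (PT m (p.1 + s • om m M, p.2)) - W (p.1 + s • om m M, p.2)))) =
      (∫ s in (0 : ℝ)..1, (h (q.1 + s • om m M, q.2) +
        (W (PT m (q.1 + s • om m M, q.2)) - W (q.1 + s • om m M, q.2))))
    rw [key p, key q, hpq]

end Pool.Agent.Helper6K9.ES
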