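import Pool.Agent.Helper6K9.ES.Defs

set_option autoImplicit false

/-!
# Algebra of smooth periodic functions
-/

namespace Pool.Agent.Helper6K9.ES

open Set Filter Topology
open scoped ContDiff

variable {m : ℕ} {F G : E m → ℝ}

theorem Sm.diff (H : Sm F) : Differentiable ℝ F := H.1.differentiable (by simp)

theorem Sm.cont (H : Sm F) : Continuous F := H.1.continuous

theorem Sm.add (H : Sm F) (K : Sm G) : Sm fun p => F p + G p :=
  ⟨H.1.add K.1, fun p k l => by simp only [H.2 p k l, K.2 p k l]⟩

theorem Sm.sub (H : Sm F) (K : Sm G) : Sm fun p => F p - G p :=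
  ⟨H.1.sub K.1, fun p k l => by simp only [H.2 p k l, K.2 p k l]⟩

theorem Sm.mul (H : Sm F) (K : Sm G) : Sm fun p => F p * G p :=
  ⟨H.1.mul K.1, fun p k l => by simp only [H.2 p k l, K.2 p k l]⟩

theorem sm_const (c : ℝ) : Sm fun _ : E m => c := ⟨contDiff_const, fun _ _ _ => rfl⟩

theorem Sm.const_mul (H : Sm F) (c : ℝ) : Sm fun p => c * F p := (sm_const c).mul H

theorem sm_sum {ι : Type} (s : Finset ι) {H : ι → E m → ℝ} (K : ∀ i ∈ s, Sm (H i)) :
    Sm fun p => ∑ i ∈ s, H i p :=
  ⟨ContDiff.sum fun i hi => (K i hi).1,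
    fun p k l => Finset.sum_congr rfl fun i hi => (K i hi).2 p k l⟩

/-! ### derivatives -/

theorem dX_add (i : Fin (m + 1)) (H : Sm F) (K : Sm G) (p : E m) :
    dX i (fun p => F p + G p) p = dX i F p + dX i G p := by
  unfold dX
  rw [fderiv_fun_add (H.diff p) (K.diff p)]
  rfl

theorem dX_sub (i : Fin (m + 1)) (H : Sm F) (K : Sm G) (p : E m) :
    dX i (fun p => F p - G p) p = dX i F p - dX i G p := by
  unfold dX
  rw [fderiv_fun_sub (H.diff p) (K.diff p)]
  rfl

theorem dX_mul (i : Fin (m + 1)) (H : Sm F) (K : Sm G) (p : E m) :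
    dX i (fun p => F p * G p) p = dX i F p * G p + F p * dX i G p := by
  unfold dX
  rw [fderiv_fun_mul (H.diff p) (K.diff p)]
  simp only [add_apply, smul_apply, smul_eq_mul]
  ring

theorem dX_const_mul (i : Fin (m + 1)) (H : Sm F) (c : ℝ) (p : E m) :
    dX i (fun p => c * F p) p = c * dX i F p := by
  unfold dX
  rw [fderiv_const_mul (H.diff p)]
  rfl

theorem dX_sum {ι : Type} (i : Fin (m + 1)) (s : Finset ι) {H : ι → E m → ℝ}
    (K : ∀ j ∈ s, Sm (H j)) (p : E m) :
    dX i (fun p => ∑ j ∈ s, H j p) p = ∑ j ∈ s, dX i (H j) p := by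
  unfold dX
  rw [fderiv_fun_sum fun j hj => (K j hj).diff p]
  simp only [sum_apply]

/-- second derivatives commute -/
theorem dX_comm (i j : Fin (m + 1)) (H : Sm F) (p : E m) : dX i (dX j F) p = dX j (dX i F) p := by
  have hs : IsSymmSndFDerivAt ℝ F p := by
    refine ContDiffAt.isSymmSndFDerivAt (n := ∞) H.1.contDiffAt ?_
    simp only [minSmoothness_of_isRCLikeNormedField]
    exact WithTop.coe_le_coe.2 (le_top : (2 : ℕ∞) ≤ ⊤)
  have hd : DifferentiableAt ℝ (fderiv ℝ F) p :=
    ((H.1.fderiv_right (m := 1) (by norm_cast)).differentiable (by simp)) p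
  have key : ∀ i j : Fin (m + 1), dX i (dX j F) p =
      fderiv ℝ (fderiv ℝ F) p (Pi.single i 1, 0) (Pi.single j 1, 0) := by
    intro i j
    unfold dX
    rw [fderiv_clm_apply hd (differentiableAt_const _)]
    simp
  rw [key i j, key j i]
  exact hs.eq _ _

/-! ### averages -/

theorem cont_line (H : Continuous F) (p : E m) : Continuous fun s : ℝ =>
    F (p.1 + s • Pi.single (0 : Fin (m + 1)) (1 : ℝ), p.2) :=
  H.comp ((continuous_const.add (continuous_id.smul continuous_const)).prodMk continuous_const)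

theorem av_add (H : Continuous F) (K : Continuous G) (p : E m) :
    av (fun p => F p + G p) p = av F p + av G p :=
  intervalIntegral.integral_add ((cont_line H p).intervalIntegrable _ _)
    ((cont_line K p).intervalIntegrable _ _)

theorem av_sub (H : Continuous F) (K : Continuous G) (p : E m) :
    av (fun p => F p - G p) p = av F p - av G p :=
  intervalIntegral.integral_sub ((cont_line H p).intervalIntegrable _ _)
    ((cont_line K p).intervalIntegrable _ _)

theorem av_const_mul (c : ℝ) (F : E m → ℝ) (p : E m) : av (fun p => c * F p) p = c * av F p :=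
  intervalIntegral.integral_const_mul _ _

theorem av_sum {ι : Type} (s : Finset ι) {H : ι → E m → ℝ} (K : ∀ j ∈ s, Continuous (H j))
    (p : E m) : av (fun p => ∑ j ∈ s, H j p) p = ∑ j ∈ s, av (H j) p :=
  intervalIntegral.integral_finsetSum fun j hj => (cont_line (K j hj) p).intervalIntegrable _ _

end Pool.Agent.Helper6K9.ES
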