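import Pool.Agent.Helper6K9.ES.Stm

set_option autoImplicit false

/-!
# Cut-off in time
-/

namespace Pool.Agent.Helper6K9.ES

open Set Filter Topology
open scoped ContDiff

variable {V : Type} [NormedAddCommGroup V] [NormedSpace ℝ V]

theorem fderiv_diffAt {f : V → ℝ} {p : V} (hf : ContDiffAt ℝ 2 f p) :
    DifferentiableAt ℝ (fderiv ℝ f) p :=
  (hf.fderiv_right (m := 1) (by norm_num)).differentiableAt (by norm_num)

theorem ev_diffAt {f : V → ℝ} {p : V} (hf : ContDiffAt ℝ 2 f p) :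
    ∀ᶠ q in 𝓝 p, DifferentiableAt ℝ f q := by
  filter_upwards [hf.eventually (by norm_num)] with q hq
  exact hq.differentiableAt (by norm_num)

/-- the two derivatives of a product -/
theorem jet_mul {f g : V → ℝ} {p : V} (hf : ContDiffAt ℝ 2 f p) (hg : ContDiffAt ℝ 2 g p) :
    ‖fderiv ℝ (fun q => f q * g q) p‖ ≤ |f p| * ‖fderiv ℝ g p‖ + |g p| * ‖fderiv ℝ f p‖ ∧
    ‖fderiv ℝ (fderiv ℝ fun q => f q * g q) p‖ ≤ |f p| * ‖fderiv ℝ (fderiv ℝ g) p‖ +
      2 * (‖fderiv ℝ f p‖ * ‖fderiv ℝ g p‖) + |g p| * ‖fderiv ℝ (fderiv ℝ f) p‖ := by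
  have h1 : ∀ q, DifferentiableAt ℝ f q → DifferentiableAt ℝ g q →
      fderiv ℝ (fun q => f q * g q) q = f q • fderiv ℝ g q + g q • fderiv ℝ f q :=
    fun q hq hq' => fderiv_fun_mul hq hq'
  constructor
  · rw [h1 p (hf.differentiableAt (by norm_num)) (hg.differentiableAt (by norm_num))]
    refine (norm_add_le _ _).trans ?_
    rw [norm_smul, norm_smul, Real.norm_eq_abs, Real.norm_eq_abs]
  · have h2 : (fderiv ℝ fun q => f q * g q) =ᶠ[𝓝 p]
        fun q => f q • fderiv ℝ g q + g q • fderiv ℝ f q := by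
      filter_upwards [ev_diffAt hf, ev_diffAt hg] with q hq hq' using h1 q hq hq'
    have df := (hf.differentiableAt (by norm_num)).hasFDerivAt
    have dg := (hg.differentiableAt (by norm_num)).hasFDerivAt
    have ddf := (fderiv_diffAt hf).hasFDerivAt
    have ddg := (fderiv_diffAt hg).hasFDerivAt
    have h3 : HasFDerivAt (fun q => f q • fderiv ℝ g q + g q • fderiv ℝ f q)
        ((f p • fderiv ℝ (fderiv ℝ g) p + (fderiv ℝ f p).smulRight (fderiv ℝ g p)) +
          (g p • fderiv ℝ (fderiv ℝ f) p + (fderiv ℝ g p).smulRight (fderiv ℝ f p))) p :=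
      (df.smul ddg).add (dg.smul ddf)
    rw [h2.fderiv_eq, h3.fderiv]
    have h5 : ‖f p • fderiv ℝ (fderiv ℝ g) p + (fderiv ℝ f p).smulRight (fderiv ℝ g p)‖ ≤
        |f p| * ‖fderiv ℝ (fderiv ℝ g) p‖ + ‖fderiv ℝ f p‖ * ‖fderiv ℝ g p‖ := by
      refine (ContinuousLinearMap.opNorm_add_le _ _).trans ?_
      rw [norm_smul, ContinuousLinearMap.norm_smulRight_apply, Real.norm_eq_abs]
    have h6 : ‖g p • fderiv ℝ (fderiv ℝ f) p + (fderiv ℝ g p).smulRight (fderiv ℝ f p)‖ ≤
        |g p| * ‖fderiv ℝ (fderiv ℝ f) p‖ + ‖fderiv ℝ g p‖ * ‖fderiv ℝ f p‖ := by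
      refine (ContinuousLinearMap.opNorm_add_le _ _).trans ?_
      rw [norm_smul, ContinuousLinearMap.norm_smulRight_apply, Real.norm_eq_abs]
    have h7 := (ContinuousLinearMap.opNorm_add_le (f p • fderiv ℝ (fderiv ℝ g) p +
      (fderiv ℝ f p).smulRight (fderiv ℝ g p)) (g p • fderiv ℝ (fderiv ℝ f) p +
      (fderiv ℝ g p).smulRight (fderiv ℝ f p))).trans (add_le_add h5 h6)
    refine h7.trans (le_of_eq ?_)
    ring

/-- the cut-off -/
noncomputable def cut {m : ℕ} (T : ℝ) (p : E m) : ℝ := Real.smoothTransition (p.2 - T)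

theorem bdd_of_supp {φ : ℝ → ℝ} (hφ : Continuous φ) (h0 : ∀ s, s ∉ Icc (0 : ℝ) 1 → φ s = 0) :
    ∃ c : ℝ, 0 ≤ c ∧ ∀ s, |φ s| ≤ c := by
  obtain ⟨c, hc⟩ := (isCompact_Icc (a := (0 : ℝ)) (b := 1)).exists_bound_of_continuousOn
    hφ.continuousOn
  refine ⟨max c 0, le_max_right _ _, fun s => ?_⟩
  by_cases hs : s ∈ Icc (0 : ℝ) 1
  · exact (hc s hs).trans (le_max_left _ _)
  · rw [h0 s hs, abs_zero]
    exact le_max_right _ _

theorem st_contDiff : ContDiff ℝ 2 Real.smoothTransition := Real.smoothTransition.contDiff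

theorem cut_contDiff {m : ℕ} (T : ℝ) : ContDiff ℝ 2 (cut T : E m → ℝ) :=
  st_contDiff.comp (contDiff_snd.sub contDiff_const)

theorem cut_bound : ∃ c : ℝ, 1 ≤ c ∧ ∀ (m : ℕ) (T : ℝ) (p : E m),
    |cut T p| ≤ c ∧ ‖fderiv ℝ (cut T) p‖ ≤ c ∧ ‖fderiv ℝ (fderiv ℝ (cut T)) p‖ ≤ c := by
  have hd : ContDiff ℝ 1 (deriv Real.smoothTransition) := by
    have := st_contDiff
    rw [show (2 : WithTop ℕ∞) = 1 + 1 by norm_num, contDiff_succ_iff_deriv] at this
    exact this.2.2
  have h1 : ∀ s, s ∉ Icc (0 : ℝ) 1 → deriv Real.smoothTransition s = 0 := by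
    intro s hs
    rw [mem_Icc, not_and_or, not_le, not_le] at hs
    rcases hs with hs | hs
    · have : Real.smoothTransition =ᶠ[𝓝 s] fun _ => 0 := by
        filter_upwards [gt_mem_nhds hs] with r hr using
          Real.smoothTransition.zero_of_nonpos hr.le
      rw [this.deriv_eq, deriv_const]
    · have : Real.smoothTransition =ᶠ[𝓝 s] fun _ => 1 := by
        filter_upwards [lt_mem_nhds hs] with r hr using
          Real.smoothTransition.one_of_one_le hr.le
      rw [this.deriv_eq, deriv_const]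
  have h2 : ∀ s, s ∉ Icc (0 : ℝ) 1 → deriv (deriv Real.smoothTransition) s = 0 := by
    intro s hs
    have : deriv Real.smoothTransition =ᶠ[𝓝 s] fun _ => 0 := by
      filter_upwards [isClosed_Icc.isOpen_compl.mem_nhds hs] with r hr using h1 r hr
    rw [this.deriv_eq, deriv_const]
  obtain ⟨c1, hc1, hb1⟩ := bdd_of_supp hd.continuous h1
  obtain ⟨c2, hc2, hb2⟩ := bdd_of_supp (hd.continuous_deriv le_rfl) h2
  refine ⟨1 + c1 + c2, by linarith, fun m T p => ?_⟩
  have hsd : ∀ s, HasDerivAt Real.smoothTransition (deriv Real.smoothTransition s) s := fun s =>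
    (st_contDiff.differentiable (by norm_num) s).hasDerivAt
  have hsdd : ∀ s, HasDerivAt (deriv Real.smoothTransition)
      (deriv (deriv Real.smoothTransition) s) s := fun s =>
    (hd.differentiable (by norm_num) s).hasDerivAt
  set L : E m →L[ℝ] ℝ := ContinuousLinearMap.snd ℝ (Q m) ℝ with hL
  have hLn : ‖L‖ ≤ 1 := ContinuousLinearMap.norm_snd_le _ _ _
  have hin : ∀ p : E m, HasFDerivAt (fun q : E m => q.2 - T) L p := fun p =>
    hasFDerivAt_snd.sub_const T
  have f1 : ∀ p : E m, HasFDerivAt (cut T) (deriv Real.smoothTransition (p.2 - T) • L) p :=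
    fun p => (hsd _).comp_hasFDerivAt p (hin p)
  have f1' : fderiv ℝ (cut T : E m → ℝ) = fun p =>
      deriv Real.smoothTransition (p.2 - T) • L := by
    funext p
    exact (f1 p).fderiv
  have f2 : HasFDerivAt (fun p : E m => deriv Real.smoothTransition (p.2 - T) • L)
      ((deriv (deriv Real.smoothTransition) (p.2 - T) • L).smulRight L) p := by
    have h3 : HasFDerivAt (fun p : E m => deriv Real.smoothTransition (p.2 - T))
        (deriv (deriv Real.smoothTransition) (p.2 - T) • L) p :=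
      (hsdd _).comp_hasFDerivAt p (hin p)
    exact h3.smul_const L
  refine ⟨?_, ?_, ?_⟩
  · unfold cut
    rw [abs_of_nonneg (Real.smoothTransition.nonneg _)]
    have := Real.smoothTransition.le_one (p.2 - T)
    linarith
  · rw [f1', norm_smul, Real.norm_eq_abs]
    have := mul_le_mul (hb1 (p.2 - T)) hLn (norm_nonneg _) hc1
    linarith
  · rw [f1', f2.fderiv, ContinuousLinearMap.norm_smulRight_apply, norm_smul, Real.norm_eq_abs]
    have h3 := mul_le_mul (hb2 (p.2 - T)) hLn (norm_nonneg _) hc2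
    have h4 := mul_le_mul h3 hLn (norm_nonneg _) (by linarith)
    linarith

end Pool.Agent.Helper6K9.ES
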