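import Mathlib

set_option autoImplicit false

/-!
# Orbits which escape to infinity on flat tori: definitions

Points of `T^(m+1) × T` are written `p = (x, t)`, `x : Fin (m + 1) → ℝ`; functions on it are periodic
functions. The coordinate `x 0` is the fast one.
-/

namespace Pool.Agent.Helper6K9.ES

open Set Filter Topology
open scoped ContDiff

/-- positions -/
abbrev Q (m : ℕ) := Fin (m + 1) → ℝ

/-- positions and time -/
abbrev E (m : ℕ) := Q m × ℝ

variable {m : ℕ}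

/-- periodic functions: functions on `T^(m+1) × T` -/
def Per (F : E m → ℝ) : Prop :=
  ∀ (p : E m) (k : Fin (m + 1) → ℤ) (l : ℤ), F (p.1 + (fun i => (k i : ℝ)), p.2 + l) = F p

/-- smooth periodic functions -/
def Sm (F : E m → ℝ) : Prop := ContDiff ℝ ∞ F ∧ Per F

/-- `∂F/∂x_i` -/
noncomputable def dX (i : Fin (m + 1)) (F : E m → ℝ) (p : E m) : ℝ :=
  fderiv ℝ F p (Pi.single i 1, 0)

/-- `∂F/∂t` -/
noncomputable def dT (F : E m → ℝ) (p : E m) : ℝ := fderiv ℝ F p (0, 1)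

/-- the average in the direction of `x 0` -/
noncomputable def av (F : E m → ℝ) (p : E m) : ℝ :=
  ∫ s in (0 : ℝ)..1, F (p.1 + s • Pi.single (0 : Fin (m + 1)) (1 : ℝ), p.2)

/-- the antiderivative in the direction of `x 0` -/
noncomputable def an (F : E m → ℝ) (p : E m) : ℝ :=
  ∫ s in (0 : ℝ)..1, (s - 1 / 2) * F (p.1 + s • Pi.single (0 : Fin (m + 1)) (1 : ℝ), p.2)

/-- the components of the curve: `th0 0` has the velocity `t^(1/4)`, and `th0 i` has the velocity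
`t^(-7 i / 20)` for `i = 1, 2, 3` -/
noncomputable def th0 (i : ℕ) (t : ℝ) : ℝ :=
  if i = 0 then 4 / 5 * t ^ (5 / 4 : ℝ)
  else if i = 1 then 20 / 13 * t ^ (13 / 20 : ℝ)
  else if i = 2 then 10 / 3 * t ^ (3 / 10 : ℝ)
  else if i = 3 then -20 * t ^ (-1 / 20 : ℝ)
  else 0

/-- the curve -/
noncomputable def th (m : ℕ) (t : ℝ) : Q m := fun i => th0 i t

/-- Symbols: `h` and its first `J` derivatives are `O(t^a)`, `O(t^(a+1/4))`, … for `t ≥ 1`. -/
def Sy : ℕ → ℝ → (ℝ → ℝ) → Prop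
  | 0, a, h => ∃ C : ℝ, ∀ t : ℝ, 1 ≤ t → |h t| ≤ C * t ^ a
  | J + 1, a, h => (∃ C : ℝ, ∀ t : ℝ, 1 ≤ t → |h t| ≤ C * t ^ a) ∧
      DifferentiableOn ℝ h (Ioi 0) ∧ Sy J (a + 1 / 4) (deriv h)

/-- symbols of order `a` with all derivatives -/
def SyA (a : ℝ) (h : ℝ → ℝ) : Prop := ∀ J : ℕ, Sy J a h

/-- a smooth curve the velocity of which is a symbol of order `1/4` -/
def Crv (Y : ℝ → Q m) : Prop :=
  ∀ i, DifferentiableOn ℝ (fun t => Y t i) (Ioi 0) ∧ SyA (1 / 4) (deriv fun t => Y t i)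

/-- the residual force of the curve `X` in the potential `h`, for the metric `A` -/
noncomputable def res (A : Matrix (Fin (m + 1)) (Fin (m + 1)) ℝ) (h : E m → ℝ) (X : ℝ → Q m)
    (i : Fin (m + 1)) (t : ℝ) : ℝ :=
  (∑ j, A i j * deriv (deriv fun s => X s j) t) - dX i h (X t, t)

/-- a smooth bump: `1` on `[-1/128, 1/128]`, `0` outside `[-1/64, 1/64]` -/
noncomputable def bmp (y : ℝ) : ℝ := Real.smoothTransition (2 - (128 * y) ^ 2 / 2)

/-- The potential in the tube around the curve `X` with the forces `R`. -/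
noncomputable def tub (X : ℝ → Q m) (R : Fin (m + 1) → ℝ → ℝ) (p : E m) : ℝ :=
  (∏ i : Fin m, bmp (p.2 ^ (7 / 20 : ℝ) * Real.sin (Real.pi * (p.1 i.succ - X p.2 i.succ)))) *
    ∑ i : Fin (m + 1), R i p.2 * (Real.sin (2 * Real.pi * (p.1 i - X p.2 i)) / (2 * Real.pi))

/-- the direction of the long closed geodesic -/
def om (m M : ℕ) : Q m := fun i => (M : ℝ) ^ (i : ℕ)

/-- `F` and its first two derivatives are bounded by `ε` -/
def Small (F : E m → ℝ) (ε : ℝ) : Prop :=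
  ∀ p, |F p| ≤ ε ∧ ‖fderiv ℝ F p‖ ≤ ε ∧ ‖fderiv ℝ (fderiv ℝ F) p‖ ≤ ε

/-- `γ` is a solution of `A γ'' = ∂f/∂x (γ, t)` on the set `s` of times. -/
def Sol (A : Matrix (Fin (m + 1)) (Fin (m + 1)) ℝ) (f : E m → ℝ) (γ : ℝ → Q m) (s : Set ℝ) : Prop :=
  ∀ t ∈ s, (∀ i, DifferentiableAt ℝ (fun u => γ u i) t) ∧
    (∀ i, DifferentiableAt ℝ (deriv fun u => γ u i) t) ∧
    ∀ i, ∑ j, A i j * deriv (deriv fun u => γ u j) t = dX i f (γ t, t)

end Pool.Agent.Helper6K9.ES
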