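import Pool.Agent.Helper6K9.ES.Stm

set_option autoImplicit false

/-!
# The passes are separated
-/

namespace Pool.Agent.Helper6K9.ES

open Set Filter Topology

namespace SepL

/-- the derivatives -/
theorem hd {i : ℕ} (hi : i = 1 ∨ i = 2 ∨ i = 3) {t : ℝ} (ht : 0 < t) :
    HasDerivAt (th0 i) (t ^ (-(7 * i / 20 : ℝ))) t := by
  rcases hi with rfl | rfl | rfl
  · have h1 := (Real.hasDerivAt_rpow_const (x := t) (p := 13 / 20) (Or.inl ht.ne')).const_mul (20 / 13)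
    have h2 : th0 1 = fun t : ℝ => 20 / 13 * t ^ (13 / 20 : ℝ) := by
      funext t
      simp [th0]
    rw [h2]
    refine h1.congr_deriv ?_
    rw [← mul_assoc]
    norm_num
  · have h1 := (Real.hasDerivAt_rpow_const (x := t) (p := 3 / 10) (Or.inl ht.ne')).const_mul (10 / 3)
    have h2 : th0 2 = fun t : ℝ => 10 / 3 * t ^ (3 / 10 : ℝ) := by
      funext t
      simp [th0]
    rw [h2]
    refine h1.congr_deriv ?_
    rw [← mul_assoc]
    norm_num
  · have h1 := (Real.hasDerivAt_rpow_const (x := t) (p := -1 / 20) (Or.inl ht.ne')).const_mul (-20)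
    have h2 : th0 3 = fun t : ℝ => -20 * t ^ (-1 / 20 : ℝ) := by
      funext t
      simp [th0]
    rw [h2]
    refine h1.congr_deriv ?_
    rw [← mul_assoc]
    norm_num

/-- comparison -/
theorem cmp {i : ℕ} (hi : i = 1 ∨ i = 2) {a b : ℝ} (ha : 0 < a) (hab : a < b) :
    th0 i b - th0 i a ≤ b ^ (7 / 20 : ℝ) * (th0 (i + 1) b - th0 (i + 1) a) ∧
      0 < th0 (i + 1) b - th0 (i + 1) a := by
  have h1 : i = 1 ∨ i = 2 ∨ i = 3 := by tauto
  have h2 : i + 1 = 1 ∨ i + 1 = 2 ∨ i + 1 = 3 := by omega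
  have hc1 : ContinuousOn (th0 i) (Icc a b) := fun x hx =>
    (hd h1 (ha.trans_le hx.1)).continuousAt.continuousWithinAt
  have hc2 : ContinuousOn (th0 (i + 1)) (Icc a b) := fun x hx =>
    (hd h2 (ha.trans_le hx.1)).continuousAt.continuousWithinAt
  obtain ⟨c, hc, he⟩ := exists_ratio_hasDerivAt_eq_ratio_slope (th0 i)
    (fun x => x ^ (-(7 * i / 20 : ℝ))) hab hc1 (fun x hx => hd h1 (ha.trans hx.1)) (th0 (i + 1))
    (fun x => x ^ (-(7 * (i + 1 : ℕ) / 20 : ℝ))) hc2 (fun x hx => hd h2 (ha.trans hx.1))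
  obtain ⟨d, hd1, hd2⟩ := exists_hasDerivAt_eq_slope (th0 (i + 1))
    (fun x => x ^ (-(7 * (i + 1 : ℕ) / 20 : ℝ))) hab hc2 (fun x hx => hd h2 (ha.trans hx.1))
  have hc0 : 0 < c := ha.trans hc.1
  have hd0 : 0 < d := ha.trans hd1.1
  have hpos : 0 < th0 (i + 1) b - th0 (i + 1) a := by
    have h3 : 0 < d ^ (-(7 * (i + 1 : ℕ) / 20 : ℝ)) := Real.rpow_pos_of_pos hd0 _
    rw [hd2, lt_div_iff₀ (by linarith), zero_mul] at h3
    exact h3
  refine ⟨?_, hpos⟩
  have h4 : c ^ (-(7 * i / 20 : ℝ)) = c ^ (7 / 20 : ℝ) * c ^ (-(7 * (i + 1 : ℕ) / 20 : ℝ)) := by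
    rw [← Real.rpow_add hc0]
    congr 1
    push_cast
    ring
  have h5 : 0 < c ^ (-(7 * (i + 1 : ℕ) / 20 : ℝ)) := Real.rpow_pos_of_pos hc0 _
  have h6 : th0 i b - th0 i a = c ^ (7 / 20 : ℝ) * (th0 (i + 1) b - th0 (i + 1) a) := by
    have h7 : c ^ (-(7 * (i + 1 : ℕ) / 20 : ℝ)) * (th0 i b - th0 i a) =
        c ^ (-(7 * (i + 1 : ℕ) / 20 : ℝ)) *
          (c ^ (7 / 20 : ℝ) * (th0 (i + 1) b - th0 (i + 1) a)) := by
      rw [h4] at he
      linear_combination -he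
    exact mul_left_cancel₀ h5.ne' h7
  rw [h6]
  refine mul_le_mul_of_nonneg_right ?_ hpos.le
  exact Real.rpow_le_rpow hc0.le hc.2.le (by norm_num)

/-- small distances to the integers -/
theorem near {D κ : ℝ} (h0 : 0 < D) (h1 : D < 1 / 2) (hκ : κ ≤ 1 / 2) {a : ℤ} (h : |D - a| < κ) :
    D < κ := by
  rw [abs_lt] at h
  have ha1 : (-1 : ℝ) < a := by linarith
  have ha2 : (a : ℝ) < 1 := by linarith
  have ha1' : -1 < a := by exact_mod_cast ha1
  have ha2' : a < 1 := by exact_mod_cast ha2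
  have ha : a = 0 := by omega
  rw [ha, Int.cast_zero, sub_zero] at h
  exact h.2

end SepL

open SepL in
/-- **The passes are separated.** -/
theorem sep : S_SEP := by
  refine ⟨41 ^ 20, by norm_num, ?_⟩
  intro τ hτ k hk
  have hτ0 : (0 : ℝ) < τ := lt_of_lt_of_le (by norm_num) hτ
  have hτ1 : (1 : ℝ) ≤ τ := le_trans (by norm_num) hτ
  have hk1 : (1 : ℝ) ≤ k := by exact_mod_cast hk
  set σ : ℝ := τ + k with hσ
  have hτσ : τ < σ := by linarith
  have hσ0 : 0 < σ := hτ0.trans hτσ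
  set u : ℝ := τ ^ (7 / 20 : ℝ) with hu
  set v : ℝ := σ ^ (7 / 20 : ℝ) with hv
  have hu0 : 0 < u := Real.rpow_pos_of_pos hτ0 _
  have hv0 : 0 < v := Real.rpow_pos_of_pos hσ0 _
  have hκ : τ ^ (-7 / 20 : ℝ) = u⁻¹ := by
    rw [hu, ← Real.rpow_neg hτ0.le]
    norm_num
  have hu1 : 1 ≤ u := Real.one_le_rpow hτ1 (by norm_num)
  have hκ1 : 1 / 16 * u⁻¹ ≤ 1 / 2 := by
    have : u⁻¹ ≤ 1 := inv_le_one_of_one_le₀ hu1
    linarith
  rw [hκ]
  by_contra hcon
  push Not at hcon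
  obtain ⟨a1, h1⟩ := hcon 1 (Or.inl rfl)
  obtain ⟨a2, h2⟩ := hcon 2 (Or.inr (Or.inl rfl))
  obtain ⟨a3, h3⟩ := hcon 3 (Or.inr (Or.inr rfl))
  obtain ⟨c1, p2⟩ := cmp (Or.inl rfl) hτ0 hτσ
  obtain ⟨c2, p3⟩ := cmp (Or.inr rfl) hτ0 hτσ
  norm_num at c1 c2 p2 p3
  set D1 := th0 1 σ - th0 1 τ with hD1
  set D2 := th0 2 σ - th0 2 τ with hD2
  set D3 := th0 3 σ - th0 3 τ with hD3
  -- the third component
  set x : ℝ := τ ^ (-1 / 20 : ℝ) with hx
  set y : ℝ := σ ^ (-1 / 20 : ℝ) with hy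
  have hx0 : 0 < x := Real.rpow_pos_of_pos hτ0 _
  have hy0 : 0 < y := Real.rpow_pos_of_pos hσ0 _
  have hth3 : th0 3 = fun t : ℝ => -20 * t ^ (-1 / 20 : ℝ) := by
    funext t
    simp [th0]
  have hD3' : D3 = 20 * (x - y) := by
    rw [hD3, hth3, hx, hy]
    ring
  have hx1 : x ≤ 1 / 41 := by
    have h4 : x ≤ ((41 : ℝ) ^ 20) ^ (-1 / 20 : ℝ) :=
      Real.rpow_le_rpow_of_nonpos (by norm_num) hτ (by norm_num)
    refine h4.trans (le_of_eq ?_)
    rw [← Real.rpow_natCast, ← Real.rpow_mul (by norm_num)]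
    norm_num [Real.rpow_neg_one]
  have hD3a : D3 < 1 / 2 := by
    rw [hD3']
    linarith
  have hD3b := near (by linarith) hD3a hκ1 h3
  by_cases hr : v ≤ 8 * u
  · have h5 : D2 < 1 / 2 := by
      have : v * D3 < 8 * u * (1 / 16 * u⁻¹) := by
        have h6 : v * D3 ≤ 8 * u * D3 := mul_le_mul_of_nonneg_right hr (by linarith)
        exact lt_of_le_of_lt h6 (mul_lt_mul_of_pos_left hD3b (by positivity))
      have h7 : 8 * u * (1 / 16 * u⁻¹) = 1 / 2 := by
        field_simp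
        norm_num
      linarith
    have h6 := near (by linarith) h5 hκ1 h2
    -- the first component from below
    have hc1 : ContinuousOn (th0 1) (Icc τ σ) := fun x hx =>
      (hd (Or.inl rfl) (hτ0.trans_le hx.1)).continuousAt.continuousWithinAt
    obtain ⟨d, hd1, hd2⟩ := exists_hasDerivAt_eq_slope (th0 1)
      (fun x => x ^ (-(7 * (1 : ℕ) / 20 : ℝ))) hτσ hc1
        (fun x hx => hd (Or.inl rfl) (hτ0.trans hx.1))
    have hd0 : 0 < d := hτ0.trans hd1.1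
    have h7 : v⁻¹ ≤ D1 := by
      have h8 : v⁻¹ ≤ d ^ (-(7 * (1 : ℕ) / 20 : ℝ)) := by
        rw [hv, ← Real.rpow_neg hσ0.le]
        have h9 : (-(7 * (1 : ℕ) / 20 : ℝ)) = -(7 / 20) := by norm_num
        rw [h9]
        exact Real.rpow_le_rpow_of_nonpos hd0 hd1.2.le (by norm_num)
      have h10 : d ^ (-(7 * (1 : ℕ) / 20 : ℝ)) = D1 / (σ - τ) := hd2
      have h11 : 1 ≤ σ - τ := by linarith
      have h12 : 0 < D1 / (σ - τ) := lt_of_lt_of_le (by positivity) (h10 ▸ h8)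
      have h13 : D1 / (σ - τ) ≤ D1 := by
        have h14 : 0 < D1 := by
          have := mul_pos h12 (by linarith : 0 < σ - τ)
          rwa [div_mul_cancel₀ _ (by linarith)] at this
        exact div_le_self h14.le h11
      linarith
    have h5' : D1 < 1 / 2 := by
      have : v * D2 < 8 * u * (1 / 16 * u⁻¹) := by
        have h6' : v * D2 ≤ 8 * u * D2 := mul_le_mul_of_nonneg_right hr (by linarith)
        exact lt_of_le_of_lt h6' (mul_lt_mul_of_pos_left h6 (by positivity))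
      have h7 : 8 * u * (1 / 16 * u⁻¹) = 1 / 2 := by
        field_simp
        norm_num
      linarith
    have h8 := near (lt_of_lt_of_le (by positivity) h7) h5' hκ1 h1
    have h9 : (8 * u)⁻¹ ≤ v⁻¹ := inv_anti₀ hv0 hr
    rw [mul_inv] at h9
    have h10 : 0 < u⁻¹ := by positivity
    linarith
  · push Not at hr
    -- now `σ` is much larger than `τ`
    have h5 : 256 * τ ≤ σ := by
      by_contra hlt
      push Not at hlt
      have h6 : v ≤ (256 * τ) ^ (7 / 20 : ℝ) := Real.rpow_le_rpow hσ0.le hlt.le (by norm_num)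
      rw [Real.mul_rpow (by norm_num) hτ0.le] at h6
      have h7 : (256 : ℝ) ^ (7 / 20 : ℝ) ≤ 8 := by
        have h8 : (256 : ℝ) ^ (7 / 20 : ℝ) ≤ (256 : ℝ) ^ (3 / 8 : ℝ) :=
          Real.rpow_le_rpow_of_exponent_le (by norm_num) (by norm_num)
        have h9 : (256 : ℝ) ^ (3 / 8 : ℝ) = 8 := by
          rw [show (256 : ℝ) = 2 ^ (8 : ℝ) by norm_num, ← Real.rpow_mul (by norm_num)]
          norm_num
        linarith
      have h10 : (256 : ℝ) ^ (7 / 20 : ℝ) * u ≤ 8 * u := mul_le_mul_of_nonneg_right h7 hu0.le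
      linarith
    have h6 : y ≤ 4 / 5 * x := by
      have h7 : y ≤ (256 * τ) ^ (-1 / 20 : ℝ) :=
        Real.rpow_le_rpow_of_nonpos (by positivity) h5 (by norm_num)
      rw [Real.mul_rpow (by norm_num) hτ0.le, ← hx] at h7
      have h8 : (256 : ℝ) ^ (-1 / 20 : ℝ) ≤ 4 / 5 := by
        have h9 : (256 : ℝ) ^ (-1 / 20 : ℝ) = (2 : ℝ) ^ (-(2 : ℝ) / 5) := by
          rw [show (256 : ℝ) = 2 ^ (8 : ℝ) by norm_num, ← Real.rpow_mul (by norm_num)]
          norm_num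
        rw [h9]
        have h10 : ((2 : ℝ) ^ (-(2 : ℝ) / 5)) ^ 5 ≤ (4 / 5) ^ 5 := by
          rw [← Real.rpow_natCast, ← Real.rpow_mul (by norm_num)]
          norm_num [Real.rpow_neg]
        exact le_of_pow_le_pow_left₀ (by norm_num) (by norm_num) h10
      have h11 : (256 : ℝ) ^ (-1 / 20 : ℝ) * x ≤ 4 / 5 * x := mul_le_mul_of_nonneg_right h8 hx0.le
      linarith
    have h7 : 4 * x ≤ D3 := by
      rw [hD3']
      linarith
    have h8 : u⁻¹ ≤ x := by
      rw [← hκ]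
      exact Real.rpow_le_rpow_of_exponent_le hτ1 (by norm_num)
    have h9 : 0 < u⁻¹ := by positivity
    linarith

end Pool.Agent.Helper6K9.ES
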