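import Pool.Agent.Helper6K9.ES.Ct
import Pool.Agent.Helper6K9.ES.Conv
import Pool.Agent.Helper6K9.ES.Mol
import Pool.Agent.Helper6K9.ES.Red
import Pool.Agent.Helper6K9.ES.Tub
import Pool.Agent.Helper6K9.ES.Cmp
import Pool.Agent.Helper6K9.ES.Tay
import Pool.Agent.Helper6K9.ES.Zp
import Pool.Agent.Helper6K9.ES.Lim
import Pool.Agent.Helper6K9.ES.Ops
import Pool.Agent.Helper6K9.ES.Sep
import Pool.Agent.Helper6K9.ES.Ode
import Pool.Agent.Helper6K9.ES.Avg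

set_option autoImplicit false

/-!
# The main theorem
-/

namespace Pool.Agent.Helper6K9.ES

open Set Filter Topology
open scoped ContDiff

theorem fin : S_FIN :=
  red mol avg (ct ops sep lim tub_bd tug ode
    (apx ops (cmp ops) (tay ops (cmp ops)) (zp ops (cmp ops))))

theorem main {m : ℕ} (hm : 3 ≤ m) (A : Matrix (Fin (m + 1)) (Fin (m + 1)) ℝ) (hA : A.PosDef)
    (f₀ : E m → ℝ) (hf : ContDiff ℝ 2 f₀) (hp : Per f₀) (ε : ℝ) (hε : 0 < ε) :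
    ∃ f : E m → ℝ, ContDiff ℝ 2 f ∧ Per f ∧
      (∀ (j : ℕ) (p : E m), j ≤ 2 → ‖iteratedFDeriv ℝ j (fun q => f q - f₀ q) p‖ ≤ ε) ∧
      ∃ γ : ℝ → Q m, ((∀ t, DifferentiableAt ℝ γ t) ∧ ∀ (t : ℝ) (i : Fin (m + 1)),
        HasDerivAt (fun s => dv (lag A f) i (γ s) (deriv γ s) s)
          (dx (lag A f) i (γ t) (deriv γ t) t) t) ∧
        ∃ c : ℝ, 0 < c ∧ ∀ᶠ t : ℝ in atTop, c * t ^ (1 / 4 : ℝ) ≤ ‖deriv γ t‖ := by
  obtain ⟨f, γ, h1, h2, h3, h4, c, hc, h5⟩ := fin m hm A f₀ ε hε hA hf hp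
  have hsym : A.IsSymm := by
    have := hA.isHermitian.eq
    rwa [Matrix.conjTranspose_eq_transpose_of_trivial] at this
  have h6 := orbit_of_sol A hsym f (h1.differentiable (by norm_num)) γ h4
  refine ⟨f, h1, h2, fun j p hj => small_iter h3 p j hj, γ, h6, c, hc, ?_⟩
  filter_upwards [h5] with t ht
  obtain ⟨i, hi⟩ := ht
  have e1 : deriv γ t i = deriv (fun s => γ s i) t :=
    ((hasDerivAt_pi.1 (h6.1 t).hasDerivAt) i).deriv.symm
  rw [← e1] at hi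
  exact hi.trans (norm_le_pi_norm (deriv γ t) i)

end Pool.Agent.Helper6K9.ES
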