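import Pool.Agent.Helper6K9.ES.Defs

set_option autoImplicit false

/-!
# Orbits which escape to infinity on flat tori: the statements of the parts
-/

namespace Pool.Agent.Helper6K9.ES

open Set Filter Topology
open scoped ContDiff

/-- the operators `av`, `an` -/
def S_OPS : Prop := ∀ (m : ℕ) (F : E m → ℝ), Sm F →
  (∀ i, Sm (dX i F)) ∧ Sm (dT F) ∧ Sm (av F) ∧ Sm (an F) ∧
  (∀ i, dX i (av F) = av (dX i F)) ∧ dT (av F) = av (dT F) ∧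
  (∀ i, dX i (an F) = an (dX i F)) ∧ dT (an F) = an (dT F) ∧
  (∀ p, dX 0 (an F) p = F p - av F p) ∧ (∀ p, av (dX 0 F) p = 0) ∧
  av (av F) = av F ∧ (∀ p, av (an F) p = 0)

/-- the passes are separated -/
def S_SEP : Prop := ∃ T₀ : ℝ, 1 ≤ T₀ ∧ ∀ τ : ℝ, T₀ ≤ τ → ∀ k : ℕ, 1 ≤ k →
  ∃ i : ℕ, (i = 1 ∨ i = 2 ∨ i = 3) ∧ ∀ a : ℤ,
    1 / 16 * τ ^ (-7 / 20 : ℝ) ≤ |th0 i (τ + k) - th0 i τ - a|

/-- periodisation of a function supported in disjoint tubes -/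
def S_LIM : Prop := ∀ (m : ℕ) (G : E m → ℝ) (η : ℝ → ℝ) (ε : ℝ), ContDiff ℝ 2 G →
  (∀ p, p.2 ≤ 1 → G p = 0) →
  (∀ (p : E m) (k : Fin (m + 1) → ℤ), G (p.1 + (fun i => (k i : ℝ)), p.2) = G p) →
  Antitone η → Tendsto η atTop (𝓝 0) → (∀ t, η t ≤ ε) →
  (∀ p, |G p| ≤ η p.2 ∧ ‖fderiv ℝ G p‖ ≤ η p.2 ∧ ‖fderiv ℝ (fderiv ℝ G) p‖ ≤ η p.2) →
  (∀ (p : E m) (k : ℕ), 1 ≤ k → G =ᶠ[𝓝 p] 0 ∨ G =ᶠ[𝓝 (p.1, p.2 + k)] 0) →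
  ∃ g : E m → ℝ, ContDiff ℝ 2 g ∧ Per g ∧ Small g ε ∧
    ∀ p : E m, (∀ k : ℤ, k ≠ 0 → G =ᶠ[𝓝 (p.1, p.2 + k)] 0) → fderiv ℝ g p = fderiv ℝ G p

/-- bounds for the tube potential -/
def S_TUB : Prop := ∀ (m : ℕ) (X : ℝ → Q m) (R : Fin (m + 1) → ℝ → ℝ),
  (∀ i, SyA (-1 / 2) fun t => X t i - th m t i) → (∀ i, SyA (-1 / 2) (R i)) →
  SyA (-3 / 4) (R 0) →
  ContDiffOn ℝ 2 (tub X R) {p | 0 < p.2} ∧ ∃ C : ℝ, ∀ p : E m, 1 ≤ p.2 →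
    |tub X R p| ≤ C * p.2 ^ (-1 / 20 : ℝ) ∧ ‖fderiv ℝ (tub X R) p‖ ≤ C * p.2 ^ (-1 / 20 : ℝ) ∧
    ‖fderiv ℝ (fderiv ℝ (tub X R)) p‖ ≤ C * p.2 ^ (-1 / 20 : ℝ)

/-- the force of the tube potential on the curve -/
def S_TUG : Prop := ∀ (m : ℕ) (X : ℝ → Q m) (R : Fin (m + 1) → ℝ → ℝ) (t : ℝ), 0 < t →
  DifferentiableAt ℝ (tub X R) (X t, t) → ∀ i, dX i (tub X R) (X t, t) = R i t

/-- different passes of the tube are disjoint -/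
def S_DIS : Prop := ∀ (m : ℕ), 3 ≤ m → ∀ (X : ℝ → Q m) (R : Fin (m + 1) → ℝ → ℝ),
  (∀ i, SyA (-1 / 2) fun t => X t i - th m t i) →
  ∃ T₁ : ℝ, 1 ≤ T₁ ∧ ∀ p : E m, T₁ ≤ p.2 → ∀ k : ℕ, 1 ≤ k →
    tub X R =ᶠ[𝓝 p] 0 ∨ tub X R =ᶠ[𝓝 (p.1, p.2 + k)] 0

/-- global solutions -/
def S_ODE : Prop := ∀ (m : ℕ) (A : Matrix (Fin (m + 1)) (Fin (m + 1)) ℝ) (f : E m → ℝ) (T : ℝ)
  (X : ℝ → Q m), IsUnit A.det → ContDiff ℝ 2 f → Per f → Sol A f X (Ioi T) →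
  ∃ γ : ℝ → Q m, Sol A f γ univ ∧ ∀ t, T + 1 ≤ t → γ t = X t

/-- smoothing -/
def S_MOL : Prop := ∀ (m : ℕ) (f : E m → ℝ) (ε : ℝ), 0 < ε → ContDiff ℝ 2 f → Per f →
  ∃ h : E m → ℝ, Sm h ∧ Small (fun p => h p - f p) ε

/-- removal of the average along a long closed geodesic -/
def S_AVG : Prop := ∀ (m : ℕ) (h : E m → ℝ) (ε : ℝ), 0 < ε → Sm h →
  ∃ (M : ℕ) (h₂ : E m → ℝ), Sm h₂ ∧ Small (fun p => h₂ p - h p) ε ∧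
    ∀ p q : E m, p.2 = q.2 →
      ∫ s in (0 : ℝ)..1, h₂ (p.1 + s • om m M, p.2) =
      ∫ s in (0 : ℝ)..1, h₂ (q.1 + s • om m M, q.2)

/-- functions on a curve are symbols -/
def S_CMP : Prop := ∀ (m : ℕ) (Y : ℝ → Q m) (F : E m → ℝ), Crv Y → Sm F →
  SyA 0 (fun t => F (Y t, t)) ∧ ∀ t : ℝ, 0 < t →
    HasDerivAt (fun t => F (Y t, t))
      ((∑ i, dX i F (Y t, t) * deriv (fun s => Y s i) t) + dT F (Y t, t)) t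

/-- Taylor expansion -/
def S_TAY : Prop := ∀ (m : ℕ) (Y u : ℝ → Q m) (F : E m → ℝ), Crv Y → Sm F →
  (∀ i, SyA (-1 / 2) fun t => u t i) →
  (SyA (-1 / 2) fun t => F (Y t + u t, t) - F (Y t, t)) ∧
  SyA (-1) fun t => F (Y t + u t, t) - F (Y t, t) - ∑ i, dX i F (Y t, t) * u t i

/-- solution of the linear equation -/
def S_ZP : Prop := ∀ (m : ℕ) (a : ℝ) (F : E m → ℝ), Sm F → (∀ q, av F q = 0) →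
  ∃ u : ℝ → ℝ, SyA (a - 1 / 2) u ∧
    (SyA (a - 3 / 4) fun t => u t - t ^ (a - 1 / 2) * an (an F) (th m t, t)) ∧
    SyA (a - 3 / 4) fun t => t ^ a * F (th m t, t) - deriv (deriv u) t

/-- the approximate solution -/
def S_APX : Prop := ∀ (m : ℕ) (A B : Matrix (Fin (m + 1)) (Fin (m + 1)) ℝ) (h : E m → ℝ),
  A.IsSymm → A * B = 1 → Sm h → (∀ i p, av (dX i h) p = 0) →
  ∃ X : ℝ → Q m, (∀ i, SyA (-1 / 2) fun t => X t i - th m t i) ∧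
    (∀ i, SyA (-1 / 2) (res A h X i)) ∧ SyA (-3 / 4) (res A h X 0)

/-- the theorem in adapted coordinates -/
def S_CT : Prop := ∀ (m : ℕ), 3 ≤ m → ∀ (A : Matrix (Fin (m + 1)) (Fin (m + 1)) ℝ)
  (h : E m → ℝ) (ε : ℝ), 0 < ε → A.PosDef → Sm h → (∀ p q : E m, p.2 = q.2 → av h p = av h q) →
  ∃ (g : E m → ℝ) (γ : ℝ → Q m), ContDiff ℝ 2 g ∧ Per g ∧ Small g ε ∧
    Sol A (fun p => h p + g p) γ univ ∧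
    ∃ c : ℝ, 0 < c ∧ ∀ᶠ t : ℝ in atTop, c * t ^ (1 / 4 : ℝ) ≤ deriv (fun s => γ s 0) t

/-- the theorem -/
def S_FIN : Prop := ∀ (m : ℕ), 3 ≤ m → ∀ (A : Matrix (Fin (m + 1)) (Fin (m + 1)) ℝ)
  (f₀ : E m → ℝ) (ε : ℝ), 0 < ε → A.PosDef → ContDiff ℝ 2 f₀ → Per f₀ →
  ∃ (f : E m → ℝ) (γ : ℝ → Q m), ContDiff ℝ 2 f ∧ Per f ∧ Small (fun p => f p - f₀ p) ε ∧
    Sol A f γ univ ∧
    ∃ c : ℝ, 0 < c ∧ ∀ᶠ t : ℝ in atTop, ∃ i, c * t ^ (1 / 4 : ℝ) ≤ |deriv (fun s => γ s i) t|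

end Pool.Agent.Helper6K9.ES
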