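import Pool.Agent.Helper6K9.ES.Alg
import Pool.Agent.Helper6K9.ES.Stm

set_option autoImplicit false

/-!
# The resonant force of second order has no component in the direction of the geodesic
-/

namespace Pool.Agent.Helper6K9.ES

open Set Filter Topology
open scoped ContDiff

variable {m : ℕ}

/-- The resonant part of `∑ j, ∂_j ∂_0 h · I² G_j` vanishes, `G = A⁻¹ ∇h`. -/
theorem zero_mode (ho : S_OPS) (A : Matrix (Fin (m + 1)) (Fin (m + 1)) ℝ) (hs : A.IsSymm)
    (h : E m → ℝ) (hh : Sm h) (G : Fin (m + 1) → E m → ℝ) (hG : ∀ j, Sm (G j))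
    (hG0 : ∀ j p, av (G j) p = 0) (hA : ∀ j p, dX j h p = ∑ k, A j k * G k p) (p : E m) :
    av (fun p => ∑ j, dX j (dX 0 h) p * an (an (G j)) p) p = 0 := by
  set a : Fin (m + 1) → E m → ℝ := fun k => an (G k) with ha
  set b : Fin (m + 1) → E m → ℝ := fun k => an (a k) with hb
  have hSa : ∀ k, Sm (a k) := fun k => (ho m (G k) (hG k)).2.2.2.1
  have hSb : ∀ k, Sm (b k) := fun k => (ho m (a k) (hSa k)).2.2.2.1
  have hda : ∀ k q, dX 0 (a k) q = G k q := by
    intro k q
    rw [(ho m (G k) (hG k)).2.2.2.2.2.2.2.2.1 q, hG0, sub_zero]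
  have hava : ∀ k q, av (a k) q = 0 := fun k q => (ho m (G k) (hG k)).2.2.2.2.2.2.2.2.2.2.2 q
  have hdb : ∀ k q, dX 0 (b k) q = a k q := by
    intro k q
    rw [(ho m (a k) (hSa k)).2.2.2.2.2.2.2.2.1 q, hava, sub_zero]
  have hSF : ∀ j, Sm (dX j h) := fun j => (ho m h hh).1 j
  have hSdF : ∀ j, Sm (dX 0 (dX j h)) := fun j => (ho m _ (hSF j)).1 0
  have hSda : ∀ j, Sm (dX 0 (a j)) := fun j => (ho m _ (hSa j)).1 0
  -- integrate by parts
  have e1 : ∀ j, av (fun q => dX j (dX 0 h) q * b j q) p =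
      - ∑ k, A j k * av (fun q => dX 0 (a k) q * a j q) p := by
    intro j
    have s1 : (fun q => dX j (dX 0 h) q * b j q) =
        fun q => dX 0 (fun q => dX j h q * b j q) q - dX j h q * a j q := by
      funext q
      rw [dX_mul 0 (hSF j) (hSb j), hdb, dX_comm j 0 hh]
      ring
    have s2 : av (fun q => dX 0 (fun q => dX j h q * b j q) q) p = 0 :=
      (ho m _ ((hSF j).mul (hSb j))).2.2.2.2.2.2.2.2.2.1 p
    have s3 : (fun q => dX j h q * a j q) = fun q => ∑ k, A j k * (dX 0 (a k) q * a j q) := by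
      funext q
      rw [hA, Finset.sum_mul]
      exact Finset.sum_congr rfl fun k _ => by rw [hda]; ring
    rw [s1, av_sub ((ho m _ ((hSF j).mul (hSb j))).1 0).cont ((hSF j).mul (hSa j)).cont, s2, s3,
      av_sum _ fun k _ => (((hSda k).mul (hSa j)).const_mul _).cont, zero_sub]
    congr 1
    exact Finset.sum_congr rfl fun k _ => av_const_mul _ _ _
  have e2 : av (fun p => ∑ j, dX j (dX 0 h) p * an (an (G j)) p) p =
      - ∑ j, ∑ k, A j k * av (fun q => dX 0 (a k) q * a j q) p := by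
    have : (fun p => ∑ j, dX j (dX 0 h) p * an (an (G j)) p) =
        fun q => ∑ j, dX j (dX 0 h) q * b j q := rfl
    rw [this, av_sum _ fun j _ => (((ho m _ ((ho m h hh).1 0)).1 j).mul (hSb j)).cont,
      ← Finset.sum_neg_distrib]
    exact Finset.sum_congr rfl fun j _ => e1 j
  -- symmetry
  have e3 : ∑ j, ∑ k, A j k * av (fun q => dX 0 (a k) q * a j q) p =
      ∑ j, ∑ k, A j k * av (fun q => a k q * dX 0 (a j) q) p := by
    rw [Finset.sum_comm]
    refine Finset.sum_congr rfl fun j _ => Finset.sum_congr rfl fun k _ => ?_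
    rw [hs.apply]
    congr 2
    funext q
    ring
  have e4 : ∑ j, ∑ k, A j k * av (fun q => dX 0 (a k) q * a j q) p +
      ∑ j, ∑ k, A j k * av (fun q => a k q * dX 0 (a j) q) p = 0 := by
    rw [← Finset.sum_add_distrib]
    refine Finset.sum_eq_zero fun j _ => ?_
    rw [← Finset.sum_add_distrib]
    refine Finset.sum_eq_zero fun k _ => ?_
    rw [← mul_add, ← av_add ((hSda k).mul (hSa j)).cont ((hSa k).mul (hSda j)).cont]
    have s1 : (fun q => dX 0 (a k) q * a j q + a k q * dX 0 (a j) q) =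
        dX 0 (fun q => a k q * a j q) := by
      funext q
      rw [dX_mul 0 (hSa k) (hSa j)]
    rw [s1, (ho m _ ((hSa k).mul (hSa j))).2.2.2.2.2.2.2.2.2.1 p, mul_zero]
  rw [e2]
  linarith

end Pool.Agent.Helper6K9.ES
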